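import Pool.Agent.H856.DW.Roots
import Mathlib.RingTheory.RootsOfUnity.Complex

set_option autoImplicit false
set_option linter.unusedSectionVars false
set_option linter.unusedVariables false

/-!
# Multisets with rational power sums, and the scaling of characteristic polynomials
-/

namespace Pool.Agent.H856.SO

open Pool.Agent.H425 Pool.Agent.H856.DW Polynomial

/-- the polynomial with the given roots is rational -/
theorem exists_rat (Γ : Multiset ℂ) (S : ℕ → ℚ)
    (hS : ∀ s, 1 ≤ s → (Γ.map (fun γ => γ ^ s)).sum = (S s : ℂ)) :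
    ∃ P : ℚ[X], ∀ x : ℂ, aeval x P = 0 ↔ x ∈ Γ := by
  classical
  set l := Γ.toList with hl
  have hΓ : (l : Multiset ℂ) = Γ := Multiset.coe_toList Γ
  let v : Fin l.length → ℂ := fun i => l.get i
  let M : Matrix (Fin l.length) (Fin l.length) ℂ := Matrix.diagonal v
  have hsum : ∀ s, ∑ i, v i ^ s = (Γ.map (fun γ => γ ^ s)).sum := by
    intro s
    have h1 : (Γ.map (fun γ => γ ^ s)).sum = (l.map (fun γ => γ ^ s)).sum := by
      rw [← hΓ]
      simp
    rw [h1, ← List.sum_ofFn]
    congr 1
    apply List.ext_getElem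
    · simp
    · intro i h1 h2
      simp [v]
  have htr : ∀ j, (M ^ (j + 1)).trace = (S (j + 1) : ℂ) := by
    intro j
    rw [← hS (j + 1) (by omega), ← hsum, Matrix.diagonal_pow, Matrix.trace_diagonal]
    rfl
  have hcs : ∀ r, ∃ c : ℚ, (cs M).coeff r = (c : ℂ) := by
    intro r
    induction r using Nat.strong_induction_on with
    | _ r ih =>
      cases r with
      | zero => exact ⟨1, by rw [cs_zero]; simp⟩
      | succ r =>
        choose c hc using fun (j : ℕ) (hj : j < r + 1) => ih j hj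
        let c' : ℕ → ℚ := fun j => if h : j < r + 1 then c j h else 0
        have hc' : ∀ j, j < r + 1 → (cs M).coeff j = (c' j : ℂ) := by
          intro j hj
          rw [hc j hj]
          simp only [c', dif_pos hj]
        refine ⟨(((r + 1 : ℕ) : ℚ))⁻¹ * -∑ j ∈ Finset.range (r + 1), S (j + 1) * c' (r - j), ?_⟩
        have h1 := newton M r
        have h2 : ((r + 1 : ℕ) : ℂ) ≠ 0 := Nat.cast_ne_zero.2 (Nat.succ_ne_zero r)
        apply mul_left_cancel₀ h2
        rw [h1]
        push_cast
        rw [← mul_assoc, mul_inv_cancel₀ (by exact_mod_cast h2), one_mul]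
        congr 1
        refine Finset.sum_congr rfl fun j hj => ?_
        rw [Finset.mem_range] at hj
        rw [htr, hc' (r - j) (by omega)]
  choose c hc using hcs
  refine ⟨PP c l.length, fun x => ?_⟩
  have h1 : M.charpoly = (PP c l.length).map (algebraMap ℚ ℂ) := by
    rw [charpoly_PP, PP, PP, Polynomial.map_sum, Fintype.card_fin]
    refine Finset.sum_congr rfl fun r _ => ?_
    rw [hc, Polynomial.map_mul, map_C, Polynomial.map_pow, map_X]
    rfl
  rw [aeval_def, ← eval_map, ← h1, Matrix.charpoly_diagonal, eval_prod, Finset.prod_eq_zero_iff]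
  constructor
  · rintro ⟨i, _, hi⟩
    rw [eval_sub, eval_X, eval_C, sub_eq_zero] at hi
    rw [hi, ← hΓ]
    exact List.get_mem l i
  · intro hx
    rw [← hΓ, Multiset.mem_coe] at hx
    obtain ⟨i, hi⟩ := List.get_of_mem hx
    refine ⟨i, Finset.mem_univ _, ?_⟩
    rw [eval_sub, eval_X, eval_C, sub_eq_zero]
    exact hi.symm

/-- **conjugate elements** -/
theorem conj (Γ : Multiset ℂ) (S : ℕ → ℚ)
    (hS : ∀ s, 1 ≤ s → (Γ.map (fun γ => γ ^ s)).sum = (S s : ℂ)) (q : ℚ) {n : ℕ} (hn : 0 < n)
    (η η' : ℂ) (hη : IsPrimitiveRoot η n) (hη' : IsPrimitiveRoot η' n)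
    (h : (q : ℂ) * η ∈ Γ) : (q : ℂ) * η' ∈ Γ := by
  obtain ⟨P, hP⟩ := exists_rat Γ S hS
  rw [← hP] at h ⊢
  have e1 : ∀ x : ℂ, aeval x (P.comp (C q * X)) = aeval ((q : ℂ) * x) P := by
    intro x
    rw [aeval_comp, map_mul, aeval_C, aeval_X]
    rfl
  rw [← e1] at h ⊢
  have h2 := minpoly.dvd ℚ η h
  rw [← cyclotomic_eq_minpoly_rat hη hn, cyclotomic_eq_minpoly_rat hη' hn] at h2
  obtain ⟨Q, hQ⟩ := h2
  rw [hQ, map_mul, minpoly.aeval, zero_mul]

/-- root multiplicities after scaling the variable -/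
theorem rootMultiplicity_scale_le {F : Type} [Field F] (P : F[X]) (c : F) (hc : c ≠ 0) (b : F) :
    P.rootMultiplicity (c * b) ≤ (P.comp (C c * X)).rootMultiplicity b := by
  by_cases hP : P = 0
  · rw [hP, zero_comp, rootMultiplicity_zero, rootMultiplicity_zero]
  have hP' : P.comp (C c * X) ≠ 0 := by
    intro h
    apply hP
    have h1 : P = (P.comp (C c * X)).comp (C c⁻¹ * X) := by
      rw [comp_assoc, mul_comp, C_comp, X_comp, ← mul_assoc, ← C_mul, mul_inv_cancel₀ hc, C_1,
        one_mul, comp_X]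
    rw [h1, h, zero_comp]
  rw [le_rootMultiplicity_iff hP']
  obtain ⟨Q, hQ⟩ := pow_rootMultiplicity_dvd P (c * b)
  have h2 : P.comp (C c * X) = ((X - C (c * b)).comp (C c * X)) ^ P.rootMultiplicity (c * b) *
      Q.comp (C c * X) := by
    conv_lhs => rw [hQ]
    rw [mul_comp, pow_comp]
  rw [h2, sub_comp, X_comp, C_comp, C_mul, ← mul_sub, mul_pow]
  exact Dvd.dvd.mul_right (dvd_mul_left _ _) _

theorem rootMultiplicity_scale {F : Type} [Field F] (P : F[X]) (c : F) (hc : c ≠ 0) (b : F) :
    (P.comp (C c * X)).rootMultiplicity b = P.rootMultiplicity (c * b) := by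
  refine le_antisymm ?_ (rootMultiplicity_scale_le P c hc b)
  have h1 := rootMultiplicity_scale_le (P.comp (C c * X)) c⁻¹ (inv_ne_zero hc) (c * b)
  have h2 : (P.comp (C c * X)).comp (C c⁻¹ * X) = P := by
    rw [comp_assoc, mul_comp, C_comp, X_comp, ← mul_assoc, ← C_mul, mul_inv_cancel₀ hc, C_1,
      one_mul, comp_X]
  rw [h2, ← mul_assoc, inv_mul_cancel₀ hc, one_mul] at h1
  exact h1

theorem charpoly_smul {F J : Type} [Field F] [Fintype J] [DecidableEq J] (M : Matrix J J F)
    (c : F) (hc : c ≠ 0) (b : F) :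
    (c • M).charpoly.rootMultiplicity (c * b) = M.charpoly.rootMultiplicity b := by
  rw [← rootMultiplicity_scale _ c hc b]
  have h1 : (c • M).charpoly.comp (C c * X) = C (c ^ Fintype.card J) * M.charpoly := by
    have h2 := RingHom.map_det (Polynomial.compRingHom (C c * X : F[X])) (c • M).charmatrix
    rw [Polynomial.coe_compRingHom_apply] at h2
    rw [Matrix.charpoly, h2, Matrix.charpoly, C_pow, ← Matrix.det_smul]
    congr 1
    ext1 i j
    rw [RingHom.mapMatrix_apply, Matrix.map_apply, Polynomial.coe_compRingHom_apply,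
      Matrix.charmatrix_apply, Matrix.smul_apply, Matrix.smul_apply, Matrix.charmatrix_apply,
      smul_eq_mul, smul_eq_mul, sub_comp, C_comp, C_mul, mul_sub]
    congr 1
    by_cases h : i = j
    · subst h
      rw [Matrix.diagonal_apply_eq]
      exact X_comp
    · rw [Matrix.diagonal_apply_ne _ h, zero_comp, mul_zero]
  rw [h1]
  have hc' : (C (c ^ Fintype.card J) : F[X]) * M.charpoly ≠ 0 :=
    mul_ne_zero (C_ne_zero.2 (pow_ne_zero _ hc)) (Matrix.charpoly_monic _).ne_zero
  rw [rootMultiplicity_mul hc', rootMultiplicity_C, zero_add]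

end Pool.Agent.H856.SO
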