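import Pool.Agent.H425.Psi

set_option autoImplicit false
set_option linter.unusedSectionVars false
set_option linter.unusedVariables false

/-!
# The Cartier operator on products of powers of linear forms
-/

namespace Pool.Agent.H856.SO

open Pool.Agent.H425 MvPolynomial

variable {p : ℕ} [hp : Fact p.Prime] {B : Type} [CommRing B]

/-- the Cartier operator on two-forms -/
noncomputable def psi2 (p : ℕ) (F : MvPolynomial (Fin 2) B) : MvPolynomial (Fin 2) B :=
  psi Finset.univ p F

theorem coeff_psi2 (F : MvPolynomial (Fin 2) B) (v : Fin 2 →₀ ℕ) :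
    coeff v (psi2 p F) = coeff (ix Finset.univ p v) F := coeff_psi _ hp.out.pos _ _

theorem psi2_add (F G : MvPolynomial (Fin 2) B) : psi2 p (F + G) = psi2 p F + psi2 p G :=
  map_add _ _ _

theorem psi2_neg (F : MvPolynomial (Fin 2) B) : psi2 p (-F) = -psi2 p F :=
  map_neg _ _

theorem psi2_sub (F G : MvPolynomial (Fin 2) B) : psi2 p (F - G) = psi2 p F - psi2 p G :=
  map_sub _ _ _

theorem psi2_zero : psi2 p (0 : MvPolynomial (Fin 2) B) = 0 := map_zero _

theorem psi2_sum {T : Type} (s : Finset T) (F : T → MvPolynomial (Fin 2) B) :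
    psi2 p (∑ i ∈ s, F i) = ∑ i ∈ s, psi2 p (F i) := map_sum _ _ _

theorem psi2_C_mul (c : B) (F : MvPolynomial (Fin 2) B) : psi2 p (C c * F) = C c * psi2 p F := by
  rw [← smul_eq_C_mul, ← smul_eq_C_mul]
  exact map_smul _ _ _

theorem psi2_expand (F G : MvPolynomial (Fin 2) B) :
    psi2 p (expand p F * G) = F * psi2 p G := by
  have h := psi_comp (Finset.univ : Finset (Fin 2)) one_pos hp.out.pos F G
  rw [psi_one, one_mul] at h
  exact h.symm

theorem ix_deg (v : Fin 2 →₀ ℕ) : (ix Finset.univ p v).degree = p * (v.degree + 2) - 2 := by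
  have hp1 := hp.out.one_lt
  rw [Finsupp.degree_eq_sum, Finsupp.degree_eq_sum, Fin.sum_univ_two, Fin.sum_univ_two, ix_apply,
    ix_apply, oneA_apply, oneA_apply, if_pos (Finset.mem_univ _), if_pos (Finset.mem_univ _)]
  have h1 : p * (v 0 + v 1 + 2) = p * (v 0 + 1) + p * (v 1 + 1) := by ring
  have h2 : 1 ≤ p * (v 0 + 1) := Nat.mul_pos (by omega) (by omega)
  have h3 : 1 ≤ p * (v 1 + 1) := Nat.mul_pos (by omega) (by omega)
  omega

theorem coeff_deg {F : MvPolynomial (Fin 2) B} {n : ℕ} (hF : F.totalDegree ≤ n) (v : Fin 2 →₀ ℕ)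
    (h : n < v.degree) : coeff v F = 0 := by
  refine coeff_eq_zero_of_totalDegree_lt ?_
  refine lt_of_le_of_lt hF ?_
  have : ∑ i ∈ v.support, v i = v.degree := rfl
  rw [this]
  exact h

/-- the coefficients that vanish by the degree -/
theorem psi2_high {F : MvPolynomial (Fin 2) B} {n : ℕ} (hF : F.totalDegree ≤ n) (v : Fin 2 →₀ ℕ)
    (h : n + 2 < p * (v.degree + 2)) : coeff v (psi2 p F) = 0 := by
  rw [coeff_psi2]
  refine coeff_deg hF _ ?_
  rw [ix_deg]
  omega

theorem psi2_small {F : MvPolynomial (Fin 2) B} {n : ℕ} (hF : F.totalDegree ≤ n)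
    (h : n + 2 < 2 * p) : psi2 p F = 0 := by
  ext v
  rw [coeff_zero]
  refine psi2_high hF v ?_
  have : p * 2 ≤ p * (v.degree + 2) := Nat.mul_le_mul_left _ (by omega)
  omega

/-- exact forms -/
theorem psi2_pderiv [CharP B p] (i : Fin 2) (F : MvPolynomial (Fin 2) B) :
    psi2 p (pderiv i F) = 0 := by
  ext v
  rw [coeff_psi2, coeff_zero]
  have h : coeff (ix Finset.univ p v) (pderiv i F) =
      coeff (ix Finset.univ p v + Finsupp.single i 1) F * ((ix Finset.univ p v i : B) + 1) := by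
    rw [coeff_pderiv]
  rw [h]
  have h2 : ((ix Finset.univ p v i : ℕ) : B) + 1 = 0 := by
    rw [ix_apply, oneA_apply, if_pos (Finset.mem_univ _)]
    have h3 : 1 ≤ p * (v i + 1) := Nat.mul_pos hp.out.pos (by omega)
    rw [Nat.cast_sub h3]
    push_cast
    rw [CharP.cast_eq_zero]
    ring
  rw [h2, mul_zero]

end Pool.Agent.H856.SO
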