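import Pool.Agent.H856.SO.Trans
import Pool.Agent.H856.DW.Main

set_option autoImplicit false
set_option linter.unusedSectionVars false
set_option linter.unusedVariables false

/-!
# The spectrum and the multiplicities of `q ζ ^ b` over one finite field
-/

namespace Pool.Agent.H856.SO

open Pool.Agent.H425 Pool.Agent.H856.DW Polynomial

section lead

variable {K : Type} [Field K] {n : ℕ}

theorem PP_homog (A : K) (r : Fin n → K) : (PP A r (fun _ => 0)).IsHomogeneous n := by
  have h1 : ∀ j, (ell (r j) (0 : K)).IsHomogeneous 1 := by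
    intro j
    rw [ell, MvPolynomial.C_0, sub_zero]
    refine (MvPolynomial.isHomogeneous_X _ _).sub ?_
    have := (MvPolynomial.isHomogeneous_C (Fin 2) (r j)).mul
      (MvPolynomial.isHomogeneous_X K (1 : Fin 2))
    rwa [zero_add] at this
  have h2 := MvPolynomial.IsHomogeneous.prod Finset.univ (fun j => ell (r j) (0 : K))
    (fun _ => 1) (fun j _ => h1 j)
  rw [Finset.sum_const, smul_eq_mul, mul_one, Finset.card_univ, Fintype.card_fin] at h2
  have h3 := (MvPolynomial.isHomogeneous_C (Fin 2) A).mul h2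
  rw [zero_add] at h3
  exact h3

theorem uni_PP (A : K) (r : Fin n → K) :
    uni (PP A r (fun _ => 0)) = C A * ∏ j, (X - C (r j)) := by
  rw [uni, PP, map_mul, map_prod, MvPolynomial.aeval_C]
  congr 1
  refine Finset.prod_congr rfl fun j _ => ?_
  rw [ell, map_sub, map_sub, map_mul, MvPolynomial.aeval_X, MvPolynomial.aeval_X,
    MvPolynomial.aeval_C, MvPolynomial.aeval_C]
  simp

/-- the leading form of a product of lines -/
theorem lp_PP (A : K) (r s : Fin n → K) (g : MvPolynomial (Fin 2) K) (hg : g.totalDegree < n) :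
    lp n (PP A r s + g) = C A * ∏ j, (X - C (r j)) := by
  ext a
  by_cases h : a ≤ n
  · rw [coeff_lp n _ a (n - a) (by omega), ← uni_PP, coeff_uni (PP_homog A r) a (n - a) (by omega),
      MvPolynomial.coeff_add]
    have hdeg : (pt a (n - a)).degree = n := by
      rw [degree_two, pt_zero, pt_one]
      omega
    rw [coeff_deg (F := g) le_rfl (pt a (n - a)) (by rw [hdeg]; exact hg), add_zero, PP, PP,
      MvPolynomial.coeff_C_mul, MvPolynomial.coeff_C_mul, top_prod]
    rw [hdeg, Finset.card_univ, Fintype.card_fin]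
  · rw [coeff_lp_high n _ a (by omega), coeff_eq_zero_of_natDegree_lt]
    refine lt_of_le_of_lt (natDegree_C_mul_le _ _) ?_
    rw [natDegree_finsetProd_X_sub_C_eq_card, Finset.card_univ, Fintype.card_fin]
    omega

theorem PPg_deg (A : K) (r s : Fin n → K) (g : MvPolynomial (Fin 2) K) (hg : g.totalDegree < n) :
    (PP A r s + g).totalDegree ≤ n := by
  refine deg_add ?_ hg.le
  have := PP_deg A r s
  rwa [Fintype.card_fin] at this

end lead

section NM

variable {A B : Type} [CommRing A] [CommRing B] {n : ℕ}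

theorem map_NM (φ : A →+* B) (c : A) (w : Fin (n + 1) → Fin (n + 1) → A) :
    (red (NM c w)).map φ = red (NM (φ c) (fun i j => φ (w i j))) := by
  ext j i
  rw [Matrix.map_apply, red, red, map_sub, NM, NM, NM, NM, map_mul, map_mul,
    apply_ite φ, apply_ite φ, map_sum, map_neg, map_neg]

theorem sum_NM {T : Type} (S : Finset T) (c : A) (w : T → Fin (n + 1) → Fin (n + 1) → A) :
    ∑ t ∈ S, red (NM c (w t)) = red (NM c (fun i j => ∑ t ∈ S, w t i j)) := by
  ext j i
  rw [Matrix.sum_apply]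
  simp only [red, NM]
  rw [Finset.sum_sub_distrib, ← Finset.mul_sum, ← Finset.mul_sum]
  congr 1
  · congr 1
    by_cases h : Fin.castSucc j = Fin.castSucc i
    · simp only [if_pos h]
      exact Finset.sum_comm
    · simp only [if_neg h]
      rw [Finset.sum_neg_distrib]
  · congr 1
    by_cases h : Fin.last n = Fin.castSucc i
    · simp only [if_pos h]
      exact Finset.sum_comm
    · simp only [if_neg h]
      rw [Finset.sum_neg_distrib]

end NM


/-- the polynomial of the second order -/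
noncomputable def chi (p : ℕ) [Fact p.Prime] {k : Type} [Field k] [Algebra (ZMod p) k] {n : ℕ}
    (r s : Fin (n + 1) → k) (g : MvPolynomial (Fin 2) k) : (ZMod p)[X] :=
  (red (NM (((n + 1 : ℕ) : ZMod p)⁻¹) (fun i j => Algebra.trace (ZMod p) k (ww r s g i j)))).charpoly

theorem chi_map (p : ℕ) [hp : Fact p.Prime] {k K : Type} [Field k] [Finite k] [Algebra (ZMod p) k]
    [Field K] [Algebra k K] [CharP K p] {n : ℕ} (hn : ((n + 1 : ℕ) : ZMod p) ≠ 0)
    (r s : Fin (n + 1) → k) (g : MvPolynomial (Fin 2) k) (m : ℕ) (hm : Nat.card k = p ^ (m + 1)) :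
    (∑ t ∈ Finset.range (m + 1), S0.NK p (fun j => algebraMap k K (r j))
      (fun j => algebraMap k K (s j)) (MvPolynomial.map (algebraMap k K) g) t).charpoly =
      (chi p r s g).map ((algebraMap k K).comp (algebraMap (ZMod p) k)) := by
  have hfin : Module.Finite (ZMod p) k := Module.Finite.of_finite
  have hrank : Module.finrank (ZMod p) k = m + 1 := by
    have h1 := Module.natCard_eq_pow_finrank (K := ZMod p) (V := k)
    rw [hm, Nat.card_eq_fintype_card, ZMod.card] at h1
    exact (Nat.pow_right_injective hp.out.two_le h1).symm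
  rw [chi, ← Matrix.charpoly_map, map_NM]
  congr 1
  simp only [S0.NK]
  rw [sum_NM]
  congr 1
  have hc : ((algebraMap k K).comp (algebraMap (ZMod p) k)) (((n + 1 : ℕ) : ZMod p)⁻¹) =
      ((n + 1 : ℕ) : K)⁻¹ := by
    rw [map_inv₀, map_natCast]
  rw [hc]
  congr 1
  funext i j
  rw [RingHom.comp_apply, FiniteField.algebraMap_trace_eq_sum_pow, map_sum, hrank]
  refine Finset.sum_congr rfl fun t _ => ?_
  rw [iterateFrobenius_def, ← map_ww, map_pow, Nat.card_eq_fintype_card, ZMod.card]

/-- **the spectrum and the multiplicities of `q ζ ^ b`**, with a given cyclotomic field -/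
theorem core_aux (p : ℕ) [hp : Fact p.Prime] (F : Type) [Field F] [Algebra ℚ F]
    [IsCyclotomicExtension {p} ℚ F] {k : Type} [Field k] [Finite k] [Algebra (ZMod p) k] (d : ℕ)
    (hd : 2 ≤ d) (hdp : d ∣ p - 1) (hpd : 3 * d + 3 < p) (A : k) (hA : A ≠ 0)
    (r s : Fin (d - 1 + 1) → k) (hr : Function.Injective r) (hr0 : ∀ j, r j ≠ 0)
    (g : MvPolynomial (Fin 2) k) (hg : 2 * g.totalDegree < d)
    (hord : ∀ w, 2 ≤ w → w < d → (hwm p d (C A * ∏ j, (X - C (r j))) w).det ≠ 0)
    [DecidableEq ℂ] :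
    ∃ (Γ : ℕ → Multiset ℂ) (ζ : ℂ), IsPrimitiveRoot ζ p ∧
      (∀ j ∈ Finset.Ico 1 p, (Γ j).card = (d - 1) ^ 2) ∧
      (∀ (L : Type) [Field L] [Finite L] [Algebra k L],
        (Nat.card {P : (Fin 2 → L) × L // P.2 ^ p - P.2 =
          MvPolynomial.aeval P.1 (PP A r s + g)} : ℂ) =
          (Nat.card L : ℂ) ^ 2 +
            ((∑ j ∈ Finset.Ico 1 p, Γ j).map (fun γ => γ ^ Module.finrank k L)).sum) ∧
      ∀ j ∈ Finset.Ico 1 p, ∀ b : ℕ, (Γ j).count ((Nat.card k : ℂ) * (ζ ^ j) ^ b) ≤
        (chi p r s g).rootMultiplicity (b : ZMod p) := by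
  classical
  have := Fintype.ofFinite k
  have hkp : CharP k p := charP_of_injective_algebraMap (algebraMap (ZMod p) k).injective p
  let K := AlgebraicClosure k
  have hKp : CharP K p := charP_of_injective_algebraMap (algebraMap k K).injective p
  have hp1 := hp.out.one_lt
  have hde : d = d - 1 + 1 := by omega
  -- the cardinality of `k`
  obtain ⟨m, hm⟩ : ∃ m : ℕ, Nat.card k = p ^ (m + 1) := by
    obtain ⟨n, hn1, hn2⟩ := FiniteField.card k p
    refine ⟨n - 1, ?_⟩
    rw [Nat.card_eq_fintype_card, hn2]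
    congr 1
    have := n.2
    have : (n : ℕ) - 1 + 1 = n := Nat.sub_add_cancel n.2
    omega
  set f := PP A r s + g with hf
  set φ := algebraMap k K with hφ
  set fK := MvPolynomial.map φ f with hfK
  set rK : Fin (d - 1 + 1) → K := fun j => φ (r j) with hrK
  set sK : Fin (d - 1 + 1) → K := fun j => φ (s j) with hsK
  set gK := MvPolynomial.map φ g with hgK
  have hfKdec : fK = PP (φ A) rK sK + gK := by
    rw [hfK, hf, map_add, map_PP]
  have hgKdeg : 2 * gK.totalDegree < d := by
    have h1 := totalDegree_map_le' φ g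
    rw [← hgK] at h1
    omega
  have hrKinj : Function.Injective rK := fun i j h => hr (φ.injective h)
  have hlp : lp d fK = C (φ A) * ∏ j, (X - C (rK j)) := by
    have h1 := lp_PP (φ A) rK sK gK (by omega)
    rw [← hfKdec] at h1
    exact (congrArg (fun n => lp n fK) hde).trans h1
  have hAK : φ A ≠ 0 := (_root_.map_ne_zero φ).2 hA
  have hdegprod : (∏ j, (X - C (rK j))).natDegree = d := by
    rw [natDegree_finsetProd_X_sub_C_eq_card, Finset.card_univ, Fintype.card_fin, ← hde]
  have hdegK : (lp d fK).coeff d ≠ 0 := by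
    rw [hlp, coeff_C_mul]
    refine mul_ne_zero hAK ?_
    have h1 : (∏ j, (X - C (rK j))).Monic := monic_prod_of_monic _ _ fun j _ => monic_X_sub_C _
    rw [Monic, leadingCoeff, hdegprod] at h1
    rw [h1]
    exact one_ne_zero
  have h0K : (lp d fK).coeff 0 ≠ 0 := by
    rw [hlp, coeff_zero_eq_eval_zero, eval_mul, eval_C, eval_prod]
    refine mul_ne_zero hAK (Finset.prod_ne_zero_iff.2 fun j _ => ?_)
    rw [eval_sub, eval_X, eval_C, zero_sub]
    exact neg_ne_zero.2 ((_root_.map_ne_zero φ).2 (hr0 j))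
  have hsepK : (lp d fK).Separable := by
    rw [hlp]
    have h1 : (∏ j, (X - C (rK j))).Separable := separable_prod_X_sub_C_iff.2 hrKinj
    exact Separable.unit_mul (isUnit_C.2 (isUnit_iff_ne_zero.2 hAK)) h1
  have hordK : ∀ w, w < d → (hwm p d (lp d fK) w).det ≠ 0 := by
    intro w hw
    by_cases h2 : 2 ≤ w
    · have h3 := hwm_det_map φ p d _ w (hord w h2 hw)
      rw [Polynomial.map_mul, map_C, Polynomial.map_prod] at h3
      simp only [Polynomial.map_sub, map_X, map_C] at h3
      rw [hlp]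
      exact h3
    · exact hwm_small p d _ w (by omega)
  have hdK : (d : K) ≠ 0 := by
    intro h
    have h1 := (CharP.cast_eq_zero_iff K p d).1 h
    have := Nat.le_of_dvd (by omega) h1
    omega
  have hnp : ((d - 1 + 1 : ℕ) : ZMod p) ≠ 0 := by
    intro h
    have h1 := (CharP.cast_eq_zero_iff (ZMod p) p (d - 1 + 1)).1 h
    have := Nat.le_of_dvd (by omega) h1
    omega
  have hsm := smooth d hd hdK fK hdegK h0K hsepK
  have hfKdeg : fK.totalDegree ≤ d := by
    rw [hfKdec]
    exact (PPg_deg (φ A) rK sK gK (by omega)).trans hde.ge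
  have hfix : ∀ x : k, φ x ^ (p ^ (m + 1)) = φ x := by
    intro x
    rw [← map_pow, ← hm, Nat.card_eq_fintype_card, FiniteField.pow_card]
  have hfixF : ∀ x : k, iterateFrobenius K p (m + 1) (φ x) = φ x := by
    intro x
    rw [iterateFrobenius_def, hfix]
  have hfrob : ∀ s : ℕ, ∀ e, MvPolynomial.coeff e fK ^ (p ^ ((m + 1) * s)) =
      MvPolynomial.coeff e fK := by
    intro s e
    rw [hfK, MvPolynomial.coeff_map, ← map_pow, pow_mul, ← hm, Nat.card_eq_fintype_card,
      FiniteField.pow_card_pow]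
  have hfm : ∀ e, MvPolynomial.coeff e fK ^ (p ^ (m + 1)) = MvPolynomial.coeff e fK := by
    intro e
    have := hfrob 1 e
    rwa [mul_one] at this
  -- the decomposition
  have hdc : Dec d (d - 1) fK (φ A) rK sK gK (d - gK.totalDegree) :=
    { hde := hde
      hd2 := hd
      hdec := hfKdec
      hD0 := by omega
      hDd := by omega
      hD2 := by omega
      hg := by omega
      hA := hAK
      hr := hrKinj }
  -- the ring
  have hdom : IsDomain (Constr.RR p (d * (p - 1)) K) :=
    Constr.RR_domain p _ K (Nat.mul_pos (by omega) (by omega))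
  let S := Constr.setup p K d (by omega) hdom
  -- the cyclotomic field
  have hζ0 : IsPrimitiveRoot (IsCyclotomicExtension.zeta p ℚ F) p :=
    IsCyclotomicExtension.zeta_spec p ℚ F
  set ζ := IsCyclotomicExtension.zeta p ℚ F with hζdef
  have hFch : CharZero F := charZero_of_injective_algebraMap (algebraMap ℚ F).injective
  obtain ⟨σ⟩ : Nonempty (F →+* ℂ) := by
    have : FiniteDimensional ℚ F := IsCyclotomicExtension.finiteDimensional {p} ℚ F
    have : Algebra.IsAlgebraic ℚ F := inferInstance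
    exact ⟨((IsAlgClosed.lift : F →ₐ[ℚ] ℂ) : F →+* ℂ)⟩
  set n := (d - 1) ^ 2 with hn
  have hχ := chi_map p (K := K) hnp r s g m hm
  have hμ : ∀ b : ℕ, (∑ t ∈ Finset.range (m + 1), S0.NK p rK sK gK t).charpoly.rootMultiplicity
      (b : K) = (chi p r s g).rootMultiplicity (b : ZMod p) := by
    intro b
    rw [hrK, hsK, hgK, hφ, hχ, eq_rootMultiplicity_map (f := (algebraMap k K).comp
      (algebraMap (ZMod p) k)) (RingHom.injective _) (b : ZMod p), map_natCast]
  let Se : ℕ → ℕ → F := fun j s => expSum p fK ((m + 1) * s) (ζ ^ j)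
  let c : ℕ → ℕ → F := fun j => cseq (Se j)
  have hprim : ∀ j ∈ Finset.Ico 1 p, IsPrimitiveRoot (ζ ^ j) p := by
    intro j hj
    rw [Finset.mem_Ico] at hj
    exact hζ0.pow_of_coprime j (Nat.coprime_of_lt_prime (by omega) hj.2 hp.out).symm
  have htr : ∀ j ∈ Finset.Ico 1 p, (∀ r, n < r → c j r = 0) := by
    intro j hj
    exact (DW.S0.trans S hd (by omega) hdp fK (totalDegree_eq d fK hfKdeg hdegK) hsm hordK m hfm
      (ζ ^ j) (hprim j hj) (c j) (cseq_zero _) (cseq_succ (Se j))).1
  have htr2 : ∀ j ∈ Finset.Ico 1 p, ∀ b : ℕ, ∃ l, l ≤ (chi p r s g).rootMultiplicity (b : ZMod p) ∧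
      Tk (c j) n ((p : F) ^ (m + 1) * (ζ ^ j) ^ b) l ≠ 0 := by
    intro j hj b
    rw [← hμ]
    exact S0.trans2 S hd hpd hdp fK (totalDegree_eq d fK hfKdeg hdegK) hsm hordK m hfm (φ A) rK sK
      gK hdc (hfixF A) (fun j => hfixF (r j)) (fun j => hfixF (s j)) (ζ ^ j)
      (hprim j hj) (c j) (cseq_zero _) (cseq_succ (Se j)) b
  let cC : ℕ → ℕ → ℂ := fun j r => σ (c j r)
  have hcC0 : ∀ j, cC j 0 = 1 := by
    intro j
    change σ (cseq (Se j) 0) = 1
    rw [cseq_zero, map_one]
  have hcC : ∀ j, ∀ r, ((r + 1 : ℕ) : ℂ) * cC j (r + 1) =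
      -∑ l ∈ Finset.range (r + 1), σ (Se j (l + 1)) * cC j (r - l) := by
    intro j r
    have h1 := congrArg σ (cseq_succ (Se j) r)
    rw [map_mul, map_natCast, map_neg, map_sum] at h1
    rw [h1]
    congr 1
    exact Finset.sum_congr rfl fun l _ => map_mul _ _ _
  let Γj : ℕ → Multiset ℂ := fun j => (DW.PP (cC j) n).roots
  have hcard : ∀ j, (Γj j).card = n := by
    intro j
    have h1 := PP_monic (cC j) n (hcC0 j)
    exact (IsAlgClosed.splits (DW.PP (cC j) n)).natDegree_eq_card_roots.symm.trans h1.2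
  have hsum : ∀ j ∈ Finset.Ico 1 p, ∀ s, 1 ≤ s →
      ((Γj j).map (fun x => x ^ s)).sum = σ (Se j s) := by
    intro j hj s hs
    obtain ⟨s', rfl⟩ := Nat.exists_eq_add_of_le' hs
    exact roots_powerSum (fun s => σ (Se j s)) (cC j) n (hcC0 j) (hcC j) (by
      intro r hr
      change σ (c j r) = 0
      rw [htr j hj r hr, map_zero]) s'
  refine ⟨Γj, σ ζ, hζ0.map_of_injective σ.injective, fun j _ => hcard j, ?_, ?_⟩
  · intro L _ _ _
    have hfin : Module.Finite k L := inferInstance
    set s := Module.finrank k L with hs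
    have hs1 : 1 ≤ s := Module.finrank_pos
    have hLcard : Nat.card L = p ^ ((m + 1) * s) := by
      rw [Module.natCard_eq_pow_finrank (K := k), hm, pow_mul]
    have h1 := card_transfer (p := p) (K := K) f L ((m + 1) * s) hLcard
      (IsAlgClosed.lift : L →ₐ[k] K)
    rw [h1, card_fibres, points_expSum fK ((m + 1) * s) (Nat.mul_pos (by omega) hs1) (hfrob s)
      (σ ζ) (hζ0.map_of_injective σ.injective), ← hLcard]
    congr 1
    have h2 : Multiset.map (fun γ => γ ^ s) (∑ j ∈ Finset.Ico 1 p, Γj j) =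
        ∑ j ∈ Finset.Ico 1 p, Multiset.map (fun γ => γ ^ s) (Γj j) :=
      map_sum (Multiset.mapAddMonoidHom (fun γ : ℂ => γ ^ s)) _ _
    have h3 : (∑ j ∈ Finset.Ico 1 p, Multiset.map (fun γ => γ ^ s) (Γj j)).sum =
        ∑ j ∈ Finset.Ico 1 p, (Multiset.map (fun γ => γ ^ s) (Γj j)).sum :=
      map_sum (Multiset.sumAddMonoidHom : Multiset ℂ →+ ℂ) _ _
    rw [h2, h3]
    refine Finset.sum_congr rfl fun j hj => ?_
    rw [hsum j hj s hs1, map_expSum, map_pow]
  · intro j hj b
    obtain ⟨l, hl, hne⟩ := htr2 j hj b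
    refine (count_le_of_Tk (cC j) n (hcC0 j) _ l ?_).trans hl
    have h1 : Tk (cC j) n ((Nat.card k : ℂ) * (σ ζ ^ j) ^ b) l =
        σ (Tk (c j) n ((p : F) ^ (m + 1) * (ζ ^ j) ^ b) l) := by
      rw [Tk, Tk, map_sum, hm]
      refine Finset.sum_congr rfl fun r _ => ?_
      rw [map_mul, map_mul, map_pow, map_mul, map_pow, map_pow, map_pow, map_natCast, map_natCast,
        Nat.cast_pow]
    rw [h1]
    exact (_root_.map_ne_zero σ).2 hne

/-- **the spectrum and the multiplicities of `q ζ ^ b`** -/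
theorem core (p : ℕ) [hp : Fact p.Prime] {k : Type} [Field k] [Finite k] [Algebra (ZMod p) k]
    (d : ℕ)
    (hd : 2 ≤ d) (hdp : d ∣ p - 1) (hpd : 3 * d + 3 < p) (A : k) (hA : A ≠ 0)
    (r s : Fin (d - 1 + 1) → k) (hr : Function.Injective r) (hr0 : ∀ j, r j ≠ 0)
    (g : MvPolynomial (Fin 2) k) (hg : 2 * g.totalDegree < d)
    (hord : ∀ w, 2 ≤ w → w < d → (hwm p d (C A * ∏ j, (X - C (r j))) w).det ≠ 0)
    [DecidableEq ℂ] :
    ∃ (Γ : ℕ → Multiset ℂ) (ζ : ℂ), IsPrimitiveRoot ζ p ∧
      (∀ j ∈ Finset.Ico 1 p, (Γ j).card = (d - 1) ^ 2) ∧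
      (∀ (L : Type) [Field L] [Finite L] [Algebra k L],
        (Nat.card {P : (Fin 2 → L) × L // P.2 ^ p - P.2 =
          MvPolynomial.aeval P.1 (PP A r s + g)} : ℂ) =
          (Nat.card L : ℂ) ^ 2 +
            ((∑ j ∈ Finset.Ico 1 p, Γ j).map (fun γ => γ ^ Module.finrank k L)).sum) ∧
      ∀ j ∈ Finset.Ico 1 p, ∀ b : ℕ, (Γ j).count ((Nat.card k : ℂ) * (ζ ^ j) ^ b) ≤
        (chi p r s g).rootMultiplicity (b : ZMod p) := by
  have : @IsCyclotomicExtension {p} ℚ (CyclotomicField p ℚ) _ _ (CyclotomicField.algebra p ℚ) := by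
    infer_instance
  exact @core_aux p _ (CyclotomicField p ℚ) _ (CyclotomicField.algebra p ℚ) this k _ _ _ d hd hdp
    hpd A hA r s hr hr0 g hg hord _

end Pool.Agent.H856.SO
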