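import Pool.Agent.H856.DW.Spec

set_option autoImplicit false
set_option linter.unusedSectionVars false
set_option linter.unusedVariables false

/-!
# The second order term of the characteristic polynomial at the middle slope
-/

namespace Pool.Agent.H856.SO

open Pool.Agent.H425 Pool.Agent.H856.DW Polynomial

section gen

variable {A : Type} [CommRing A]

theorem cyc_mul_entry' {I : Type} [Fintype I] [DecidableEq I] (m : ℕ) (δ : ℕ → I → A)
    (B : ℕ → Matrix I I A)
    (N : Matrix (Fin (m + 1) × I) (Fin (m + 1) × I) A) (x y : Fin (m + 1) × I) :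
    (cyc m δ B * N) x y = δ x.1 x.2 * N x y -
      ∑ z : I, B (x.1 - 1 : Fin (m + 1)) x.2 z * N (x.1 - 1, z) y := by
  rw [Matrix.mul_apply]
  simp only [cyc, sub_mul]
  rw [Finset.sum_sub_distrib]
  congr 1
  · rw [Finset.sum_eq_single x]
    · rw [if_pos rfl]
    · intro z _ hz
      rw [if_neg (Ne.symm hz), zero_mul]
    · intro h
      exact absurd (Finset.mem_univ x) h
  · rw [Fintype.sum_prod_type, Finset.sum_eq_single (x.1 - 1)]
    · refine Finset.sum_congr rfl fun z _ => ?_
      rw [if_pos (sub_add_cancel _ _)]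
    · intro t _ ht
      refine Finset.sum_eq_zero fun z _ => ?_
      rw [if_neg, zero_mul]
      intro h
      exact ht (eq_sub_of_add_eq h)
    · intro h
      exact absurd (Finset.mem_univ _) h

/-- **elimination of a block** -/
theorem schur {α β : Type} [Fintype α] [DecidableEq α] [Fintype β] [DecidableEq β]
    (M : Matrix α α A) (B : Matrix α β A) (C : Matrix β α A) (E : Matrix β β A) :
    (Matrix.fromBlocks M B C E).det * M.det ^ Fintype.card β =
      M.det * (M.det • E - C * M.adjugate * B).det := by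
  have h1 : Matrix.fromBlocks M B C E *
      Matrix.fromBlocks (1 : Matrix α α A) (-(M.adjugate * B)) 0 (M.det • (1 : Matrix β β A)) =
      Matrix.fromBlocks M 0 C (M.det • E - C * M.adjugate * B) := by
    rw [Matrix.fromBlocks_multiply]
    congr 1
    · rw [Matrix.mul_one, Matrix.mul_zero, add_zero]
    · rw [Matrix.mul_neg, ← Matrix.mul_assoc, Matrix.mul_adjugate, Matrix.smul_mul,
        Matrix.one_mul, Matrix.mul_smul, Matrix.mul_one, neg_add_cancel]
    · rw [Matrix.mul_one, Matrix.mul_zero, add_zero]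
    · rw [Matrix.mul_neg, Matrix.mul_smul, Matrix.mul_one, ← Matrix.mul_assoc, neg_add_eq_sub]
  have h2 := congrArg Matrix.det h1
  rw [Matrix.det_mul, Matrix.det_fromBlocks_zero₂₁, Matrix.det_fromBlocks_zero₁₂, Matrix.det_one,
    one_mul, Matrix.det_smul, Matrix.det_one, mul_one] at h2
  exact h2

end gen

variable {p d : ℕ} [hp : Fact p.Prime] {K R : Type} [Field K] [CommRing R] [IsDomain R]
  (S : Setup p d K R) {I : Type} [Fintype I] [DecidableEq I]

/-- the diagonal after the substitution -/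
noncomputable def dl2 (lev : I → ℕ) (t : ℕ) (i : I) : R[X] :=
  -C (S.lam ^ ((p - 1) * (d - min (lev i) d))) * (if t = 0 then 1 + C (S.lam ^ d) * X else 1)

theorem comp_cyc (m : ℕ) (lev : I → ℕ) (z : ℕ → Matrix I I R) :
    ((cyc m (dl S lev) (fun t => (z t).map C)).det).comp (1 + C (S.lam ^ d) * X) =
      (cyc m (dl2 S lev) (fun t => (z t).map C)).det := by
  have h1 := RingHom.map_det (Polynomial.compRingHom (1 + C (S.lam ^ d) * X : R[X]))
    (cyc m (dl S lev) (fun t => (z t).map C))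
  rw [Polynomial.coe_compRingHom_apply] at h1
  rw [h1]
  congr 1
  ext1 x y
  rw [RingHom.mapMatrix_apply, Matrix.map_apply, Polynomial.coe_compRingHom_apply, cyc, cyc,
    sub_comp]
  congr 1
  · by_cases hxy : x = y
    · rw [if_pos hxy, if_pos hxy, dl, dl2, mul_comp, neg_comp, C_comp]
      congr 1
      split_ifs
      · rw [X_comp]
      · rw [one_comp]
    · rw [if_neg hxy, if_neg hxy, zero_comp]
  · split_ifs
    · rw [Matrix.map_apply, C_comp]
    · rw [zero_comp]

/-- the corrections -/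
noncomputable def vv (lam : R) (d : ℕ) {σ : Type} [Fintype σ] [DecidableEq σ]
    (N : ℕ → Matrix σ σ R) (t : ℕ) : Matrix σ σ R :=
  1 + (lam ^ d) • ∑ s ∈ Finset.range t, N s

theorem vv_step (lam : R) (d : ℕ) (hd : 1 ≤ d) {σ : Type} [Fintype σ] [DecidableEq σ]
    (N : ℕ → Matrix σ σ R) (t : ℕ) : ∃ Y : Matrix σ σ R,
    vv lam d N t + (lam ^ d) • (N t * vv lam d N t) = vv lam d N (t + 1) + (lam ^ (d + 1)) • Y := by
  refine ⟨(lam ^ (d - 1)) • (N t * ∑ s ∈ Finset.range t, N s), ?_⟩
  rw [vv, vv, Finset.sum_range_succ, mul_add, mul_one, mul_smul_comm, smul_smul, ← pow_add,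
    smul_add, smul_add, smul_smul, ← pow_add]
  have : d + 1 + (d - 1) = d + d := by omega
  rw [this, add_assoc, add_assoc, add_assoc]

/-- the transformation of the columns -/
noncomputable def qq (m : ℕ) (lev : I → ℕ) (V : ℕ → Matrix I {j // lev j = d} R)
    (N : ℕ → Matrix {j // lev j = d} {j // lev j = d} R) :
    Matrix (Fin (m + 1) × I) (Fin (m + 1) × I) R[X] :=
  fun x y => if h : y.1 = 0 ∧ lev y.2 = d then
    C ((V x.1 * vv S.lam d N x.1) x.2 ⟨y.2, h.2⟩) else if x = y then 1 else 0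

theorem qq_det (m : ℕ) (lev : I → ℕ) (V : ℕ → Matrix I {j // lev j = d} R)
    (N : ℕ → Matrix {j // lev j = d} {j // lev j = d} R) :
    (qq S m lev V N).det = C ((V 0).submatrix Subtype.val id).det := by
  rw [Matrix.twoBlockTriangular_det (qq S m lev V N)
    (fun x => ¬ (x.1 = 0 ∧ lev x.2 = d))]
  · have h1 : (qq S m lev V N).toSquareBlockProp (fun x => ¬ (x.1 = 0 ∧ lev x.2 = d)) = 1 := by
      ext1 x y
      rw [Matrix.toSquareBlockProp_def, Matrix.of_apply, qq, dif_neg y.2, Matrix.one_apply]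
      by_cases h : x = y
      · rw [if_pos h, if_pos (by rw [h])]
      · rw [if_neg h, if_neg (fun h' => h (Subtype.ext h'))]
    rw [h1, Matrix.det_one, one_mul]
    let E : {j // lev j = d} ≃ {x : Fin (m + 1) × I // ¬ ¬ (x.1 = 0 ∧ lev x.2 = d)} :=
      { toFun := fun j => ⟨(0, j.1), not_not.2 ⟨rfl, j.2⟩⟩
        invFun := fun x => ⟨x.1.2, (not_not.1 x.2).2⟩
        left_inv := fun j => rfl
        right_inv := by
          rintro ⟨⟨t, j⟩, h⟩
          have h2 := (not_not.1 h).1
          apply Subtype.ext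
          exact Prod.ext h2.symm rfl }
    rw [← Matrix.det_submatrix_equiv_self E]
    have h2 : (((V 0).submatrix Subtype.val id : Matrix {j // lev j = d} {j // lev j = d} R).map
        (C : R →+* R[X])).det = C ((V 0).submatrix Subtype.val id).det := by
      rw [RingHom.map_det]
      rfl
    rw [← h2]
    congr 1
    ext1 i j
    rw [Matrix.submatrix_apply, Matrix.toSquareBlockProp_def, Matrix.of_apply, qq,
      dif_pos (not_not.1 (E j).2), Matrix.map_apply, Matrix.submatrix_apply]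
    have e1 : vv S.lam d N (((E i).1.1 : Fin (m + 1)) : ℕ) = 1 := by
      change vv S.lam d N ((0 : Fin (m + 1)) : ℕ) = 1
      rw [Fin.val_zero, vv, Finset.sum_range_zero, smul_zero, add_zero]
    rw [e1, Matrix.mul_one]
    rfl
  · intro x hx y hy
    rw [not_not] at hx
    rw [qq, dif_neg hy, if_neg]
    rintro rfl
    exact hy hx

section cols

variable {m : ℕ} {lev : I → ℕ} {z : ℕ → Matrix I I R} {V : ℕ → Matrix I {j // lev j = d} R}
  {N : ℕ → Matrix {j // lev j = d} {j // lev j = d} R} {D : ℕ}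

/-- the matrix after the transformation -/
noncomputable def A1 (m : ℕ) (lev : I → ℕ) (z : ℕ → Matrix I I R)
    (V : ℕ → Matrix I {j // lev j = d} R)
    (N : ℕ → Matrix {j // lev j = d} {j // lev j = d} R) :
    Matrix (Fin (m + 1) × I) (Fin (m + 1) × I) R[X] :=
  cyc m (dl2 S lev) (fun t => (z t).map C) * qq S m lev V N

theorem A1_other (x y : Fin (m + 1) × I) (h : ¬ (y.1 = 0 ∧ lev y.2 = d)) :
    A1 S m lev z V N x y = cyc m (dl2 S lev) (fun t => (z t).map C) x y := by
  rw [A1, Matrix.mul_apply, Finset.sum_eq_single y]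
  · rw [qq, dif_neg h, if_pos rfl, mul_one]
  · intro u _ hu
    rw [qq, dif_neg h, if_neg hu, mul_zero]
  · intro h
    exact absurd (Finset.mem_univ y) h

theorem A1_spec (x : Fin (m + 1) × I) (j : {j // lev j = d}) :
    A1 S m lev z V N x (0, j.1) =
      dl2 S lev x.1 x.2 * C ((V x.1 * vv S.lam d N x.1) x.2 j) -
      C (((z (x.1 - 1 : Fin (m + 1)) * V (x.1 - 1 : Fin (m + 1))) *
        vv S.lam d N (x.1 - 1 : Fin (m + 1))) x.2 j) := by
  rw [A1, cyc_mul_entry']
  have hj : ((0 : Fin (m + 1)), j.1).1 = 0 ∧ lev ((0 : Fin (m + 1)), j.1).2 = d := ⟨rfl, j.2⟩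
  congr 1
  · rw [qq, dif_pos hj]
  · rw [Matrix.mul_assoc, Matrix.mul_apply, map_sum]
    refine Finset.sum_congr rfl fun i _ => ?_
    rw [qq, dif_pos hj, C_mul, Matrix.map_apply]

theorem A1_lt (hD : D ≤ p - 1)
    (h3 : ∀ t i j, lev i < d → S.lam ^ D ∣ (z t * V t) i j)
    (x : Fin (m + 1) × I) (hx : lev x.2 < d) (j : {j // lev j = d}) :
    C (S.lam ^ D) ∣ A1 S m lev z V N x (0, j.1) := by
  rw [A1_spec]
  refine dvd_sub ?_ ?_
  · refine Dvd.dvd.mul_right ?_ _
    rw [dl2]
    refine Dvd.dvd.mul_right ((dvd_neg).2 (_root_.map_dvd (C : R →+* R[X]) (pow_dvd_pow _ ?_))) _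
    rw [min_eq_left hx.le]
    have : (p - 1) * 1 ≤ (p - 1) * (d - lev x.2) := Nat.mul_le_mul_left _ (by omega)
    omega
  · refine _root_.map_dvd (C : R →+* R[X]) ?_
    rw [Matrix.mul_apply]
    exact Finset.dvd_sum fun l _ => Dvd.dvd.mul_right (h3 _ _ _ hx) _

theorem A1_gt (hV : ∀ t i j, d < lev i → V t i j = 0)
    (h1 : ∀ t i j, d < lev i → S.lam ^ (d + 1) ∣ z t i j)
    (x : Fin (m + 1) × I) (hx : d < lev x.2) (j : {j // lev j = d}) :
    C (S.lam ^ (d + 1)) ∣ A1 S m lev z V N x (0, j.1) := by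
  rw [A1_spec, Matrix.mul_apply, Finset.sum_eq_zero (fun l _ => by rw [hV _ _ _ hx, zero_mul]),
    C_0, mul_zero, zero_sub, dvd_neg, Matrix.mul_assoc, Matrix.mul_apply]
  exact _root_.map_dvd (C : R →+* R[X]) (Finset.dvd_sum fun l _ => Dvd.dvd.mul_right (h1 _ _ _ hx) _)

theorem ZV_eq (hd : 1 ≤ d) (h4 : ∀ t i j, lev i = d →
      S.lam ^ (d + 1) ∣ (z t * V t) i j + V (t + 1) i j + S.lam ^ d * (V (t + 1) * N t) i j)
    (t : ℕ) (i : I) (hi : lev i = d) (j : {j // lev j = d}) : ∃ w : R,
    ((z t * V t) * vv S.lam d N t) i j = -(V (t + 1) * vv S.lam d N (t + 1)) i j +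
      S.lam ^ (d + 1) * w := by
  choose q hq using fun l => h4 t i l hi
  obtain ⟨Y, hY⟩ := vv_step S.lam d hd N t
  have e1 : ∀ l, (z t * V t) i l = -V (t + 1) i l - S.lam ^ d * (V (t + 1) * N t) i l +
      S.lam ^ (d + 1) * q l := by
    intro l
    linear_combination hq l
  have e2 : ((z t * V t) * vv S.lam d N t) i j = -(V (t + 1) * vv S.lam d N t) i j -
      S.lam ^ d * ((V (t + 1) * N t) * vv S.lam d N t) i j +
      S.lam ^ (d + 1) * ∑ l, q l * vv S.lam d N t l j := by
    rw [Matrix.mul_apply, Matrix.mul_apply, Matrix.mul_apply, Finset.mul_sum, Finset.mul_sum,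
      ← Finset.sum_neg_distrib, ← Finset.sum_sub_distrib, ← Finset.sum_add_distrib]
    refine Finset.sum_congr rfl fun l _ => ?_
    rw [e1]
    ring
  have e3 : (V (t + 1) * vv S.lam d N t) i j + S.lam ^ d * ((V (t + 1) * N t) *
      vv S.lam d N t) i j = (V (t + 1) * vv S.lam d N (t + 1)) i j +
      S.lam ^ (d + 1) * (V (t + 1) * Y) i j := by
    have h5 := congrArg (fun M => (V (t + 1) * M) i j) hY
    simp only [Matrix.mul_add, Matrix.add_apply, Matrix.mul_smul, Matrix.smul_apply,
      smul_eq_mul, ← Matrix.mul_assoc] at h5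
    exact h5
  refine ⟨-(V (t + 1) * Y) i j + ∑ l, q l * vv S.lam d N t l j, ?_⟩
  rw [e2]
  linear_combination -e3

/-- the leading term of the special columns -/
noncomputable def TT0 (m : ℕ) (lev : I → ℕ) (V : ℕ → Matrix I {j // lev j = d} R)
    (N : ℕ → Matrix {j // lev j = d} {j // lev j = d} R) (x : Fin (m + 1) × I)
    (j : {j // lev j = d}) : R[X] :=
  if x.1 = 0 ∧ lev x.2 = d then
    C ((V 0 * ∑ s ∈ Finset.range (m + 1), N s) x.2 j) - X * C (V 0 x.2 j) else 0

theorem A1_ge (hd : 1 ≤ d) (hV : ∀ t i j, d < lev i → V t i j = 0)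
    (h1 : ∀ t i j, d < lev i → S.lam ^ (d + 1) ∣ z t i j)
    (h4 : ∀ t i j, lev i = d →
      S.lam ^ (d + 1) ∣ (z t * V t) i j + V (t + 1) i j + S.lam ^ d * (V (t + 1) * N t) i j)
    (hper : ∀ i j, V (m + 1) i j = V 0 i j)
    (x : Fin (m + 1) × I) (hx : ¬ lev x.2 < d) (j : {j // lev j = d}) :
    C (S.lam ^ (d + 1)) ∣ A1 S m lev z V N x (0, j.1) - C (S.lam ^ d) * TT0 m lev V N x j := by
  rcases Nat.lt_or_ge d (lev x.2) with h | h
  · rw [TT0, if_neg (by omega), mul_zero, sub_zero]
    exact A1_gt S hV h1 x h j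
  · have hlev : lev x.2 = d := by omega
    obtain ⟨w, hw⟩ := ZV_eq S hd h4 (x.1 - 1 : Fin (m + 1)) x.2 hlev j
    rw [A1_spec, hw, dl2, hlev, min_self, Nat.sub_self, mul_zero, pow_zero, C_1]
    by_cases h0 : x.1 = 0
    · have hlast : ((x.1 - 1 : Fin (m + 1)) : ℕ) = m := by
        rw [h0]
        have : (0 - 1 : Fin (m + 1)) = Fin.last m := by
          rw [sub_eq_iff_eq_add]
          exact (Fin.last_add_one m).symm
        rw [this, Fin.val_last]
      have ht : TT0 m lev V N x j = C ((V 0 * ∑ s ∈ Finset.range (m + 1), N s) x.2 j) -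
          X * C (V 0 x.2 j) := by rw [TT0, if_pos ⟨h0, hlev⟩]
      have h0' : ((x.1 : Fin (m + 1)) : ℕ) = 0 := by rw [h0, Fin.val_zero]
      rw [hlast, ht, h0', if_pos rfl]
      have e1 : (V (m + 1) * vv S.lam d N (m + 1)) x.2 j = V 0 x.2 j +
          S.lam ^ d * (V 0 * ∑ s ∈ Finset.range (m + 1), N s) x.2 j := by
        have h5 : (V (m + 1) * vv S.lam d N (m + 1)) x.2 j =
            (V 0 * vv S.lam d N (m + 1)) x.2 j := by
          rw [Matrix.mul_apply, Matrix.mul_apply]
          exact Finset.sum_congr rfl fun l _ => by rw [hper]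
        rw [h5, vv, Matrix.mul_add, Matrix.mul_one, Matrix.mul_smul, Matrix.add_apply,
          Matrix.smul_apply, smul_eq_mul]
      have e2 : (V 0 * vv S.lam d N 0) x.2 j = V 0 x.2 j := by
        rw [vv, Finset.sum_range_zero, smul_zero, add_zero, Matrix.mul_one]
      rw [e1, e2]
      refine ⟨-C w, ?_⟩
      simp only [C_add, C_mul, C_neg]
      ring
    · have hne : ((x.1 - 1 : Fin (m + 1)) : ℕ) + 1 = x.1 := by
        obtain ⟨s, hs⟩ := Fin.exists_succ_eq.2 h0
        rw [← hs]
        have : (s.succ - 1 : Fin (m + 1)) = s.castSucc := by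
          rw [sub_eq_iff_eq_add]
          exact (Fin.coeSucc_eq_succ).symm
        rw [this, Fin.val_castSucc, Fin.val_succ]
      have ht : TT0 m lev V N x j = 0 := by rw [TT0, if_neg (fun h => h0 h.1)]
      have h0' : ((x.1 : Fin (m + 1)) : ℕ) ≠ 0 := fun h => h0 (Fin.ext h)
      rw [hne, ht, if_neg h0']
      refine ⟨-C w, ?_⟩
      simp only [C_add, C_mul, C_neg]
      ring

end cols

section main

variable (m : ℕ) (lev : I → ℕ) (z : ℕ → Matrix I I R) (V : ℕ → Matrix I {j // lev j = d} R)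
  (N : ℕ → Matrix {j // lev j = d} {j // lev j = d} R)

/-- the exponent -/
def E0 (m : ℕ) (lev : I → ℕ) (d : ℕ) : ℕ :=
  ∑ y : {x : Fin (m + 1) × I // ¬ lev x.2 < d}, if y.1.1 = 0 ∧ lev y.1.2 = d then d else 0

theorem map_cyc2 (hd : 1 ≤ d) (hp1 : 1 < p) (x y : Fin (m + 1) × I) :
    (cyc m (dl2 S lev) (fun t => (z t).map C) x y).map S.res =
      (if x = y then (if lev x.2 < d then 0 else -1) else 0) -
        (if y.1 + 1 = x.1 then C (S.res (z y.1 x.2 y.2)) else 0) := by
  have hd0 : (0 : K) ^ d = 0 := zero_pow (by omega)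
  rw [cyc, Polynomial.map_sub, apply_ite (Polynomial.map S.res), apply_ite (Polynomial.map S.res),
    Polynomial.map_zero]
  congr 1
  · congr 1
    rw [dl2, Polynomial.map_mul, Polynomial.map_neg, map_C, map_pow, S.res_lam]
    by_cases h : lev x.2 < d
    · rw [if_pos h, zero_pow]
      · rw [C_0, neg_zero, zero_mul]
      · rw [min_eq_left h.le]
        exact Nat.mul_ne_zero (by omega) (by omega)
    · rw [if_neg h, min_eq_right (not_lt.1 h), Nat.sub_self, mul_zero, pow_zero, C_1,
        apply_ite (Polynomial.map S.res), Polynomial.map_add, Polynomial.map_mul, map_C, map_pow,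
        S.res_lam, Polynomial.map_one, hd0, C_0, zero_mul, add_zero, ite_self, mul_one]
  · congr 1
    rw [Matrix.map_apply, map_C]

/-- the block of the small slopes -/
theorem low_det (hd : 1 ≤ d) (hp1 : 1 < p)
    (hdet : ∀ t, (((z t).map S.res).submatrix (Subtype.val : {i // lev i < d} → I)
      Subtype.val).det ≠ 0) :
    ∃ u : K, u ≠ 0 ∧ ((A1 S m lev z V N).toBlock (fun x => lev x.2 < d)
      (fun x => lev x.2 < d)).det.map S.res = C u := by
  set B : ℕ → Matrix {i // lev i < d} {i // lev i < d} K := fun t =>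
    ((z t).map S.res).submatrix (Subtype.val : {i // lev i < d} → I) Subtype.val with hB
  obtain ⟨u, hu, hu2⟩ := block_low m B hdet
  refine ⟨u, hu, ?_⟩
  rw [← hu2]
  have h1 := cyc_det m (fun _ => (0 : K[X])) (fun t => (B t).map (C : K →+* K[X]))
  rw [Finset.prod_const, Finset.card_range, zero_pow (Nat.succ_ne_zero m)] at h1
  rw [← h1, ← coe_mapRingHom, RingHom.map_det]
  let E : Fin (m + 1) × {i // lev i < d} ≃ {x : Fin (m + 1) × I // lev x.2 < d} :=
    { toFun := fun x => ⟨(x.1, x.2.1), x.2.2⟩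
      invFun := fun x => (x.1.1, ⟨x.1.2, x.2⟩)
      left_inv := fun x => rfl
      right_inv := fun x => rfl }
  rw [← Matrix.det_submatrix_equiv_self E]
  congr 1
  ext1 x y
  rw [Matrix.submatrix_apply, RingHom.mapMatrix_apply, Matrix.map_apply, Matrix.toBlock_apply]
  have hy : ¬ ((E y).1.1 = 0 ∧ lev (E y).1.2 = d) := by
    rintro ⟨_, h⟩
    exact absurd (E y).2 (by rw [h]; exact lt_irrefl d)
  rw [A1_other S _ _ hy, coe_mapRingHom, map_cyc2 S m lev z hd hp1, if_pos (E x).2, cyc]
  have h3 : (E x).1.1 = x.1 := rfl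
  have h4 : (E y).1.1 = y.1 := rfl
  rw [ite_self, ite_self, h3, h4]
  rfl

/-- the matrix of the leading terms -/
noncomputable def Tm : Matrix {x : Fin (m + 1) × I // ¬ lev x.2 < d}
    {x : Fin (m + 1) × I // ¬ lev x.2 < d} K[X] :=
  fun x y => if h : y.1.1 = 0 ∧ lev y.1.2 = d then (TT0 m lev V N x.1 ⟨y.1.2, h.2⟩).map S.res
    else (cyc m (dl2 S lev) (fun t => (z t).map C) x.1 y.1).map S.res

/-- the ordering of the blocks -/
def bb (m : ℕ) (lev : I → ℕ) (d : ℕ) (x : {x : Fin (m + 1) × I // ¬ lev x.2 < d}) : ℕ :=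
  if lev x.1.2 = d then (if x.1.1 = 0 then 0 else m + 1 - x.1.1) else m + 2

theorem bb_zero (x : {x : Fin (m + 1) × I // ¬ lev x.2 < d}) :
    bb m lev d x = 0 ↔ x.1.1 = 0 ∧ lev x.1.2 = d := by
  have h1 := x.1.1.2
  rw [bb]
  constructor
  · intro h
    split_ifs at h with h2 h3
    · exact ⟨h3, h2⟩
    · omega
  · rintro ⟨h2, h3⟩
    rw [if_pos h3, if_pos h2]

theorem fin_step {m : ℕ} (a b : Fin (m + 1)) (h : a + 1 = b) :
    (b = 0 ∧ (a : ℕ) = m) ∨ ((b : ℕ) = a + 1) := by
  by_cases ha : a = Fin.last m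
  · left
    subst ha
    rw [Fin.last_add_one] at h
    exact ⟨h.symm, Fin.val_last m⟩
  · right
    rw [← h]
    have h1 : a < Fin.last m := lt_of_le_of_ne (Fin.le_last a) ha
    exact Fin.val_add_one_of_lt h1

theorem Tm_tri (hd : 1 ≤ d) (hp1 : 1 < p)
    (h1 : ∀ t i j, d < lev i → S.lam ^ (d + 1) ∣ z t i j) :
    (Tm S m lev z V N).BlockTriangular (bb m lev d) := by
  intro x y hxy
  rw [Tm]
  split_ifs with hy
  · -- a special column
    have hx : ¬ (x.1.1 = 0 ∧ lev x.1.2 = d) := by
      intro h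
      rw [(bb_zero m lev x).2 h] at hxy
      omega
    rw [TT0, if_neg hx, Polynomial.map_zero]
  · rw [map_cyc2 S m lev z hd hp1]
    have hne : x ≠ y := by
      rintro rfl
      exact lt_irrefl _ hxy
    rw [if_neg (fun h => hne (Subtype.ext h)), zero_sub, neg_eq_zero]
    split_ifs with hxy2
    · rcases Nat.lt_or_ge d (lev x.1.2) with h | h
      · obtain ⟨q, hq⟩ := h1 y.1.1 x.1.2 y.1.2 h
        rw [hq, map_mul, map_pow, S.res_lam, zero_pow (by omega), zero_mul, C_0]
      · exfalso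
        have hlx : lev x.1.2 = d := le_antisymm h (not_lt.1 x.2)
        rcases fin_step _ _ hxy2 with ⟨h2, _⟩ | h2
        · rw [(bb_zero m lev x).2 ⟨h2, hlx⟩] at hxy
          omega
        · have hx0 : x.1.1 ≠ 0 := by
            intro h0
            rw [h0, Fin.val_zero] at h2
            omega
          rw [bb, bb, if_pos hlx, if_neg hx0] at hxy
          have := x.1.1.2
          by_cases hly : lev y.1.2 = d
          · have hy0 : y.1.1 ≠ 0 := fun h0 => hy ⟨h0, hly⟩
            rw [if_pos hly, if_neg hy0] at hxy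
            omega
          · rw [if_neg hly] at hxy
            omega
    · rfl

theorem Tm_det (hd : 1 ≤ d) (hp1 : 1 < p)
    (h1 : ∀ t i j, d < lev i → S.lam ^ (d + 1) ∣ z t i j)
    (hV0 : (((V 0).submatrix (Subtype.val : {j // lev j = d} → I) id).map S.res).det ≠ 0) :
    ∃ u : K, u ≠ 0 ∧ (Tm S m lev z V N).det =
      C u * ((∑ s ∈ Finset.range (m + 1), N s).map S.res).charpoly := by
  rw [(Tm_tri S m lev z V N hd hp1 h1).det]
  set P := ((∑ s ∈ Finset.range (m + 1), N s).map S.res).charpoly with hP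
  have key : ∀ a ∈ Finset.univ.image (bb m lev d), ∃ u : K, u ≠ 0 ∧
      ((Tm S m lev z V N).toSquareBlock (bb m lev d) a).det = C u * (if a = 0 then P else 1) := by
    intro a _
    by_cases ha : a = 0
    · subst ha
      let E : {j // lev j = d} ≃ {x : {x : Fin (m + 1) × I // ¬ lev x.2 < d} // bb m lev d x = 0} :=
        { toFun := fun j => ⟨⟨(0, j.1), by rw [j.2]; exact lt_irrefl d⟩,
            (bb_zero m lev _).2 ⟨rfl, j.2⟩⟩
          invFun := fun x => ⟨x.1.1.2, ((bb_zero m lev _).1 x.2).2⟩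
          left_inv := fun j => rfl
          right_inv := by
            rintro ⟨⟨⟨t, j⟩, h⟩, h'⟩
            have h2 := ((bb_zero m lev _).1 h').1
            apply Subtype.ext
            apply Subtype.ext
            exact Prod.ext h2.symm rfl }
      set V0 := ((V 0).submatrix (Subtype.val : {j // lev j = d} → I) id).map S.res with hV0'
      set Nb := (∑ s ∈ Finset.range (m + 1), N s).map S.res with hNb
      have e1 : ((Tm S m lev z V N).toSquareBlock (bb m lev d) 0).submatrix E E =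
          -((V0.map C) * Nb.charmatrix) := by
        ext1 i j
        rw [Matrix.submatrix_apply, Matrix.toSquareBlock_def, Matrix.of_apply, Tm,
          dif_pos ((bb_zero m lev _).1 (E j).2), TT0, if_pos ((bb_zero m lev _).1 (E i).2),
          Polynomial.map_sub, Polynomial.map_mul, map_C, map_C, map_X, Matrix.neg_apply,
          Matrix.charmatrix, Matrix.mul_sub, Matrix.sub_apply, Matrix.scalar_apply]
        have e2 : (V0.map (C : K →+* K[X]) * Matrix.diagonal (fun _ => (X : K[X])) :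
            Matrix {j // lev j = d} {j // lev j = d} K[X]) i j = X * C (S.res (V 0 i.1 j)) := by
          rw [Matrix.mul_diagonal, Matrix.map_apply, hV0', Matrix.map_apply,
            Matrix.submatrix_apply, mul_comm]
          rfl
        have e3 : (V0.map (C : K →+* K[X]) * (C.mapMatrix Nb) :
            Matrix {j // lev j = d} {j // lev j = d} K[X]) i j =
            C (S.res ((V 0 * ∑ s ∈ Finset.range (m + 1), N s) i.1 j)) := by
          rw [Matrix.mul_apply, Matrix.mul_apply, map_sum, map_sum]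
          refine Finset.sum_congr rfl fun l _ => ?_
          rw [RingHom.mapMatrix_apply, Matrix.map_apply, Matrix.map_apply, map_mul, map_mul]
          rfl
        rw [e2, e3, neg_sub]
        rfl
      refine ⟨(-1) ^ Fintype.card {j // lev j = d} * V0.det,
        mul_ne_zero (pow_ne_zero _ (neg_ne_zero.2 one_ne_zero)) hV0, ?_⟩
      rw [← Matrix.det_submatrix_equiv_self E, e1, Matrix.det_neg, Matrix.det_mul, if_pos rfl,
        C_mul, C_pow, C_neg, C_1, hP, Matrix.charpoly]
      have e5 : (V0.map (C : K →+* K[X])).det = C V0.det := by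
        rw [RingHom.map_det]
        rfl
      rw [e5, mul_assoc]
    · refine ⟨(-1) ^ Fintype.card {x : {x : Fin (m + 1) × I // ¬ lev x.2 < d} // bb m lev d x = a},
        pow_ne_zero _ (neg_ne_zero.2 one_ne_zero), ?_⟩
      have e1 : (Tm S m lev z V N).toSquareBlock (bb m lev d) a = -1 := by
        ext1 x y
        have hy : ¬ (y.1.1.1 = 0 ∧ lev y.1.1.2 = d) := by
          intro h
          exact ha (y.2.symm.trans ((bb_zero m lev _).2 h))
        have hx : ¬ (x.1.1.1 = 0 ∧ lev x.1.1.2 = d) := by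
          intro h
          exact ha (x.2.symm.trans ((bb_zero m lev _).2 h))
        rw [Matrix.toSquareBlock_def, Matrix.of_apply, Tm, dif_neg hy,
          map_cyc2 S m lev z hd hp1, if_neg x.1.2, Matrix.neg_apply, Matrix.one_apply]
        have e2 : (if y.1.1.1 + 1 = x.1.1.1 then C (S.res (z y.1.1.1 x.1.1.2 y.1.1.2)) else 0 :
            K[X]) = 0 := by
          split_ifs with hxy2
          · rcases Nat.lt_or_ge d (lev x.1.1.2) with h | h
            · obtain ⟨q, hq⟩ := h1 y.1.1.1 x.1.1.2 y.1.1.2 h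
              rw [hq, map_mul, map_pow, S.res_lam, zero_pow (by omega), zero_mul, C_0]
            · exfalso
              have hlx : lev x.1.1.2 = d := le_antisymm h (not_lt.1 x.1.2)
              have hx2 := x.2
              have hy2 := y.2
              have h5 := x.1.1.1.2
              have h6 := y.1.1.1.2
              have hx0 : x.1.1.1 ≠ 0 := fun h => hx ⟨h, hlx⟩
              have hx0' : (x.1.1.1 : ℕ) ≠ 0 := fun h => hx0 (Fin.ext h)
              rw [bb, if_pos hlx, if_neg hx0] at hx2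
              rw [bb] at hy2
              split_ifs at hy2 with h7 h8
              · omega
              · rcases fin_step _ _ hxy2 with ⟨h9, _⟩ | h9
                · exact hx0 h9
                · omega
              · omega
          · rfl
        rw [e2, sub_zero]
        by_cases hxy : x = y
        · rw [if_pos (by rw [hxy]), if_pos hxy]
        · rw [if_neg (fun h => hxy (Subtype.ext (Subtype.ext h))), if_neg hxy, neg_zero]
      rw [e1, Matrix.det_neg, Matrix.det_one, mul_one, if_neg ha, mul_one, C_pow, C_neg, C_1]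
  choose! u hu hu2 using key
  refine ⟨∏ a ∈ Finset.univ.image (bb m lev d), u a, Finset.prod_ne_zero_iff.2 hu, ?_⟩
  rw [Finset.prod_congr rfl hu2, Finset.prod_mul_distrib, ← map_prod, Finset.prod_ite_eq']
  congr 1
  split_ifs with h
  · rfl
  · have : IsEmpty {j // lev j = d} := by
      refine ⟨fun j => h (Finset.mem_image.2 ⟨⟨(0, j.1), by rw [j.2]; exact lt_irrefl d⟩,
        Finset.mem_univ _, (bb_zero m lev _).2 ⟨rfl, j.2⟩⟩)⟩
    rw [hP, Matrix.charpoly, Matrix.det_isEmpty]

/-- **the second order term at the middle slope** -/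
theorem spec2 (hd : 1 ≤ d) (hp1 : 1 < p) (D : ℕ) (hD2 : d + 1 ≤ 2 * D) (hDd : D ≤ d + 1)
    (hDp : D ≤ p - 1)
    (h1 : ∀ t i j, d < lev i → S.lam ^ (d + 1) ∣ z t i j)
    (h2 : ∀ t i j, lev i = d → lev j < d → S.lam ^ D ∣ z t i j)
    (hV : ∀ t i j, d < lev i → V t i j = 0)
    (h3 : ∀ t i j, lev i < d → S.lam ^ D ∣ (z t * V t) i j)
    (h4 : ∀ t i j, lev i = d →
      S.lam ^ (d + 1) ∣ (z t * V t) i j + V (t + 1) i j + S.lam ^ d * (V (t + 1) * N t) i j)
    (hper : ∀ i j, V (m + 1) i j = V 0 i j)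
    (hdet : ∀ t, (((z t).map S.res).submatrix (Subtype.val : {i // lev i < d} → I)
      Subtype.val).det ≠ 0)
    (hV0 : (((V 0).submatrix (Subtype.val : {j // lev j = d} → I) id).map S.res).det ≠ 0) :
    ∃ (Pz G2 : R[X]) (u u' : K), u ≠ 0 ∧ u' ≠ 0 ∧
      (cyc m (dl2 S lev) (fun t => (z t).map C)).det * Pz = C (S.lam ^ E0 m lev d) * G2 ∧
      Pz.map S.res = C u' ∧
      G2.map S.res = C u * ((∑ s ∈ Finset.range (m + 1), N s).map S.res).charpoly := by
  obtain ⟨ub, hub, hub2⟩ := low_det S m lev z V N hd hp1 hdet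
  obtain ⟨ut, hut, hut2⟩ := Tm_det S m lev z V N hd hp1 h1 hV0
  set M := (A1 S m lev z V N).toBlock (fun x => lev x.2 < d) (fun x => lev x.2 < d) with hM
  set B := (A1 S m lev z V N).toBlock (fun x => lev x.2 < d) (fun x => ¬ lev x.2 < d) with hB
  set C' := (A1 S m lev z V N).toBlock (fun x => ¬ lev x.2 < d) (fun x => lev x.2 < d) with hC'
  set E := (A1 S m lev z V N).toBlock (fun x => ¬ lev x.2 < d) (fun x => ¬ lev x.2 < d) with hE
  set E' := M.det • E - C' * M.adjugate * B with hE'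
  have hsch := schur M B C' E
  rw [← Matrix.det_toBlock (A1 S m lev z V N) (fun x => lev x.2 < d), A1, Matrix.det_mul,
    qq_det, ← hE'] at hsch
  -- the divisibility of the lower left block
  have hC : ∀ x a, C (S.lam ^ D) ∣ C' x a := by
    intro x a
    have ha : ¬ (a.1.1 = 0 ∧ lev a.1.2 = d) := by
      rintro ⟨_, h⟩
      exact absurd a.2 (by rw [h]; exact lt_irrefl d)
    rw [hC', Matrix.toBlock_apply, A1_other S _ _ ha, cyc, if_neg, zero_sub, dvd_neg]
    · split_ifs
      · rw [Matrix.map_apply]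
        refine _root_.map_dvd (C : R →+* R[X]) ?_
        rcases Nat.lt_or_ge d (lev x.1.2) with h | h
        · exact (pow_dvd_pow _ hDd).trans (h1 _ _ _ h)
        · exact h2 _ _ _ (le_antisymm h (not_lt.1 x.2)) a.2
      · exact dvd_zero _
    · intro h
      exact x.2 (by rw [h]; exact a.2)
  have hCadj : ∀ x b, C (S.lam ^ D) ∣ (C' * M.adjugate) x b := by
    intro x b
    rw [Matrix.mul_apply]
    exact Finset.dvd_sum fun a _ => Dvd.dvd.mul_right (hC x a) _
  have hyeq : ∀ y : Fin (m + 1) × I, y.1 = 0 → y = (0, y.2) := fun y h => Prod.ext h rfl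
  have ha : ∀ x y : {x : Fin (m + 1) × I // ¬ lev x.2 < d}, ∀ h : y.1.1 = 0 ∧ lev y.1.2 = d,
      ∃ w : R[X], E' x y = C (S.lam ^ d) * (M.det * TT0 m lev V N x.1 ⟨y.1.2, h.2⟩ +
        C S.lam * w) := by
    intro x y h
    have e1 : C (S.lam ^ (d + 1)) ∣ (C' * M.adjugate * B) x y := by
      rw [Matrix.mul_apply]
      refine Finset.dvd_sum fun b _ => ?_
      refine dvd_trans (_root_.map_dvd (C : R →+* R[X]) (pow_dvd_pow S.lam hD2)) ?_
      have e2 : C (S.lam ^ D) ∣ B b y := by
        rw [hB, Matrix.toBlock_apply, hyeq y.1 h.1]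
        exact A1_lt S hDp h3 b.1 b.2 ⟨y.1.2, h.2⟩
      have e3 := mul_dvd_mul (hCadj x b) e2
      rw [← C_mul, ← pow_add, ← two_mul] at e3
      exact e3
    obtain ⟨q, hq⟩ := e1
    obtain ⟨q', hq'⟩ := A1_ge S hd hV h1 h4 hper x.1 x.2 ⟨y.1.2, h.2⟩
    refine ⟨M.det * q' - q, ?_⟩
    have e5 : A1 S m lev z V N x.1 y.1 = A1 S m lev z V N x.1 (0, y.1.2) :=
      congrArg (A1 S m lev z V N x.1) (hyeq y.1 h.1)
    rw [hE', Matrix.sub_apply, Matrix.smul_apply, smul_eq_mul, hq, hE, Matrix.toBlock_apply, e5]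
    rw [pow_succ, C_mul] at hq' ⊢
    linear_combination M.det * hq'
  have hb : ∀ x y : {x : Fin (m + 1) × I // ¬ lev x.2 < d}, ¬ (y.1.1 = 0 ∧ lev y.1.2 = d) →
      (E' x y).map S.res = (M.det).map S.res *
        (cyc m (dl2 S lev) (fun t => (z t).map C) x.1 y.1).map S.res := by
    intro x y h
    have e1 : C (S.lam ^ D) ∣ (C' * M.adjugate * B) x y := by
      rw [Matrix.mul_apply]
      exact Finset.dvd_sum fun b _ => Dvd.dvd.mul_right (hCadj x b) _
    obtain ⟨q, hq⟩ := e1
    rw [hE', Matrix.sub_apply, Matrix.smul_apply, smul_eq_mul, hq, hE, Matrix.toBlock_apply,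
      A1_other S _ _ h, Polynomial.map_sub, Polynomial.map_mul, Polynomial.map_mul, map_C,
      map_pow, S.res_lam, zero_pow (by omega), C_0, zero_mul, sub_zero]
  choose w hw using ha
  set E2 : Matrix {x : Fin (m + 1) × I // ¬ lev x.2 < d} {x : Fin (m + 1) × I // ¬ lev x.2 < d}
      R[X] := fun x y => if h : y.1.1 = 0 ∧ lev y.1.2 = d then
      M.det * TT0 m lev V N x.1 ⟨y.1.2, h.2⟩ + C S.lam * w x y h else E' x y with hE2
  have hdetE : E'.det = C (S.lam ^ E0 m lev d) * E2.det := by
    have e1 : E' = Matrix.of fun x y => (C S.lam ^ (if y.1.1 = 0 ∧ lev y.1.2 = d then d else 0)) *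
        E2 x y := by
      ext1 x y
      rw [Matrix.of_apply, hE2]
      beta_reduce
      by_cases h : y.1.1 = 0 ∧ lev y.1.2 = d
      · rw [if_pos h, dif_pos h, hw x y h, C_pow]
      · rw [if_neg h, dif_neg h, pow_zero, one_mul]
    rw [e1, Matrix.det_mul_row, Finset.prod_pow_eq_pow_sum, E0, C_pow]
  have hE2map : E2.det.map S.res = (C ub) ^ Fintype.card {x : Fin (m + 1) × I // ¬ lev x.2 < d} *
      (Tm S m lev z V N).det := by
    rw [← coe_mapRingHom, RingHom.map_det, ← Matrix.det_smul]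
    congr 1
    ext1 x y
    rw [RingHom.mapMatrix_apply, Matrix.map_apply, Matrix.smul_apply, smul_eq_mul, hE2, Tm,
      coe_mapRingHom, ← hub2]
    beta_reduce
    by_cases h : y.1.1 = 0 ∧ lev y.1.2 = d
    · rw [dif_pos h, dif_pos h, Polynomial.map_add, Polynomial.map_mul, Polynomial.map_mul, map_C,
        S.res_lam, C_0, zero_mul, add_zero]
    · rw [dif_neg h, dif_neg h, hb x y h]
  refine ⟨C ((V 0).submatrix Subtype.val id).det *
    M.det ^ Fintype.card {x : Fin (m + 1) × I // ¬ lev x.2 < d}, M.det * E2.det,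
    ub * (ub ^ Fintype.card {x : Fin (m + 1) × I // ¬ lev x.2 < d} * ut),
    (((V 0).submatrix (Subtype.val : {j // lev j = d} → I) id).map S.res).det *
      ub ^ Fintype.card {x : Fin (m + 1) × I // ¬ lev x.2 < d},
    mul_ne_zero hub (mul_ne_zero (pow_ne_zero _ hub) hut), mul_ne_zero hV0 (pow_ne_zero _ hub),
    ?_, ?_, ?_⟩
  · rw [hdetE] at hsch
    linear_combination hsch
  · rw [Polynomial.map_mul, map_C, Polynomial.map_pow, hub2, RingHom.map_det, C_mul, C_pow]
    rfl
  · rw [Polynomial.map_mul, hub2, hE2map, hut2, C_mul, C_mul, C_pow]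
    ring

end main

end Pool.Agent.H856.SO
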