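import Pool.Agent.H856.SO.Ext

set_option autoImplicit false
set_option linter.unusedSectionVars false
set_option linter.unusedVariables false

/-!
# Laplacians without eigenvalues in the prime field
-/

namespace Pool.Agent.H856.SO

open Pool.Agent.H425 Pool.Agent.H856.DW Polynomial

section lap

variable {B : Type} [CommRing B] {J : Type} [Fintype J] [DecidableEq J]

/-- the weighted Laplacian -/
def lap (w : J → J → B) : Matrix J J B :=
  Matrix.of fun i j => if i = j then ∑ m ∈ Finset.univ.erase i, w i m else -w i j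

theorem NM_lap (c : B) (w : J → J → B) (hw : ∀ i j, w i j = w j i) : NM c w = c • lap w := by
  ext j i
  rw [Matrix.smul_apply, lap, Matrix.of_apply, smul_eq_mul, NM]
  by_cases h : j = i
  · subst h
    rw [if_pos rfl]
  · rw [if_neg h, if_neg h, hw i j]

theorem NM_mulVec (c : B) (w : J → J → B) (hw : ∀ i j, w i j = w j i) (v : J → B) (i : J) :
    (NM c w).mulVec v i = c * ∑ j ∈ Finset.univ.erase i, w i j * (v i - v j) := by
  have h1 : NM c w i i = c * ∑ m ∈ Finset.univ.erase i, w i m := by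
    simp only [NM, if_true]
  have h2 : ∀ j ∈ Finset.univ.erase i, NM c w i j * v j = -(c * w i j * v j) := by
    intro j hj
    simp only [NM, if_neg (Finset.ne_of_mem_erase hj).symm]
    rw [hw j i]
    ring
  rw [Matrix.mulVec, dotProduct, ← Finset.add_sum_erase _ _ (Finset.mem_univ i), h1,
    Finset.sum_congr rfl h2, Finset.mul_sum, Finset.sum_mul, ← Finset.sum_add_distrib,
    Finset.mul_sum]
  refine Finset.sum_congr rfl fun j _ => ?_
  ring

end lap

section roots

variable {p : ℕ} [hp : Fact p.Prime] {n : ℕ}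

theorem charpoly_NM (hn : ((n + 1 : ℕ) : ZMod p) ≠ 0) (w : Fin (n + 1) → Fin (n + 1) → ZMod p)
    (hw : ∀ i j, w i j = w j i) :
    ((((n + 1 : ℕ) : ZMod p)⁻¹) • lap w).charpoly =
      X * (red (NM (((n + 1 : ℕ) : ZMod p)⁻¹) w)).charpoly := by
  rw [← NM_lap _ w hw]
  exact charpoly_red hn _ (NM_row _ w hw) (NM_col _ w)

theorem card_roots_lap (hn : ((n + 1 : ℕ) : ZMod p) ≠ 0)
    (w : Fin (n + 1) → Fin (n + 1) → ZMod p) (hw : ∀ i j, w i j = w j i) :
    (lap w).charpoly.roots.card =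
      (red (NM (((n + 1 : ℕ) : ZMod p)⁻¹) w)).charpoly.roots.card + 1 := by
  have h1 : ((((n + 1 : ℕ) : ZMod p)⁻¹) • lap w).charpoly.roots.card =
      (X * (red (NM (((n + 1 : ℕ) : ZMod p)⁻¹) w)).charpoly).roots.card := by
    rw [charpoly_NM hn w hw]
  rw [card_roots_smul _ _ (inv_ne_zero hn), roots_mul (mul_ne_zero X_ne_zero
    (Matrix.charpoly_monic _).ne_zero), roots_X, Multiset.card_add, Multiset.card_singleton] at h1
  omega

theorem rootMultiplicity_lap (hn : ((n + 1 : ℕ) : ZMod p) ≠ 0)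
    (w : Fin (n + 1) → Fin (n + 1) → ZMod p) (hw : ∀ i j, w i j = w j i) :
    (lap w).charpoly.rootMultiplicity 0 =
      (red (NM (((n + 1 : ℕ) : ZMod p)⁻¹) w)).charpoly.rootMultiplicity 0 + 1 := by
  have h1 : ((((n + 1 : ℕ) : ZMod p)⁻¹) • lap w).charpoly.rootMultiplicity 0 =
      (X * (red (NM (((n + 1 : ℕ) : ZMod p)⁻¹) w)).charpoly).rootMultiplicity 0 := by
    rw [charpoly_NM hn w hw]
  have h2 := charpoly_smul (lap w) (((n + 1 : ℕ) : ZMod p)⁻¹) (inv_ne_zero hn) 0
  rw [mul_zero] at h2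
  rw [h2, rootMultiplicity_mul (mul_ne_zero X_ne_zero (Matrix.charpoly_monic _).ne_zero)] at h1
  have h3 : (X : (ZMod p)[X]).rootMultiplicity 0 = 1 := by
    have := rootMultiplicity_X_sub_C_self (x := (0 : ZMod p))
    rwa [C_0, sub_zero] at this
  rw [h3] at h1
  omega

end roots

section fourier

variable {F : Type} [Field F] {d : ℕ}

theorem psum (ζ : F) (hζ : IsPrimitiveRoot ζ d) (c : ℕ) :
    ∑ j : Fin d, (ζ ^ (j : ℕ)) ^ c = if d ∣ c then (d : F) else 0 := by
  have h0 : ∀ j : ℕ, (ζ ^ j) ^ c = (ζ ^ c) ^ j := fun j => by rw [← pow_mul, ← pow_mul, mul_comm]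
  rw [Finset.sum_congr rfl (fun (j : Fin d) _ => h0 (j : ℕ)), Fin.sum_univ_eq_sum_range (fun j => (ζ ^ c) ^ j) d]
  split_ifs with h
  · rw [(hζ.pow_eq_one_iff_dvd c).2 h]
    simp
  · have h1 : ζ ^ c ≠ 1 := fun h1 => h ((hζ.pow_eq_one_iff_dvd c).1 h1)
    have h2 := geom_sum_mul (ζ ^ c) d
    rw [← pow_mul, mul_comm c, pow_mul, hζ.pow_eq_one, one_pow, sub_self] at h2
    exact (mul_eq_zero.1 h2).resolve_right (sub_ne_zero.2 h1)

/-- **the eigenvectors of the Laplacian** -/
theorem fourier (ζ : F) (hζ : IsPrimitiveRoot ζ d) (hd : 4 ≤ d) (hdF : (d : F) ≠ 0) (u c : F)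
    (hu : 2 * u = 1) (w : Fin d → Fin d → F)
    (hw : ∀ i j, i ≠ j → w i j = (ζ ^ (i : ℕ) + ζ ^ (j : ℕ)) - c * (ζ ^ (i : ℕ) * ζ ^ (j : ℕ)) -
      u * (ζ ^ (i : ℕ) * ζ ^ (j : ℕ) * (ζ ^ (i : ℕ) + ζ ^ (j : ℕ))))
    (b κ : F) (hb : b ^ (d - 1) - b ≠ c) (v : Fin d → F)
    (hv : ∀ i, ∑ j ∈ Finset.univ.erase i, w i j * (v i - v j) = (d : F) * (b * v i + κ)) :
    ∀ i j, v i = v j := by
  set ρ : Fin d → F := fun j => ζ ^ (j : ℕ) with hρ
  set W : Fin d → Fin d → F := fun i j => (ρ i + ρ j) - c * (ρ i * ρ j) -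
    u * (ρ i * ρ j * (ρ i + ρ j)) with hW
  have hWs : ∀ i j, W i j = W j i := by
    intro i j
    simp only [hW]
    ring
  have hps : ∀ m, ∑ j, ρ j ^ m = if d ∣ m then (d : F) else 0 := psum ζ hζ
  have hp0 : ∀ m, 1 ≤ m → m < d → ∑ j, ρ j ^ m = 0 := by
    intro m h1 h2
    rw [hps, if_neg]
    intro h3
    have := Nat.le_of_dvd (by omega) h3
    omega
  have hpd : ∑ j, ρ j ^ d = (d : F) := by rw [hps, if_pos (dvd_refl d)]
  have hpd1 : ∑ j, ρ j ^ (d + 1) = 0 := by
    rw [hps, if_neg]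
    intro h3
    have h4 := (Nat.dvd_add_right (dvd_refl d)).1 h3
    have := Nat.le_of_dvd (by omega) h4
    omega
  have hv2 : ∀ i, ∑ j, W i j * (v i - v j) = (d : F) * (b * v i + κ) := by
    intro i
    rw [← hv i, ← Finset.add_sum_erase _ _ (Finset.mem_univ i), sub_self, mul_zero, zero_add]
    refine Finset.sum_congr rfl fun j hj => ?_
    rw [hw i j (Finset.ne_of_mem_erase hj).symm]
  -- the Fourier coefficients
  set A : ℕ → F := fun m => ∑ j, v j * ρ j ^ m with hA
  have key : ∀ m, ∑ i, v i * ∑ j, W i j * (ρ i ^ m - ρ j ^ m) =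
      (d : F) * (b * A m + κ * ∑ j, ρ j ^ m) := by
    intro m
    have h1 : ∑ i, ρ i ^ m * ∑ j, W i j * (v i - v j) =
        (d : F) * (b * A m + κ * ∑ j, ρ j ^ m) := by
      rw [Finset.sum_congr rfl (fun i _ => by rw [hv2 i])]
      simp only [hA, Finset.mul_sum, mul_add]
      rw [← Finset.sum_add_distrib]
      exact Finset.sum_congr rfl fun i _ => by ring
    rw [← h1]
    simp only [Finset.mul_sum]
    have h2 : ∀ i j, ρ i ^ m * (W i j * (v i - v j)) = ρ i ^ m * W i j * v i -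
        ρ i ^ m * W i j * v j := fun i j => by ring
    have h3 : ∀ i j, v i * (W i j * (ρ i ^ m - ρ j ^ m)) = ρ i ^ m * W i j * v i -
        ρ j ^ m * W j i * v i := fun i j => by rw [hWs j i]; ring
    simp only [h2, h3, Finset.sum_sub_distrib]
    congr 1
    exact Finset.sum_comm
  have hP : ∀ (i : Fin d) (m : ℕ), ∑ j, W i j * ρ j ^ m = ρ i * ∑ j, ρ j ^ m + ∑ j, ρ j ^ (m + 1) -
      c * ρ i * ∑ j, ρ j ^ (m + 1) - u * ρ i ^ 2 * ∑ j, ρ j ^ (m + 1) -
      u * ρ i * ∑ j, ρ j ^ (m + 2) := by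
    intro i m
    simp only [hW, Finset.mul_sum]
    rw [← Finset.sum_add_distrib, ← Finset.sum_sub_distrib, ← Finset.sum_sub_distrib,
      ← Finset.sum_sub_distrib]
    refine Finset.sum_congr rfl fun j _ => ?_
    ring
  have hW0 : ∀ i : Fin d, ∑ j, W i j = (d : F) * ρ i := by
    intro i
    have h1 := hP i 0
    simp only [pow_zero, mul_one, zero_add] at h1
    rw [h1, hp0 1 le_rfl (by omega), hp0 2 (by omega) (by omega)]
    simp
    ring
  have hS : ∀ (i : Fin d) (m : ℕ), ∑ j, W i j * (ρ i ^ m - ρ j ^ m) = (d : F) * ρ i ^ (m + 1) -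
      ∑ j, W i j * ρ j ^ m := by
    intro i m
    simp only [mul_sub, Finset.sum_sub_distrib]
    rw [← Finset.sum_mul, hW0]
    ring
  -- the equations
  have e1 : ∀ m, 1 ≤ m → m + 2 < d → A (m + 1) = b * A m := by
    intro m h1 h2
    have h3 := key m
    rw [hp0 m h1 (by omega), mul_zero, add_zero] at h3
    have h4 : ∀ i : Fin d, ∑ j, W i j * (ρ i ^ m - ρ j ^ m) = (d : F) * ρ i ^ (m + 1) := by
      intro i
      rw [hS, hP, hp0 m h1 (by omega), hp0 (m + 1) (by omega) (by omega),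
        hp0 (m + 2) (by omega) h2]
      ring
    rw [Finset.sum_congr rfl (fun i _ => by rw [h4 i])] at h3
    apply mul_left_cancel₀ hdF
    rw [← h3]
    simp only [hA, Finset.mul_sum]
    exact Finset.sum_congr rfl fun i _ => by ring
  have e2 : A (d - 1) + u * A 1 = b * A (d - 2) := by
    have h3 := key (d - 2)
    rw [hp0 (d - 2) (by omega) (by omega), mul_zero, add_zero] at h3
    have h4 : ∀ i : Fin d, ∑ j, W i j * (ρ i ^ (d - 2) - ρ j ^ (d - 2)) =
        (d : F) * (ρ i ^ (d - 1) + u * ρ i ^ 1) := by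
      intro i
      rw [hS, hP, hp0 (d - 2) (by omega) (by omega), show d - 2 + 1 = d - 1 by omega,
        hp0 (d - 1) (by omega) (by omega), show d - 2 + 2 = d by omega, hpd]
      ring
    rw [Finset.sum_congr rfl (fun i _ => by rw [h4 i])] at h3
    apply mul_left_cancel₀ hdF
    rw [← h3]
    simp only [hA, Finset.mul_sum, mul_add]
    rw [← Finset.sum_add_distrib]
    exact Finset.sum_congr rfl fun i _ => by ring
  have e3 : c * A 1 + u * A 2 = b * A (d - 1) := by
    have h3 := key (d - 1)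
    rw [hp0 (d - 1) (by omega) (by omega), mul_zero, add_zero] at h3
    have h5 : ∀ i : Fin d, ρ i ^ d = 1 := by
      intro i
      simp only [hρ]
      rw [← pow_mul, mul_comm, pow_mul, hζ.pow_eq_one, one_pow]
    have h4 : ∀ i : Fin d, ∑ j, W i j * (ρ i ^ (d - 1) - ρ j ^ (d - 1)) =
        (d : F) * (c * ρ i ^ 1 + u * ρ i ^ 2) := by
      intro i
      rw [hS, hP, hp0 (d - 1) (by omega) (by omega), show d - 1 + 1 = d by omega, hpd,
        show d - 1 + 2 = d + 1 by omega, hpd1, h5]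
      ring
    rw [Finset.sum_congr rfl (fun i _ => by rw [h4 i])] at h3
    apply mul_left_cancel₀ hdF
    rw [← h3]
    simp only [hA, Finset.mul_sum, mul_add]
    rw [← Finset.sum_add_distrib]
    exact Finset.sum_congr rfl fun i _ => by ring
  have e4 : ∀ m, m + 1 < d - 1 → A (m + 1) = b ^ m * A 1 := by
    intro m
    induction m with
    | zero => intro _; rw [pow_zero, one_mul]
    | succ m ih =>
      intro h
      rw [e1 (m + 1) (by omega) (by omega), ih (by omega), pow_succ]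
      ring
  have e5 : A 2 = b * A 1 := e1 1 le_rfl (by omega)
  have e6 : A (d - 2) = b ^ (d - 3) * A 1 := by
    have := e4 (d - 3) (by omega)
    rwa [show d - 3 + 1 = d - 2 by omega] at this
  have e7 : A 1 = 0 := by
    have h1 : (b ^ (d - 1) - b - c) * A 1 = 0 := by
      have h2 : b ^ (d - 1) = b * b * b ^ (d - 3) := by
        rw [← pow_two, ← pow_add]
        congr 1
        omega
      rw [e5] at e3
      rw [e6] at e2
      rw [h2]
      linear_combination (-b) * e2 - e3 + b * A 1 * hu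
    exact (mul_eq_zero.1 h1).resolve_left (sub_ne_zero.2 hb)
  have e8 : A (d - 1) = 0 := by
    rw [e6, e7] at e2
    linear_combination e2
  have e9 : ∀ m, 1 ≤ m → m < d → A m = 0 := by
    intro m h1 h2
    by_cases h3 : m = d - 1
    · rw [h3, e8]
    · obtain ⟨m', rfl⟩ : ∃ m', m = m' + 1 := ⟨m - 1, by omega⟩
      rw [e4 m' (by omega), e7, mul_zero]
  -- inversion
  have hinj : Function.Injective ρ := by
    intro i j hij
    exact Fin.ext (hζ.pow_inj i.2 j.2 hij)
  have hz : (fun j => v j - A 0 / d) = 0 := by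
    refine Matrix.eq_zero_of_forall_pow_sum_mul_pow_eq_zero hinj fun m => ?_
    simp only [sub_mul, Finset.sum_sub_distrib]
    rw [← Finset.mul_sum]
    rcases Nat.eq_zero_or_pos (m : ℕ) with h | h
    · rw [h, hps, if_pos (dvd_zero d)]
      rw [div_mul_cancel₀ _ hdF]
      simp only [hA]
      exact sub_self _
    · rw [hp0 _ h m.2, mul_zero, sub_zero]
      exact e9 _ h m.2
  intro i j
  have h1 := congrFun hz i
  have h2 := congrFun hz j
  simp only [Pi.zero_apply] at h1 h2
  linear_combination h1 - h2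

/-- a root of the reduced characteristic polynomial gives an eigenvector -/
theorem exists_eigen {n : ℕ} (hn : ((n + 1 : ℕ) : F) ≠ 0) (w : Fin (n + 1) → Fin (n + 1) → F)
    (hw : ∀ i j, w i j = w j i) (b : F)
    (hb : (red (NM (((n + 1 : ℕ) : F)⁻¹) w)).charpoly.eval b = 0) :
    ∃ (v : Fin (n + 1) → F) (κ : F), v ≠ 0 ∧ v (Fin.last n) = 0 ∧
      ∀ i, ∑ j ∈ Finset.univ.erase i, w i j * (v i - v j) = ((n + 1 : ℕ) : F) * (b * v i + κ) := by
  rw [Matrix.eval_charpoly] at hb
  obtain ⟨x, hx0, hx⟩ := Matrix.exists_mulVec_eq_zero_iff.2 hb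
  set c : F := ((n + 1 : ℕ) : F)⁻¹ with hc
  set v : Fin (n + 1) → F := Fin.snoc x 0 with hv
  have hv1 : ∀ i, v (Fin.castSucc i) = x i := fun i => Fin.snoc_castSucc (α := fun _ => F) _ _ _
  have hv2 : v (Fin.last n) = 0 := Fin.snoc_last (α := fun _ => F) _ _
  refine ⟨v, (NM c w).mulVec v (Fin.last n), ?_, hv2, ?_⟩
  · intro h
    apply hx0
    funext i
    rw [← hv1, h]
    rfl
  · have h1 : ∀ j : Fin n, ∑ i, red (NM c w) j i * x i = b * x j := by
      intro j
      have h2 := congrFun hx j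
      rw [Matrix.sub_mulVec, Pi.sub_apply, Pi.zero_apply, sub_eq_zero] at h2
      rw [Matrix.scalar_apply, ← Matrix.smul_one_eq_diagonal, Matrix.smul_mulVec,
        Matrix.one_mulVec, Pi.smul_apply, smul_eq_mul] at h2
      rw [h2]
      rfl
    have h3 : ∀ j : Fin (n + 1), (NM c w).mulVec v j - (NM c w).mulVec v (Fin.last n) =
        b * v j := by
      intro j
      refine Fin.lastCases ?_ (fun j => ?_) j
      · rw [hv2, sub_self, mul_zero]
      · rw [hv1, ← h1 j, Matrix.mulVec, Matrix.mulVec, dotProduct, dotProduct,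
          Fin.sum_univ_castSucc, Fin.sum_univ_castSucc, hv2, mul_zero, mul_zero, add_zero,
          add_zero, ← Finset.sum_sub_distrib]
        refine Finset.sum_congr rfl fun i _ => ?_
        rw [hv1, red, sub_mul]
    intro i
    have h4 := NM_mulVec c w hw v i
    rw [← h3 i, sub_add_cancel, h4, ← mul_assoc, hc, mul_inv_cancel₀ hn, one_mul]

end fourier

section prim

variable {p : ℕ} [hp : Fact p.Prime]

theorem exists_prim (d : ℕ) (hd : d ∣ p - 1) (hd0 : 0 < d) :
    ∃ ζ : ZMod p, IsPrimitiveRoot ζ d := by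
  have hp1 := hp.out.one_lt
  obtain ⟨g, hg⟩ := IsCyclic.exists_generator (α := (ZMod p)ˣ)
  have h1 : orderOf g = p - 1 := by
    rw [orderOf_eq_card_of_forall_mem_zpowers hg, Nat.card_eq_fintype_card, ZMod.card_units]
  obtain ⟨e, he⟩ := hd
  have h2 : IsPrimitiveRoot g (p - 1) := by
    rw [← h1]
    exact IsPrimitiveRoot.orderOf g
  have h3 : IsPrimitiveRoot (g ^ e) d := h2.pow (by omega) (by rw [he, mul_comm])
  exact ⟨((g ^ e : (ZMod p)ˣ) : ZMod p), h3.map_of_injective (f := Units.coeHom (ZMod p))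
    Units.val_injective⟩

theorem exists_c (n : ℕ) (hn : 1 ≤ n) : ∃ c : ZMod p, ∀ b : ZMod p, b ^ n - b ≠ c := by
  by_contra hcon
  push Not at hcon
  have h1 : Function.Surjective (fun b : ZMod p => b ^ n - b) := fun c => hcon c
  have h2 := Finite.injective_iff_surjective.2 h1
  have h3 : (0 : ZMod p) = 1 := h2 (by simp [zero_pow (by omega : n ≠ 0)])
  exact zero_ne_one h3

/-- the Hasse-Witt matrices of `X ^ d - a` -/
theorem hwm_diag {k : Type} [Field k] [CharP k p]
    (d : ℕ) (hd : 2 ≤ d) (hdp : d ∣ p - 1) (a : k) (ha : a ≠ 0) (w : ℕ) (hw1 : 2 ≤ w)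
    (hw2 : w < d) : (hwm p d (X ^ d - C a : k[X]) w).det ≠ 0 := by
  classical
  have hp1 := hp.out.one_lt
  obtain ⟨e, he⟩ := hdp
  have hN : (p - 1) * w / d = e * w := by
    rw [he, mul_assoc, Nat.mul_div_cancel_left _ (by omega)]
  have hcoeff : ∀ m : ℕ, ((X ^ d - C a : k[X]) ^ (e * w)).coeff m =
      if d ∣ m then (-a) ^ (e * w - m / d) * ((e * w).choose (m / d) : k) else 0 := by
    intro m
    have h1 : (X ^ d - C a : k[X]) ^ (e * w) = expand k d ((X + C (-a)) ^ (e * w)) := by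
      rw [map_pow, map_add, expand_X, expand_C, C_neg, sub_eq_add_neg]
    rw [h1, coeff_expand (by omega)]
    split_ifs with h2
    · rw [coeff_X_add_C_pow]
    · rfl
  have hdiag : hwm p d (X ^ d - C a : k[X]) w = Matrix.diagonal (fun i : Fin (w - 1) =>
      (-a) ^ (e * w - e * (i + 1)) * ((e * w).choose (e * (i + 1)) : k)) := by
    ext i j
    rw [hwm, hN, hcoeff, Matrix.diagonal_apply]
    have hi := i.2
    have hj := j.2
    have hpe : p = d * e + 1 := by omega
    have hij : (j : ℕ) + 1 ≤ p * ((i : ℕ) + 1) := by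
      have : d ≤ d * e := Nat.le_mul_of_pos_right d (by
        rcases Nat.eq_zero_or_pos e with h | h
        · subst h
          omega
        · exact h)
      calc (j : ℕ) + 1 ≤ p := by omega
        _ ≤ p * ((i : ℕ) + 1) := Nat.le_mul_of_pos_right p (by omega)
    by_cases h : i = j
    · subst h
      have h1 : p * ((i : ℕ) + 1) - ((i : ℕ) + 1) = d * (e * (i + 1)) := by
        rw [hpe, add_mul, one_mul, Nat.add_sub_cancel, mul_assoc]
      rw [h1, if_pos (dvd_mul_right _ _), Nat.mul_div_cancel_left _ (by omega), if_pos rfl]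
    · rw [if_neg h, if_neg]
      intro h1
      apply h
      have h2 : (d : ℤ) ∣ ((p * ((i : ℕ) + 1) - ((j : ℕ) + 1) : ℕ) : ℤ) := by exact_mod_cast h1
      rw [Nat.cast_sub hij, hpe] at h2
      push_cast at h2
      have h3 : (d : ℤ) ∣ (i : ℤ) - (j : ℤ) := by
        have h4 : (i : ℤ) - (j : ℤ) = ((d * e + 1) * ((i : ℤ) + 1) - ((j : ℤ) + 1)) -
            d * (e * ((i : ℤ) + 1)) := by ring
        rw [h4]
        exact dvd_sub h2 (dvd_mul_right _ _)
      have h5 : (i : ℤ) - (j : ℤ) = 0 := by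
        refine Int.eq_zero_of_abs_lt_dvd h3 ?_
        rw [abs_lt]
        constructor <;> omega
      exact Fin.ext (by omega)
  rw [hdiag, Matrix.det_diagonal, Finset.prod_ne_zero_iff]
  intro i _
  refine mul_ne_zero (pow_ne_zero _ (neg_ne_zero.2 ha)) ?_
  have hi := i.2
  have h1 : e * ((i : ℕ) + 1) ≤ e * w := Nat.mul_le_mul_left _ (by omega)
  have h2 : e * w < p := by
    have h3 : e * w ≤ e * d := Nat.mul_le_mul_left _ (by omega)
    have h4 : e * d = p - 1 := by rw [he, mul_comm]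
    omega
  rw [Ne, CharP.cast_eq_zero_iff k p]
  intro h3
  have h5 : p ∣ (e * w).factorial :=
    h3.trans (Dvd.intro _ ((mul_assoc _ _ _).symm.trans (Nat.choose_mul_factorial_mul_factorial h1)))
  rw [hp.out.dvd_factorial] at h5
  omega

theorem prod_roots {k : Type} [Field k] {d : ℕ} (hd : 0 < d) (z : k) (hz : IsPrimitiveRoot z d) :
    ∏ j : Fin d, (X - C (z ^ (j : ℕ)) : k[X]) = X ^ d - C 1 := by
  have hinj : Set.InjOn (fun j : Fin d => z ^ (j : ℕ)) (Finset.univ : Finset (Fin d)) := by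
    intro i _ j _ hij
    exact Fin.ext (hz.pow_inj i.2 j.2 hij)
  refine eq_of_degree_sub_lt_of_eval_index_eq (v := fun j : Fin d => z ^ (j : ℕ)) Finset.univ
    hinj ?_ ?_
  · rw [Finset.card_univ, Fintype.card_fin]
    have h1 : (∏ j : Fin d, (X - C (z ^ (j : ℕ)) : k[X])).Monic :=
      monic_prod_of_monic _ _ fun j _ => monic_X_sub_C _
    have h2 : (∏ j : Fin d, (X - C (z ^ (j : ℕ)) : k[X])).natDegree = d := by
      rw [natDegree_finsetProd_X_sub_C_eq_card, Finset.card_univ, Fintype.card_fin]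
    have h3 : (X ^ d - C 1 : k[X]).Monic := monic_X_pow_sub_C 1 (by omega)
    have h4 : (X ^ d - C 1 : k[X]).natDegree = d := natDegree_X_pow_sub_C
    have h5 : (∏ j : Fin d, (X - C (z ^ (j : ℕ)) : k[X])).degree = d := by
      rw [degree_eq_natDegree h1.ne_zero, h2]
    have h6 : (X ^ d - C 1 : k[X]).degree = d := by
      rw [degree_eq_natDegree h3.ne_zero, h4]
    have h7 := degree_sub_lt_left (h5.trans h6.symm) h1.ne_zero (by rw [h1, h3])
    rwa [h5] at h7
  · intro j _
    rw [eval_prod, Finset.prod_eq_zero (Finset.mem_univ j)]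
    · rw [eval_sub, eval_pow, eval_X, eval_C, ← pow_mul, mul_comm, pow_mul, hz.pow_eq_one,
        one_pow, sub_self]
    · rw [eval_sub, eval_X, eval_C, sub_self]

end prim

end Pool.Agent.H856.SO
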