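import Pool.Agent.H856.SO.Core
import Pool.Agent.H856.SO.Rat

set_option autoImplicit false
set_option linter.unusedSectionVars false
set_option linter.unusedVariables false

/-!
# The multiplicities over all finite extensions
-/

namespace Pool.Agent.H856.SO

open Pool.Agent.H425 Pool.Agent.H856.DW Polynomial

/-- the spectrum of the surface -/
def Sp (p : ℕ) {k : Type} [Field k] (f : MvPolynomial (Fin 2) k) (Γ : Multiset ℂ) : Prop :=
  ∀ (L : Type) [Field L] [Finite L] [Algebra k L],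
    (Nat.card {P : (Fin 2 → L) × L // P.2 ^ p - P.2 = MvPolynomial.aeval P.1 f} : ℂ) =
      (Nat.card L : ℂ) ^ 2 + (Γ.map fun γ => γ ^ Module.finrank k L).sum

theorem Sp.map {k : Type} [Field k] [Finite k] {p : ℕ}
    {f : MvPolynomial (Fin 2) k} {Γ : Multiset ℂ} (h : Sp p f Γ) (L : Type) [Field L]
    [Finite L] [Algebra k L] : Sp p (MvPolynomial.map (algebraMap k L) f)
      (Γ.map fun γ => γ ^ Module.finrank k L) := by
  intro M _ _ _
  let : Algebra k M := ((algebraMap L M).comp (algebraMap k L)).toAlgebra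
  have : IsScalarTower k L M := IsScalarTower.of_algebraMap_eq' rfl
  have h1 := h M
  have h2 : Nat.card {P : (Fin 2 → M) × M // P.2 ^ p - P.2 = MvPolynomial.aeval P.1
      (MvPolynomial.map (algebraMap k L) f)} =
      Nat.card {P : (Fin 2 → M) × M // P.2 ^ p - P.2 = MvPolynomial.aeval P.1 f} := by
    refine Nat.card_congr (Equiv.subtypeEquivRight fun P => ?_)
    rw [MvPolynomial.aeval_map_algebraMap]
  rw [h2, h1, Multiset.map_map]
  congr 2
  refine Multiset.map_congr rfl fun γ _ => ?_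
  rw [Function.comp_apply, ← pow_mul, Module.finrank_mul_finrank]

theorem Sp.count_eq {k : Type} [Field k] [Finite k] {p : ℕ} [Fact p.Prime]
    [CharP k p] {f : MvPolynomial (Fin 2) k} {A B : Multiset ℂ} (hA : Sp p f A)
    (hB : Sp p f B) [DecidableEq ℂ] (x : ℂ) (hx : x ≠ 0) : A.count x = B.count x := by
  refine Pool.Agent.H856.DW.count_eq_of_powerSums A B (fun s hs => ?_) x hx
  have : NeZero s := ⟨by omega⟩
  have h1 := hA (FiniteField.Extension k p s)
  have h2 := hB (FiniteField.Extension k p s)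
  rw [FiniteField.finrank_extension] at h1 h2
  exact add_left_cancel (h1.symm.trans h2)

theorem Sp.rat {k : Type} [Field k] [Finite k] {p : ℕ} [Fact p.Prime]
    [CharP k p] {f : MvPolynomial (Fin 2) k} {Γ : Multiset ℂ} (h : Sp p f Γ) :
    ∃ S : ℕ → ℚ, ∀ s, 1 ≤ s → (Γ.map (fun γ => γ ^ s)).sum = (S s : ℂ) := by
  have h0 : ∀ s, ∃ c : ℚ, 1 ≤ s → (Γ.map (fun γ => γ ^ s)).sum = (c : ℂ) := by
    intro s
    by_cases hs : 1 ≤ s
    · have : NeZero s := ⟨by omega⟩
      have h1 := h (FiniteField.Extension k p s)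
      rw [FiniteField.finrank_extension] at h1
      refine ⟨(Nat.card {P : (Fin 2 → FiniteField.Extension k p s) ×
        FiniteField.Extension k p s // P.2 ^ p - P.2 = MvPolynomial.aeval P.1 f} : ℚ) -
        (Nat.card (FiniteField.Extension k p s) : ℚ) ^ 2, fun _ => ?_⟩
      push_cast
      rw [h1]
      ring
    · exact ⟨0, fun h => absurd h hs⟩
  choose S hS using h0
  exact ⟨S, hS⟩

section filt

variable [DecidableEq ℂ]

theorem card_filter_eq (A B : Multiset ℂ) (h : ∀ x : ℂ, x ≠ 0 → A.count x = B.count x)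
    (P : ℂ → Prop) [DecidablePred P] (hP : ∀ x, P x → x ≠ 0) :
    (A.filter P).card = (B.filter P).card := by
  congr 1
  ext x
  rw [Multiset.count_filter, Multiset.count_filter]
  split_ifs with h1
  · exact h x (hP x h1)
  · rfl

theorem sum_image_le {T : Type} [DecidableEq T] (S : Finset T) (x : T → ℂ) (f : ℂ → ℕ) :
    ∑ y ∈ S.image x, f y ≤ ∑ b ∈ S, f (x b) := by
  induction S using Finset.induction_on with
  | empty => simp
  | insert a s ha ih =>
    rw [Finset.image_insert, Finset.sum_insert ha]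
    by_cases h : x a ∈ s.image x
    · rw [Finset.insert_eq_of_mem h]
      omega
    · rw [Finset.sum_insert h]
      omega

theorem card_filter_le {T : Type} (A : Multiset ℂ) (P : ℂ → Prop) [DecidablePred P]
    (S : Finset T) (x : T → ℂ) (h : ∀ y ∈ A, P y → ∃ b ∈ S, y = x b) :
    (A.filter P).card ≤ ∑ b ∈ S, A.count (x b) := by
  classical
  rw [← Multiset.toFinset_sum_count_eq]
  have h1 : (A.filter P).toFinset ⊆ S.image x := by
    intro y hy
    rw [Multiset.mem_toFinset, Multiset.mem_filter] at hy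
    obtain ⟨b, hb, rfl⟩ := h y hy.1 hy.2
    exact Finset.mem_image_of_mem x hb
  refine (Finset.sum_le_sum fun y _ => Multiset.count_le_of_le y (Multiset.filter_le P A)).trans ?_
  refine (Finset.sum_le_sum_of_subset h1).trans ?_
  exact sum_image_le S x _

end filt

/-- the assumptions over the field of definition of the lines -/
structure Dat (p d : ℕ) {k : Type} [Field k] (A : k) (r : Fin (d - 1 + 1) → k)
    (g : MvPolynomial (Fin 2) k) : Prop where
  hd : 2 ≤ d
  hdp : d ∣ p - 1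
  hpd : 3 * d + 3 < p
  hA : A ≠ 0
  hr : Function.Injective r
  hr0 : ∀ j, r j ≠ 0
  hg : 2 * g.totalDegree < d
  hord : ∀ w, 2 ≤ w → w < d → (hwm p d (C A * ∏ j, (X - C (r j))) w).det ≠ 0

theorem Dat.map {p d : ℕ} {k M : Type} [Field k] [Field M] {A : k} {r : Fin (d - 1 + 1) → k}
    {g : MvPolynomial (Fin 2) k} (h : Dat p d A r g) (φ : k →+* M) :
    Dat p d (φ A) (fun j => φ (r j)) (MvPolynomial.map φ g) where
  hd := h.hd
  hdp := h.hdp
  hpd := h.hpd
  hA := (_root_.map_ne_zero φ).2 h.hA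
  hr := fun i j hij => h.hr (φ.injective hij)
  hr0 := fun j => (_root_.map_ne_zero φ).2 (h.hr0 j)
  hg := by
    have h1 := totalDegree_map_le' φ g
    have h2 := h.hg
    omega
  hord := fun w h2 hw => by
    have h3 := hwm_det_map φ p d _ w (h.hord w h2 hw)
    rw [Polynomial.map_mul, map_C, Polynomial.map_prod] at h3
    simp only [Polynomial.map_sub, map_X, map_C] at h3
    exact h3

theorem map_PPg {k M : Type} [Field k] [Field M] {n : ℕ} (φ : k →+* M) (A : k) (r s : Fin n → k)
    (g : MvPolynomial (Fin 2) k) : MvPolynomial.map φ (PP A r s + g) =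
      PP (φ A) (fun j => φ (r j)) (fun j => φ (s j)) + MvPolynomial.map φ g := by
  rw [map_add, map_PP]

section chi

variable {p : ℕ} [hp : Fact p.Prime] {k : Type} [Field k] [Finite k] [Algebra (ZMod p) k]

/-- the second order matrix over the prime field -/
noncomputable def NP (p : ℕ) [Fact p.Prime] {k : Type} [Field k] [Algebra (ZMod p) k] {n : ℕ}
    (r s : Fin (n + 1) → k) (g : MvPolynomial (Fin 2) k) : Matrix (Fin n) (Fin n) (ZMod p) :=
  red (NM (((n + 1 : ℕ) : ZMod p)⁻¹) (fun i j => Algebra.trace (ZMod p) k (ww r s g i j)))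

theorem chi_NP {n : ℕ} (r s : Fin (n + 1) → k) (g : MvPolynomial (Fin 2) k) :
    chi p r s g = (NP p r s g).charpoly := rfl

theorem NP_ext {M : Type} [Field M] [Finite M] [Algebra k M] [Algebra (ZMod p) M] {n : ℕ}
    (r s : Fin (n + 1) → k) (g : MvPolynomial (Fin 2) k) :
    NP p (fun j => algebraMap k M (r j)) (fun j => algebraMap k M (s j))
      (MvPolynomial.map (algebraMap k M) g) = ((Module.finrank k M : ℕ) : ZMod p) • NP p r s g := by
  have hst : IsScalarTower (ZMod p) k M := IsScalarTower.of_algebraMap_eq' (RingHom.ext_zmod _ _)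
  have htr : ∀ x : k, Algebra.trace (ZMod p) M (algebraMap k M x) =
      ((Module.finrank k M : ℕ) : ZMod p) * Algebra.trace (ZMod p) k x := by
    intro x
    rw [← Algebra.trace_trace (S := k), Algebra.trace_algebraMap, map_nsmul, nsmul_eq_mul]
  ext j i
  rw [Matrix.smul_apply, NP, NP, red, red, smul_eq_mul]
  have h1 : ∀ j i : Fin (n + 1), NM (((n + 1 : ℕ) : ZMod p)⁻¹)
      (fun i j => Algebra.trace (ZMod p) M (ww (fun j => algebraMap k M (r j))
        (fun j => algebraMap k M (s j)) (MvPolynomial.map (algebraMap k M) g) i j)) j i =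
      ((Module.finrank k M : ℕ) : ZMod p) * NM (((n + 1 : ℕ) : ZMod p)⁻¹)
        (fun i j => Algebra.trace (ZMod p) k (ww r s g i j)) j i := by
    intro j i
    simp only [NM]
    by_cases h : j = i
    · rw [if_pos h, if_pos h]
      simp only [← map_ww, htr]
      rw [← Finset.mul_sum]
      ring
    · rw [if_neg h, if_neg h]
      simp only [← map_ww, htr]
      ring
  rw [h1, h1]
  ring

end chi

section bounds

variable {p d : ℕ} [hp : Fact p.Prime] {k : Type} [Field k] [Finite k] [Algebra (ZMod p) k]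
  {A : k} {r : Fin (d - 1 + 1) → k} {g : MvPolynomial (Fin 2) k} [DecidableEq ℂ]

theorem finrank_ext (t : ℕ) [NeZero t] [CharP k p] :
    Module.finrank k (FiniteField.Extension k p t) = t := FiniteField.finrank_extension k p t

/-- the bound for `q`, over an extension of degree `t` -/
theorem stepA (h : Dat p d A r g) (s : Fin (d - 1 + 1) → k) (Γ : Multiset ℂ)
    (hΓ : Sp p (PP A r s + g) Γ) (t : ℕ) (ht : 1 ≤ t) :
    (Γ.filter fun γ => γ ^ t = (Nat.card k : ℂ) ^ t).card ≤
      (p - 1) * (((t : ℕ) : ZMod p) • NP p r s g).charpoly.rootMultiplicity 0 := by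
  have hkp : CharP k p := charP_of_injective_algebraMap (algebraMap (ZMod p) k).injective p
  have : NeZero t := ⟨by omega⟩
  let M := FiniteField.Extension k p t
  have hMp : CharP M p := charP_of_injective_algebraMap (algebraMap k M).injective p
  let : Algebra (ZMod p) M := ZMod.algebra M p
  have hrank : Module.finrank k M = t := finrank_ext t
  have hM := h.map (algebraMap k M)
  obtain ⟨Γ', ζ, hζ, _, h2, h3⟩ := core p d hM.hd hM.hdp hM.hpd (algebraMap k M A) hM.hA
    (fun j => algebraMap k M (r j)) (fun j => algebraMap k M (s j)) hM.hr hM.hr0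
    (MvPolynomial.map (algebraMap k M) g) hM.hg hM.hord
  have h4 := hΓ.map M
  rw [map_PPg, hrank] at h4
  have hcardM : (Nat.card M : ℂ) = (Nat.card k : ℂ) ^ t := by
    rw [Module.natCard_eq_pow_finrank (K := k) (V := M), hrank, Nat.cast_pow]
  have hne : (Nat.card M : ℂ) ≠ 0 := Nat.cast_ne_zero.2 Nat.card_pos.ne'
  have h5 := h4.count_eq (B := ∑ j ∈ Finset.Ico 1 p, Γ' j) h2 (Nat.card M : ℂ) hne
  have h6 : (Γ.filter fun γ => γ ^ t = (Nat.card k : ℂ) ^ t).card =
      (Γ.map fun γ => γ ^ t).count (Nat.card M : ℂ) := by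
    rw [Multiset.count_map, hcardM]
    congr 1
    refine Multiset.filter_congr fun γ _ => ?_
    rw [eq_comm]
  rw [h6, h5, Multiset.count_sum']
  have h7 : ∀ j ∈ Finset.Ico 1 p, (Γ' j).count (Nat.card M : ℂ) ≤
      (((t : ℕ) : ZMod p) • NP p r s g).charpoly.rootMultiplicity 0 := by
    intro j hj
    have h8 := h3 j hj 0
    rw [pow_zero, mul_one, Nat.cast_zero, chi_NP, NP_ext, hrank] at h8
    exact h8
  refine (Finset.sum_le_card_nsmul _ _ _ h7).trans ?_
  rw [Nat.card_Ico, smul_eq_mul]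

theorem stepA_coprime (h : Dat p d A r g) (s : Fin (d - 1 + 1) → k) (Γ : Multiset ℂ)
    (hΓ : Sp p (PP A r s + g) Γ) (t : ℕ) (ht : 1 ≤ t) (hpt : ¬ p ∣ t) :
    (Γ.filter fun γ => γ ^ t = (Nat.card k : ℂ) ^ t).card ≤
      (p - 1) * (NP p r s g).charpoly.rootMultiplicity 0 := by
  have h1 := stepA h s Γ hΓ t ht
  have h2 : ((t : ℕ) : ZMod p) ≠ 0 := by
    intro h0
    exact hpt ((CharP.cast_eq_zero_iff (ZMod p) p t).1 h0)
  have h3 := charpoly_smul (NP p r s g) ((t : ℕ) : ZMod p) h2 0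
  rw [mul_zero] at h3
  rwa [h3] at h1

theorem rootMultiplicity_le_natDegree {F : Type} [Field F] (P : F[X]) (hP : P ≠ 0) (a : F) :
    P.rootMultiplicity a ≤ P.natDegree := by
  classical
  rw [← count_roots]
  exact (Multiset.count_le_card _ _).trans (card_roots' P)

theorem stepA_trivial (h : Dat p d A r g) (s : Fin (d - 1 + 1) → k) (Γ : Multiset ℂ)
    (hΓ : Sp p (PP A r s + g) Γ) (t : ℕ) (ht : 1 ≤ t) :
    (Γ.filter fun γ => γ ^ t = (Nat.card k : ℂ) ^ t).card ≤ (p - 1) * (d - 1) := by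
  refine (stepA h s Γ hΓ t ht).trans (Nat.mul_le_mul_left _ ?_)
  refine (rootMultiplicity_le_natDegree _ (Matrix.charpoly_monic _).ne_zero 0).trans ?_
  rw [Matrix.charpoly_natDegree_eq_dim, Fintype.card_fin]

/-- **roots of unity of order divisible by `p ^ 2` do not occur** -/
theorem claimA (h : Dat p d A r g) (s : Fin (d - 1 + 1) → k) (Γ : Multiset ℂ)
    (hΓ : Sp p (PP A r s + g) Γ) (a : ℕ) (x : ℂ) (hx : x ∈ Γ)
    (hxa : x ^ (p ^ a) = (Nat.card k : ℂ) ^ (p ^ a)) : x ^ p = (Nat.card k : ℂ) ^ p := by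
  have hkp : CharP k p := charP_of_injective_algebraMap (algebraMap (ZMod p) k).injective p
  have hp1 := hp.out.one_lt
  have hd := h.hd
  have hpd := h.hpd
  have hq : (Nat.card k : ℂ) ≠ 0 := Nat.cast_ne_zero.2 Nat.card_pos.ne'
  by_contra hcon
  set η : ℂ := x / (Nat.card k : ℂ) with hη
  have hxη : x = (Nat.card k : ℂ) * η := by rw [hη, mul_div_cancel₀ _ hq]
  have hηpow : ∀ n : ℕ, η ^ n = 1 ↔ x ^ n = (Nat.card k : ℂ) ^ n := by
    intro n
    rw [hη, div_pow, div_eq_one_iff_eq (pow_ne_zero _ hq)]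
  classical
  have hex : ∃ n, η ^ (p ^ n) = 1 := ⟨a, (hηpow _).2 hxa⟩
  set n := Nat.find hex with hn
  have hn1 : η ^ (p ^ n) = 1 := Nat.find_spec hex
  have hmono : ∀ i j, i ≤ j → η ^ (p ^ i) = 1 → η ^ (p ^ j) = 1 := by
    intro i j hij h1
    obtain ⟨c, rfl⟩ := Nat.exists_eq_add_of_le hij
    rw [pow_add, pow_mul, h1, one_pow]
  have hn2 : 2 ≤ n := by
    by_contra hlt
    push Not at hlt
    apply hcon
    have h1 := hmono n 1 (by omega) hn1
    rw [pow_one] at h1
    exact (hηpow p).1 h1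
  obtain ⟨c, hc⟩ : ∃ c, n = c + 1 := ⟨n - 1, by omega⟩
  have hord : orderOf η = p ^ (c + 1) := by
    refine orderOf_eq_prime_pow ?_ (by rw [← hc]; exact hn1)
    exact Nat.find_min hex (by omega)
  have hprim : IsPrimitiveRoot η (p ^ n) := by
    rw [hc, ← hord]
    exact IsPrimitiveRoot.orderOf η
  obtain ⟨S, hS⟩ := hΓ.rat
  have hall : ∀ η' ∈ primitiveRoots (p ^ n) ℂ, (Nat.card k : ℂ) * η' ∈ Γ := by
    intro η' hη'
    have h1 := (mem_primitiveRoots (pow_pos hp.out.pos n)).1 hη'
    have h2 := conj Γ S hS (Nat.card k : ℚ) (pow_pos hp.out.pos n) η η' hprim h1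
    push_cast at h2
    exact h2 (by rw [← hxη]; exact hx)
  have hcard : (primitiveRoots (p ^ n) ℂ).card ≤
      (Γ.filter fun γ => γ ^ (p ^ n) = (Nat.card k : ℂ) ^ (p ^ n)).card := by
    have h1 : (primitiveRoots (p ^ n) ℂ).image (fun η' => (Nat.card k : ℂ) * η') ⊆
        (Γ.filter fun γ => γ ^ (p ^ n) = (Nat.card k : ℂ) ^ (p ^ n)).toFinset := by
      intro y hy
      rw [Finset.mem_image] at hy
      obtain ⟨η', h2, rfl⟩ := hy
      rw [Multiset.mem_toFinset, Multiset.mem_filter]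
      refine ⟨hall η' h2, ?_⟩
      rw [mul_pow, ((mem_primitiveRoots (pow_pos hp.out.pos n)).1 h2).pow_eq_one, mul_one]
    have h2 := Finset.card_le_card h1
    rw [Finset.card_image_of_injective _ (mul_right_injective₀ hq)] at h2
    exact h2.trans (Multiset.toFinset_card_le _)
  rw [hprim.card_primitiveRoots, Nat.totient_prime_pow hp.out (by omega)] at hcard
  have h1 := hcard.trans (stepA_trivial h s Γ hΓ (p ^ n) (Nat.one_le_pow _ _ hp.out.pos))
  have h2 : p ^ 1 ≤ p ^ (n - 1) := Nat.pow_le_pow_right hp.out.pos (by omega)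
  rw [pow_one] at h2
  have h3 : p * (p - 1) ≤ p ^ (n - 1) * (p - 1) := Nat.mul_le_mul_right _ h2
  have h4 : (p - 1) * (d - 1) < p * (p - 1) := by
    rw [mul_comm p]
    exact Nat.mul_lt_mul_of_pos_left (by omega) (by omega)
  omega

theorem card_roots_eq_sum (P : (ZMod p)[X]) : P.roots.card =
    ∑ x : ZMod p, P.rootMultiplicity x := by
  classical
  rw [← Multiset.sum_count_eq_card (s := Finset.univ) (fun a _ => Finset.mem_univ a)]
  exact Finset.sum_congr rfl fun x _ => count_roots P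

theorem sum_range_cast (F : ZMod p → ℕ) : ∑ b ∈ Finset.range p, F (b : ZMod p) = ∑ x, F x := by
  have : NeZero p := ⟨hp.out.ne_zero⟩
  refine Finset.sum_nbij' (fun b => (b : ZMod p)) (fun x => x.val) (fun b _ => Finset.mem_univ _)
    (fun x _ => Finset.mem_range.2 (ZMod.val_lt x)) (fun b hb => ?_) (fun x _ => ?_)
    (fun b _ => rfl)
  · exact ZMod.val_cast_of_lt (Finset.mem_range.1 hb)
  · exact ZMod.natCast_zmod_val x

theorem card_roots_smul {m : Type} [Fintype m] [DecidableEq m] (M : Matrix m m (ZMod p))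
    (c : ZMod p) (hc : c ≠ 0) : (c • M).charpoly.roots.card = M.charpoly.roots.card := by
  rw [card_roots_eq_sum, card_roots_eq_sum]
  rw [← Equiv.sum_comp (Equiv.mulLeft₀ c hc)]
  refine Finset.sum_congr rfl fun y _ => ?_
  exact charpoly_smul M c hc y

/-- **the bound over an arbitrary extension** -/
theorem stepB (h : Dat p d A r g) (s : Fin (d - 1 + 1) → k) (Γ : Multiset ℂ)
    (hΓ : Sp p (PP A r s + g) Γ) (t : ℕ) (ht : 1 ≤ t) :
    (Γ.filter fun γ => γ ^ t = (Nat.card k : ℂ) ^ t).card ≤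
      (p - 1) * (NP p r s g).charpoly.roots.card := by
  have hkp : CharP k p := charP_of_injective_algebraMap (algebraMap (ZMod p) k).injective p
  obtain ⟨a, t', hpt, htt⟩ := Nat.exists_eq_pow_mul_and_not_dvd (n := t) (by omega) p
    hp.out.ne_one
  have ht' : t' ≠ 0 := by
    rintro rfl
    rw [mul_zero] at htt
    omega
  have : NeZero t' := ⟨ht'⟩
  let M := FiniteField.Extension k p t'
  have hMp : CharP M p := charP_of_injective_algebraMap (algebraMap k M).injective p
  let : Algebra (ZMod p) M := ZMod.algebra M p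
  have hrank : Module.finrank k M = t' := finrank_ext t'
  have hM := h.map (algebraMap k M)
  obtain ⟨Γ', ζ, hζ, _, h2, h3⟩ := core p d hM.hd hM.hdp hM.hpd (algebraMap k M A) hM.hA
    (fun j => algebraMap k M (r j)) (fun j => algebraMap k M (s j)) hM.hr hM.hr0
    (MvPolynomial.map (algebraMap k M) g) hM.hg hM.hord
  have h4 := hΓ.map M
  rw [map_PPg, hrank] at h4
  have h2' : Sp p (PP (algebraMap k M A) (fun j => algebraMap k M (r j))
    (fun j => algebraMap k M (s j)) + MvPolynomial.map (algebraMap k M) g)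
    (∑ j ∈ Finset.Ico 1 p, Γ' j) := h2
  have hcardM : (Nat.card M : ℂ) = (Nat.card k : ℂ) ^ t' := by
    rw [Module.natCard_eq_pow_finrank (K := k) (V := M), hrank, Nat.cast_pow]
  have hne : (Nat.card M : ℂ) ≠ 0 := Nat.cast_ne_zero.2 Nat.card_pos.ne'
  have hne2 : ∀ x : ℂ, x ^ (p ^ a) = (Nat.card M : ℂ) ^ (p ^ a) → x ≠ 0 := by
    rintro x hx rfl
    rw [zero_pow (pow_ne_zero _ hp.out.ne_zero)] at hx
    exact pow_ne_zero _ hne hx.symm
  have h6 : (Γ.filter fun γ => γ ^ t = (Nat.card k : ℂ) ^ t).card =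
      ((Γ.map fun γ => γ ^ t').filter fun y => y ^ (p ^ a) = (Nat.card M : ℂ) ^ (p ^ a)).card := by
    rw [Multiset.filter_map, Multiset.card_map]
    congr 1
    refine Multiset.filter_congr fun γ _ => ?_
    rw [Function.comp_apply, hcardM, ← pow_mul, ← pow_mul, htt, mul_comm t']
  rw [h6, card_filter_eq _ _ (fun x hx => h4.count_eq h2' x hx) _ hne2]
  have h7 : ((∑ j ∈ Finset.Ico 1 p, Γ' j).filter fun y =>
      y ^ (p ^ a) = (Nat.card M : ℂ) ^ (p ^ a)).card =
      ∑ j ∈ Finset.Ico 1 p, ((Γ' j).filter fun y =>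
        y ^ (p ^ a) = (Nat.card M : ℂ) ^ (p ^ a)).card := by
    rw [← Multiset.countP_eq_card_filter]
    rw [show (∑ j ∈ Finset.Ico 1 p, Γ' j).countP (fun y =>
      y ^ (p ^ a) = (Nat.card M : ℂ) ^ (p ^ a)) = Multiset.countPAddMonoidHom (fun y : ℂ =>
      y ^ (p ^ a) = (Nat.card M : ℂ) ^ (p ^ a)) (∑ j ∈ Finset.Ico 1 p, Γ' j) from rfl, map_sum]
    refine Finset.sum_congr rfl fun j _ => ?_
    rw [Multiset.coe_countPAddMonoidHom, Multiset.countP_eq_card_filter]
  rw [h7]
  have h8 : ∀ j ∈ Finset.Ico 1 p, ((Γ' j).filter fun y =>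
      y ^ (p ^ a) = (Nat.card M : ℂ) ^ (p ^ a)).card ≤ (NP p r s g).charpoly.roots.card := by
    intro j hj
    have hcop : Nat.Coprime j p := by
      rw [Finset.mem_Ico] at hj
      exact (Nat.coprime_of_lt_prime (by omega) hj.2 hp.out).symm
    have hζj : IsPrimitiveRoot (ζ ^ j) p := hζ.pow_of_coprime j hcop
    refine (card_filter_le (Γ' j) _ (Finset.range p)
      (fun b => (Nat.card M : ℂ) * (ζ ^ j) ^ b) ?_).trans ?_
    · intro y hy hPy
      have hy2 : y ∈ ∑ j ∈ Finset.Ico 1 p, Γ' j := Multiset.mem_sum.2 ⟨j, hj, hy⟩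
      have h9 := claimA hM (fun j => algebraMap k M (s j)) (∑ j ∈ Finset.Ico 1 p, Γ' j) h2' a y
        hy2 hPy
      have h10 : (y / (Nat.card M : ℂ)) ^ p = 1 := by
        rw [div_pow, h9, div_self (pow_ne_zero _ hne)]
      have : NeZero p := ⟨hp.out.ne_zero⟩
      obtain ⟨b, hb, hb2⟩ := hζj.eq_pow_of_pow_eq_one h10
      refine ⟨b, Finset.mem_range.2 hb, ?_⟩
      rw [hb2, mul_div_cancel₀ _ hne]
    · refine (Finset.sum_le_sum fun b _ => h3 j hj b).trans ?_
      rw [sum_range_cast (fun b => (chi p (fun j => algebraMap k M (r j))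
        (fun j => algebraMap k M (s j)) (MvPolynomial.map (algebraMap k M) g)).rootMultiplicity b),
        ← card_roots_eq_sum, chi_NP, NP_ext, hrank]
      refine le_of_eq (card_roots_smul _ _ ?_)
      intro h0
      exact hpt ((CharP.cast_eq_zero_iff (ZMod p) p t').1 h0)
  refine (Finset.sum_le_card_nsmul _ _ _ h8).trans ?_
  rw [Nat.card_Ico, smul_eq_mul]

end bounds

end Pool.Agent.H856.SO
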