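import Pool.Agent.H856.SO.Line

set_option autoImplicit false
set_option linter.unusedSectionVars false
set_option linter.unusedVariables false

/-!
# The forms `dP ∧ dlog ℓ_i` for a product of lines
-/

namespace Pool.Agent.H856.SO

open Pool.Agent.H425 MvPolynomial

variable {p : ℕ} [hp : Fact p.Prime] {B : Type} [CommRing B] {J : Type} [Fintype J] [DecidableEq J]

/-- the product of the lines -/
noncomputable def PP (A : B) (r c : J → B) : MvPolynomial (Fin 2) B := C A * ∏ i, ell (r i) (c i)

/-- the product without one line -/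
noncomputable def QQ (A : B) (r c : J → B) (i : J) : MvPolynomial (Fin 2) B :=
  C A * ∏ j ∈ Finset.univ.erase i, ell (r j) (c j)

/-- the form with the poles at two lines -/
noncomputable def EEm (A : B) (r c : J → B) (i m : J) : MvPolynomial (Fin 2) B :=
  C (A * (r m - r i)) * ∏ j ∈ (Finset.univ.erase i).erase m, ell (r j) (c j)

/-- the form `dP ∧ dlog ℓ_i` -/
noncomputable def VF (A : B) (r c : J → B) (i : J) : MvPolynomial (Fin 2) B :=
  ∑ m ∈ Finset.univ.erase i, EEm A r c i m

/-- the derivation along the line `i` -/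
noncomputable def dd (r : B) : Derivation B (MvPolynomial (Fin 2) B) (MvPolynomial (Fin 2) B) :=
  r • pderiv 0 + pderiv 1

theorem dd_apply (r : B) (F : MvPolynomial (Fin 2) B) :
    dd r F = C r * pderiv 0 F + pderiv 1 F := by
  rw [dd, Derivation.add_apply, Derivation.smul_apply, smul_eq_C_mul]

theorem dd_ell (r r' c : B) : dd r (ell r' c) = C (r - r') := by
  rw [dd_apply, ell, map_sub, map_sub, map_sub, map_sub, pderiv_C, pderiv_C, pderiv_C_mul,
    pderiv_C_mul, pderiv_X_self, pderiv_X_self, pderiv_X_of_ne (by decide),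
    pderiv_X_of_ne (by decide), C_sub]
  ring

theorem leib {T : Type} [DecidableEq T] (D : Derivation B (MvPolynomial (Fin 2) B) (MvPolynomial (Fin 2) B))
    (s : Finset T) (F : T → MvPolynomial (Fin 2) B) :
    D (∏ j ∈ s, F j) = ∑ m ∈ s, D (F m) * ∏ j ∈ s.erase m, F j := by
  induction s using Finset.induction_on with
  | empty => rw [Finset.prod_empty, Finset.sum_empty, Derivation.map_one_eq_zero]
  | insert a s ha ih =>
    rw [Finset.prod_insert ha, Derivation.leibniz, ih, Finset.sum_insert ha,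
      Finset.erase_insert ha, smul_eq_mul, smul_eq_mul, Finset.mul_sum, add_comm]
    congr 1
    · ring
    · refine Finset.sum_congr rfl fun m hm => ?_
      have hma : a ≠ m := fun h => ha (h ▸ hm)
      rw [Finset.erase_insert_of_ne hma, Finset.prod_insert]
      · ring
      · intro h
        exact ha (Finset.mem_of_mem_erase h)

theorem PP_eq (A : B) (r c : J → B) (i : J) : PP A r c = ell (r i) (c i) * QQ A r c i := by
  rw [PP, QQ, ← Finset.mul_prod_erase Finset.univ _ (Finset.mem_univ i)]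
  ring

theorem VF_eq (A : B) (r c : J → B) (i : J) : VF A r c i = -dd (r i) (QQ A r c i) := by
  rw [QQ, Derivation.leibniz, leib, smul_eq_mul, smul_eq_mul]
  have h1 : dd (r i) (C A) = 0 := by
    rw [dd_apply, pderiv_C, pderiv_C]; ring
  rw [h1, mul_zero, add_zero, Finset.mul_sum, ← Finset.sum_neg_distrib, VF]
  refine Finset.sum_congr rfl fun m _ => ?_
  rw [dd_ell, EEm, C_mul, C_sub, C_sub]
  ring

theorem dd_pow (A : B) (r c : J → B) (i : J) (a : ℕ) :
    ((a + 1 : ℕ) : MvPolynomial (Fin 2) B) * (PP A r c ^ a * VF A r c i) =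
      -dd (r i) (PP A r c ^ a * QQ A r c i) := by
  have h1 : dd (r i) (PP A r c) = ell (r i) (c i) * dd (r i) (QQ A r c i) := by
    rw [PP_eq A r c i, Derivation.leibniz, dd_ell, sub_self, C_0, smul_zero, add_zero, smul_eq_mul]
  rw [VF_eq, Derivation.leibniz, Derivation.leibniz_pow, h1, smul_eq_mul, smul_eq_mul]
  simp only [smul_eq_mul, nsmul_eq_mul]
  cases a with
  | zero => simp
  | succ a =>
    have h2 := PP_eq A r c i
    rw [Nat.add_sub_cancel]
    push_cast
    linear_combination (-(((a : MvPolynomial (Fin 2) B) + 1) * PP A r c ^ a *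
      dd (r i) (QQ A r c i))) * h2

theorem psi2_dd [CharP B p] (r : B) (F : MvPolynomial (Fin 2) B) : psi2 p (dd r F) = 0 := by
  rw [dd_apply, psi2_add, psi2_C_mul, psi2_pderiv, psi2_pderiv, mul_zero, add_zero]

/-- **the forms are killed by the small powers** -/
theorem C1 [CharP B p] (A : B) (r c : J → B) (i : J) (a : ℕ) (ha : IsUnit ((a + 1 : ℕ) : B)) :
    psi2 p (PP A r c ^ a * VF A r c i) = 0 := by
  have h1 := congrArg (psi2 p) (dd_pow A r c i a)
  rw [psi2_neg, psi2_dd, neg_zero] at h1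
  have h2 : ((a + 1 : ℕ) : MvPolynomial (Fin 2) B) = C ((a + 1 : ℕ) : B) := (map_natCast C _).symm
  rw [h2, psi2_C_mul] at h1
  obtain ⟨u, hu⟩ := ha
  have h3 := congrArg (fun x => C (↑u⁻¹ : B) * x) h1
  simp only [mul_zero] at h3
  rw [← mul_assoc, ← C_mul, ← hu, Units.inv_mul, C_1, one_mul] at h3
  exact h3

/-- **the forms and the power `p - 1`** -/
theorem C3 [CharP B p] (A : B) (r c : J → B) (i : J) (hu : ∀ m, m ≠ i → IsUnit (r m - r i))
    (x y : J → B) (h1 : ∀ m, m ≠ i → x m - r m * y m - c m = 0)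
    (h2 : ∀ m, m ≠ i → x m - r i * y m - c i = 0) (g : MvPolynomial (Fin 2) B)
    (hg : g.totalDegree ≤ p - 1) :
    psi2 p (PP A r c ^ (p - 1) * (g * VF A r c i)) =
      ∑ m ∈ Finset.univ.erase i, C (eval ![x m, y m] g) *
        EEm (A ^ p) (fun j => r j ^ p) (fun j => c j ^ p) i m := by
  have hp1 := hp.out.one_lt
  rw [VF, Finset.mul_sum, Finset.mul_sum, psi2_sum]
  refine Finset.sum_congr rfl fun m hm => ?_
  have hmi : m ≠ i := Finset.ne_of_mem_erase hm
  have e1 : PP A r c = C A * ((ell (r m) (c m) * ell (r i) (c i)) *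
      ∏ j ∈ (Finset.univ.erase i).erase m, ell (r j) (c j)) := by
    rw [PP, ← Finset.mul_prod_erase Finset.univ _ (Finset.mem_univ i),
      ← Finset.mul_prod_erase (Finset.univ.erase i) _ hm]
    ring
  set F := ∏ j ∈ (Finset.univ.erase i).erase m, ell (r j) (c j) with hF
  have e3 : ∀ z : MvPolynomial (Fin 2) B, z ^ p = z ^ (p - 1) * z := by
    intro z
    rw [← pow_succ, Nat.sub_add_cancel hp1.le]
  have e4 : F ^ p = expand p (∏ j ∈ (Finset.univ.erase i).erase m, ell (r j ^ p) (c j ^ p)) := by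
    rw [hF, ← Finset.prod_pow, map_prod]
    exact Finset.prod_congr rfl fun j _ => ell_pow _ _
  have e5 : PP A r c ^ (p - 1) * (g * EEm A r c i m) =
      C (A ^ p) * (C (r m - r i) * (expand p (∏ j ∈ (Finset.univ.erase i).erase m,
        ell (r j ^ p) (c j ^ p)) * ((ell (r m) (c m) * ell (r i) (c i)) ^ (p - 1) * g))) := by
    rw [← e4, e3 F, e1, EEm, ← hF, C_mul]
    have e6 : (C (A ^ p) : MvPolynomial (Fin 2) B) = C A ^ (p - 1) * C A := by
      rw [C_pow, e3]
    rw [e6]
    ring
  rw [e5, psi2_C_mul, psi2_C_mul, psi2_expand, key_eval (r m) (c m) (r i) (c i) (hu m hmi) (x m)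
    (y m) (h1 m hmi) (h2 m hmi) g hg, EEm]
  have e7 := key_one (p := p) (r m) (c m) (r i) (c i)
  rw [C_mul (a := A ^ p), ← e7]
  ring

theorem C2 [CharP B p] (A : B) (r c : J → B) (i : J) (hu : ∀ m, m ≠ i → IsUnit (r m - r i))
    (x y : J → B) (h1 : ∀ m, m ≠ i → x m - r m * y m - c m = 0)
    (h2 : ∀ m, m ≠ i → x m - r i * y m - c i = 0) :
    psi2 p (PP A r c ^ (p - 1) * VF A r c i) =
      VF (A ^ p) (fun j => r j ^ p) (fun j => c j ^ p) i := by
  have h3 := C3 (p := p) A r c i hu x y h1 h2 1 (by rw [totalDegree_one]; omega)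
  rw [one_mul] at h3
  rw [h3, VF]
  refine Finset.sum_congr rfl fun m _ => ?_
  rw [map_one, C_1, one_mul]

theorem PP_deg (A : B) (r c : J → B) : (PP A r c).totalDegree ≤ Fintype.card J := by
  have := deg_C_mul A (deg_prod Finset.univ (fun i => ell (r i) (c i)) (fun i _ => ell_deg _ _))
  rwa [mul_one, Finset.card_univ] at this

theorem EEm_deg (A : B) (r c : J → B) (i m : J) (h : m ≠ i) :
    (EEm A r c i m).totalDegree ≤ Fintype.card J - 2 := by
  have := deg_C_mul (A * (r m - r i)) (deg_prod ((Finset.univ.erase i).erase m)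
    (fun i => ell (r i) (c i)) (fun i _ => ell_deg _ _))
  rw [mul_one, Finset.card_erase_of_mem (Finset.mem_erase.2 ⟨h, Finset.mem_univ _⟩),
    Finset.card_erase_of_mem (Finset.mem_univ i), Finset.card_univ] at this
  have h2 : Fintype.card J - 1 - 1 = Fintype.card J - 2 := by omega
  rw [h2] at this
  exact this

theorem VF_deg (A : B) (r c : J → B) (i : J) : (VF A r c i).totalDegree ≤ Fintype.card J - 2 :=
  totalDegree_finsetSum_le fun m hm => EEm_deg A r c i m (Finset.ne_of_mem_erase hm)

end Pool.Agent.H856.SO
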