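import Pool.Agent.H856.DW.Grow

set_option autoImplicit false
set_option linter.unusedSectionVars false
set_option linter.unusedVariables false

/-!
# The second order expansion of the products of Dwork's splitting functions
-/

namespace Pool.Agent.H856.SO

open Pool.Agent.H425

section gen

variable {p : ℕ} {A : Type} [CommRing A] {T : Type} [DecidableEq T]

/-- the truncated exponential -/
noncomputable def phi (p : ℕ) (h : ℕ → A) (a : A) : Polynomial A :=
  ∑ j ∈ Finset.range p, Polynomial.monomial j (h j * a ^ j)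

theorem coeff_phi (h : ℕ → A) (a : A) (i : ℕ) :
    (phi p h a).coeff i = if i < p then h i * a ^ i else 0 := by
  rw [phi, Polynomial.finsetSum_coeff]
  simp only [Polynomial.coeff_monomial]
  rw [Finset.sum_ite_eq']
  simp only [Finset.mem_range]

/-- the coefficients of the product -/
noncomputable def Dm (p : ℕ) (h : ℕ → A) (a : T → A) (s : Finset T) (m : ℕ) : A :=
  (∏ u ∈ s, phi p h (a u)).coeff m

theorem Dm_insert (h : ℕ → A) (a : T → A) (s : Finset T) (u : T) (hu : u ∉ s) (m : ℕ) :
    Dm p h a (insert u s) m = ∑ x ∈ Finset.HasAntidiagonal.antidiagonal m,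
      (if x.1 < p then h x.1 * a u ^ x.1 else 0) * Dm p h a s x.2 := by
  rw [Dm, Finset.prod_insert hu, Polynomial.coeff_mul]
  refine Finset.sum_congr rfl fun x _ => ?_
  rw [coeff_phi, Dm]

theorem Dm_empty (h : ℕ → A) (a : T → A) (m : ℕ) :
    Dm p h a (∅ : Finset T) m = if m = 0 then 1 else 0 := by
  rw [Dm, Finset.prod_empty, Polynomial.coeff_one]

theorem Dm_small (h : ℕ → A) (hh : ∀ j, j < p → (j.factorial : A) * h j = 1) (a : T → A)
    (s : Finset T) (m : ℕ) (hm : m < p) :
    (m.factorial : A) * Dm p h a s m = (∑ u ∈ s, a u) ^ m := by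
  induction s using Finset.induction_on generalizing m with
  | empty =>
    rw [Dm_empty, Finset.sum_empty]
    split_ifs with h0
    · subst h0; simp
    · rw [mul_zero, zero_pow h0]
  | insert u s hu ih =>
    rw [Dm_insert _ _ _ _ hu, Finset.sum_insert hu, (Commute.all _ _).add_pow', Finset.mul_sum]
    refine Finset.sum_congr rfl fun x hx => ?_
    rw [Finset.HasAntidiagonal.mem_antidiagonal] at hx
    have h1 := ih x.2 (by omega)
    have h2 := hh x.1 (by omega)
    have h3 : ((m.choose x.1 : ℕ) : A) * (x.1.factorial : ℕ) * (x.2.factorial : ℕ) =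
        ((m.factorial : ℕ) : A) := by
      have := Nat.choose_mul_factorial_mul_factorial (n := m) (k := x.1) (by omega)
      have h4 : m - x.1 = x.2 := by omega
      rw [h4] at this
      exact_mod_cast congrArg (Nat.cast (R := A)) this
    rw [if_pos (by omega), nsmul_eq_mul, ← h1, ← h3]
    linear_combination ((m.choose x.1 : ℕ) : A) * (x.2.factorial : ℕ) * a u ^ x.1 *
      Dm p h a s x.2 * h2

theorem Dm_p (hp0 : 0 < p) (h : ℕ → A) (hh : ∀ j, j < p → (j.factorial : A) * h j = 1) (a : T → A)
    (s : Finset T) :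
    (p.factorial : A) * Dm p h a s p = (∑ u ∈ s, a u) ^ p - ∑ u ∈ s, a u ^ p := by
  induction s using Finset.induction_on with
  | empty =>
    rw [Dm_empty, Finset.sum_empty, Finset.sum_empty, if_neg hp0.ne', mul_zero, zero_pow hp0.ne',
      sub_zero]
  | insert u s hu ih =>
    rw [Dm_insert _ _ _ _ hu, Finset.sum_insert hu, Finset.sum_insert hu,
      (Commute.all _ _).add_pow', Finset.mul_sum]
    have hm1 : (0, p) ∈ Finset.HasAntidiagonal.antidiagonal p := by rw [Finset.HasAntidiagonal.mem_antidiagonal, zero_add]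
    have hm2 : (p, 0) ∈ (Finset.HasAntidiagonal.antidiagonal p).erase (0, p) := by
      rw [Finset.mem_erase, Finset.HasAntidiagonal.mem_antidiagonal]
      refine ⟨?_, by rw [add_zero]⟩
      intro h'
      rw [Prod.mk.injEq] at h'
      exact hp0.ne' h'.1
    rw [← Finset.add_sum_erase _ _ hm1, ← Finset.add_sum_erase _ _ hm2,
      ← Finset.add_sum_erase (Finset.HasAntidiagonal.antidiagonal p) (fun x => p.choose x.1 •
        (a u ^ x.1 * (∑ u ∈ s, a u) ^ x.2)) hm1, ← Finset.add_sum_erase
        ((Finset.HasAntidiagonal.antidiagonal p).erase (0, p)) (fun x => p.choose x.1 •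
        (a u ^ x.1 * (∑ u ∈ s, a u) ^ x.2)) hm2]
    have h0 : h 0 = 1 := by
      have := hh 0 hp0
      simpa using this
    have hrest : ∑ x ∈ ((Finset.HasAntidiagonal.antidiagonal p).erase (0, p)).erase (p, 0),
        (p.factorial : A) * ((if x.1 < p then h x.1 * a u ^ x.1 else 0) * Dm p h a s x.2) =
        ∑ x ∈ ((Finset.HasAntidiagonal.antidiagonal p).erase (0, p)).erase (p, 0), p.choose x.1 •
        (a u ^ x.1 * (∑ u ∈ s, a u) ^ x.2) := by
      refine Finset.sum_congr rfl fun x hx => ?_
      rw [Finset.mem_erase, Finset.mem_erase, Finset.HasAntidiagonal.mem_antidiagonal] at hx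
      obtain ⟨hx1, hx2, hx3⟩ := hx
      have hx4 : x.1 ≠ 0 := by
        intro h'
        apply hx2
        ext
        · exact h'
        · change x.2 = p
          omega
      have hx5 : x.2 ≠ 0 := by
        intro h'
        apply hx1
        ext
        · change x.1 = p
          omega
        · exact h'
      have h1 := Dm_small h hh a s x.2 (by omega)
      have h2 := hh x.1 (by omega)
      have h3 : ((p.choose x.1 : ℕ) : A) * (x.1.factorial : ℕ) * (x.2.factorial : ℕ) =
          ((p.factorial : ℕ) : A) := by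
        have := Nat.choose_mul_factorial_mul_factorial (n := p) (k := x.1) (by omega)
        have h4 : p - x.1 = x.2 := by omega
        rw [h4] at this
        exact_mod_cast congrArg (Nat.cast (R := A)) this
      rw [if_pos (by omega), nsmul_eq_mul, ← h1, ← h3]
      linear_combination ((p.choose x.1 : ℕ) : A) * (x.2.factorial : ℕ) * a u ^ x.1 *
        Dm p h a s x.2 * h2
    rw [hrest]
    simp only [if_pos hp0, h0, lt_irrefl, if_false, Nat.choose_zero_right, Nat.choose_self,
      pow_zero, one_smul, mul_one, one_mul, zero_mul, mul_zero, zero_add]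
    rw [ih]
    ring

theorem eval_prod_phi (h : ℕ → A) (a : T → A) (s : Finset T) (M : ℕ)
    (hM : (∏ u ∈ s, phi p h (a u)).natDegree < M) :
    ∏ u ∈ s, (phi p h (a u)).eval 1 = ∑ m ∈ Finset.range M, Dm p h a s m := by
  rw [← Polynomial.eval_prod, Polynomial.eval_eq_sum_range' hM]
  refine Finset.sum_congr rfl fun m _ => ?_
  rw [one_pow, mul_one, Dm]

end gen

open MvPolynomial

namespace S0

variable {p d : ℕ} [hp : Fact p.Prime] {K R : Type} [Field K] [CommRing R] [IsDomain R]
  (S : Setup p d K R) {ι : Type}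

/-- inverses of the factorials -/
noncomputable def hf (R : Type) [CommRing R] (j : ℕ) : R := Ring.inverse ((j.factorial : ℕ) : R)

include S in
theorem hf_spec (j : ℕ) (hj : j < p) : ((j.factorial : ℕ) : R) * hf R j = 1 := by
  have h : IsUnit ((j.factorial : ℕ) : R) := by
    refine S.isUnit_nat ?_
    rw [hp.out.dvd_factorial]
    omega
  exact Ring.mul_inverse_cancel _ h

/-- the scaled monomials -/
noncomputable def mnl (c : (ι →₀ ℕ) → R) (u : ι →₀ ℕ) : MvPolynomial ι R :=
  monomial u (c u * S.lam ^ (d - u.degree))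

/-- agreement to the second order -/
def Sc (F : MvPowerSeries ι R) (G : MvPolynomial ι R) : Prop :=
  ∀ w : ι →₀ ℕ, w.degree < p * d → S.lam ^ (w.degree + d + 1) ∣
    MvPowerSeries.coeff w F - S.lam ^ w.degree * coeff w G

theorem Sc_mul {F F' : MvPowerSeries ι R} {G G' : MvPolynomial ι R} (h : Sc S F G)
    (h' : Sc S F' G') : Sc S (F * F') (G * G') := by
  classical
  intro w hw
  rw [MvPowerSeries.coeff_mul, MvPolynomial.coeff_mul, Finset.mul_sum, ← Finset.sum_sub_distrib]
  refine Finset.dvd_sum fun x hx => ?_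
  rw [Finset.HasAntidiagonal.mem_antidiagonal] at hx
  have hd : x.1.degree + x.2.degree = w.degree := by rw [← map_add, hx]
  obtain ⟨q1, h1⟩ := h x.1 (by omega)
  obtain ⟨q2, h2⟩ := h' x.2 (by omega)
  have e1 : MvPowerSeries.coeff x.1 F = S.lam ^ x.1.degree * (coeff x.1 G + S.lam ^ (d + 1) * q1) := by
    rw [add_assoc, pow_add] at h1
    linear_combination h1
  have e2 : MvPowerSeries.coeff x.2 F' = S.lam ^ x.2.degree * (coeff x.2 G' + S.lam ^ (d + 1) * q2) := by
    rw [add_assoc, pow_add] at h2
    linear_combination h2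
  refine ⟨q1 * coeff x.2 G' + coeff x.1 G * q2 + S.lam ^ (d + 1) * q1 * q2, ?_⟩
  rw [e1, e2, ← hd, add_assoc, pow_add, pow_add _ x.1.degree]
  ring

theorem Sc_one : Sc S (1 : MvPowerSeries ι R) (1 : MvPolynomial ι R) := by
  classical
  intro w _
  rw [MvPowerSeries.coeff_one, MvPolynomial.coeff_one]
  by_cases h : w = 0
  · subst h
    simp
  · rw [if_neg h, if_neg (Ne.symm h)]
    simp

theorem coeff_mono_pow (s : ι →₀ ℕ) (a : R) (j : ℕ) (w : ι →₀ ℕ) :
    coeff w (monomial s a ^ j) = open Classical in if j • s = w then a ^ j else 0 := by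
  classical
  rw [monomial_pow, coeff_monomial]

theorem coeff_evphi (s : ι →₀ ℕ) (a : R) (w : ι →₀ ℕ) :
    coeff w ((phi p (fun j => C (hf R j)) (monomial s a)).eval 1) =
      open Classical in ∑ j ∈ Finset.range p, hf R j * (if j • s = w then a ^ j else 0) := by
  classical
  rw [phi, Polynomial.eval_finsetSum, coeff_sum]
  refine Finset.sum_congr rfl fun j _ => ?_
  rw [Polynomial.eval_monomial, one_pow, mul_one, coeff_C_mul, coeff_mono_pow]

theorem Sc_Fs (hd : 0 < d) (hpd : 3 * d + 3 < p) (c : (ι →₀ ℕ) → R) (s : ι →₀ ℕ) (hs0 : s ≠ 0)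
    (hs : s.degree ≤ d) :
    Sc S (S.Fs s (c s)) ((phi p (fun j => C (hf R j)) (mnl S c s)).eval 1) := by
  classical
  intro w hw
  rw [mnl, coeff_evphi]
  by_cases h : ∃ j : ℕ, j • s = w
  · obtain ⟨j, rfl⟩ := h
    have hdeg : (j • s).degree = j * s.degree := by rw [map_nsmul, smul_eq_mul]
    have hinj : ∀ i, i • s = j • s ↔ i = j := by
      intro i
      constructor
      · intro h; exact Pool.Agent.H425.smul_inj hs0 h
      · rintro rfl; rfl
    simp only [hinj]
    rw [S.coeff_Fs s hs0]
    by_cases hj : j < p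
    · rw [Finset.sum_eq_single j]
      · rw [if_pos rfl]
        have h1 := S.th_small j hj
        have h2 := hf_spec S j hj
        have h3 : S.th j = S.lam ^ (d * j) * hf R j := by
          have h4 : S.lam ^ (d * j) = S.pi ^ j := by rw [Setup.pi, ← pow_mul]
          rw [h4, ← h1]
          linear_combination (-S.th j) * h2
        have h5 : S.lam ^ (d * j) = S.lam ^ (j * s.degree) * (S.lam ^ (d - s.degree)) ^ j := by
          rw [← pow_mul, ← pow_add]
          congr 1
          have : d = s.degree + (d - s.degree) := by omega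
          conv_lhs => rw [this]
          ring
        have h6 : S.th j * c s ^ j - S.lam ^ (j • s).degree *
            (hf R j * (c s * S.lam ^ (d - s.degree)) ^ j) = 0 := by
          rw [h3, hdeg, h5, mul_pow]
          ring
        rw [h6]
        exact dvd_zero _
      · intro i _ hi
        rw [if_neg hi, mul_zero]
      · intro hn
        exact absurd (Finset.mem_range.2 hj) hn
    · push Not at hj
      rw [Finset.sum_eq_zero, mul_zero, sub_zero]
      · refine Dvd.dvd.mul_right ((pow_dvd_pow _ ?_).trans (S.th_dvd j)) _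
        rw [hdeg] at hw ⊢
        have hsd : s.degree < d := by
          by_contra hcon
          push Not at hcon
          have h1 : p * d ≤ j * s.degree := Nat.mul_le_mul hj hcon
          omega
        unfold ce
        have hk0 : 2 * j / p * p ≤ 2 * j := Nat.div_mul_le_self _ _
        have hk1 : 2 * j / p ≤ j := by
          refine Nat.div_le_of_le_mul ?_
          nlinarith
        set k := 2 * j / p with hk
        have h2 : j * s.degree + j ≤ d * j := by
          have : s.degree + 1 ≤ d := hsd
          nlinarith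
        have h3 : d * (j - k) + d * k = d * j := by
          rw [← mul_add, Nat.sub_add_cancel hk1]
        have h4 : d * k + d + 1 ≤ j := by
          -- multiply by `p`
          have h5 : p * (d * k + d + 1) ≤ p * j := by
            obtain ⟨r, hr⟩ : ∃ r, p = 2 * d + (d + 1) + r := ⟨p - (2 * d + (d + 1)), by omega⟩
            have h6 : p * (d * k) ≤ 2 * d * j := by nlinarith
            have h7 : p * (d + 1) ≤ (d + 1) * j := by nlinarith
            have h8 : 2 * d * j + (d + 1) * j ≤ p * j := by
              rw [← add_mul]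
              exact Nat.mul_le_mul_right _ (by omega)
            nlinarith
          exact Nat.le_of_mul_le_mul_left h5 hp.out.pos
        omega
      · intro i hi
        rw [Finset.mem_range] at hi
        rw [if_neg (by omega), mul_zero]
  · push Not at h
    rw [S.coeff_Fs_ne s _ w h, Finset.sum_eq_zero]
    · simp
    · intro i _
      rw [if_neg (h i), mul_zero]

theorem Sc_FF (hd : 0 < d) (hpd : 3 * d + 3 < p) (c : (ι →₀ ℕ) → R) (supp : Finset (ι →₀ ℕ))
    (h0 : 0 ∉ supp) (hs : ∀ s ∈ supp, s.degree ≤ d) :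
    Sc S (S.FF supp c) (∏ s ∈ supp, (phi p (fun j => C (hf R j)) (mnl S c s)).eval 1) := by
  classical
  rw [Setup.FF]
  induction supp using Finset.induction_on with
  | empty =>
    rw [Finset.prod_empty, Finset.prod_empty]
    exact Sc_one S
  | insert s T hsT ih =>
    rw [Finset.prod_insert hsT, Finset.prod_insert hsT]
    refine Sc_mul S (Sc_Fs S hd hpd c s (fun h => h0 (h ▸ Finset.mem_insert_self s T))
      (hs s (Finset.mem_insert_self s T))) (ih (fun h => h0 (Finset.mem_insert_of_mem h))
      (fun s hs' => hs s (Finset.mem_insert_of_mem hs')))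

/-- divisibility of the coefficients by the complement of the degree -/
def Hg (M : ℕ) (P : MvPolynomial ι R) : Prop := ∀ w : ι →₀ ℕ, S.lam ^ (M - w.degree) ∣ coeff w P

theorem Hg_mul {M M' : ℕ} {P P' : MvPolynomial ι R} (h : Hg S M P) (h' : Hg S M' P') :
    Hg S (M + M') (P * P') := by
  classical
  intro w
  rw [MvPolynomial.coeff_mul]
  refine Finset.dvd_sum fun x hx => ?_
  rw [Finset.HasAntidiagonal.mem_antidiagonal] at hx
  have hd : x.1.degree + x.2.degree = w.degree := by rw [← map_add, hx]
  have h1 := mul_dvd_mul (h x.1) (h' x.2)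
  rw [← pow_add] at h1
  exact (pow_dvd_pow _ (by omega)).trans h1

theorem Hg_Dm (c : (ι →₀ ℕ) → R) (supp : Finset (ι →₀ ℕ)) (hs : ∀ s ∈ supp, s.degree ≤ d) (m : ℕ) :
    Hg S (d * m) (Dm p (fun j => C (hf R j)) (mnl S c) supp m) := by
  classical
  induction supp using Finset.induction_on generalizing m with
  | empty =>
    rw [Dm_empty]
    split_ifs with h
    · subst h
      intro w
      rw [mul_zero, Nat.zero_sub, pow_zero]
      exact one_dvd _
    · intro w
      rw [coeff_zero]
      exact dvd_zero _
  | insert s T hsT ih =>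
    rw [Dm_insert _ _ _ _ hsT]
    intro w
    rw [coeff_sum]
    refine Finset.dvd_sum fun x hx => ?_
    rw [Finset.HasAntidiagonal.mem_antidiagonal] at hx
    have h1 := ih (fun s hs' => hs s (Finset.mem_insert_of_mem hs')) x.2
    have h2 : Hg S (d * x.1) (if x.1 < p then C (hf R x.1) * mnl S c s ^ x.1 else 0) := by
      intro v
      split_ifs with hx1
      · rw [coeff_C_mul, mnl, coeff_mono_pow]
        split_ifs with hv
        · refine Dvd.dvd.mul_left ?_ _
          rw [mul_pow, ← pow_mul, ← hv, map_nsmul, smul_eq_mul]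
          refine Dvd.dvd.mul_left (pow_dvd_pow _ ?_) _
          have := hs s (Finset.mem_insert_self s T)
          rw [Nat.sub_mul, mul_comm x.1]
        · rw [mul_zero]; exact dvd_zero _
      · rw [coeff_zero]; exact dvd_zero _
    have h3 := Hg_mul S h2 h1 w
    rw [← mul_add, hx] at h3
    exact h3

/-- **the second order expansion** -/
theorem FF_second (hd : 0 < d) (hpd : 3 * d + 3 < p) (c : (ι →₀ ℕ) → R) (supp : Finset (ι →₀ ℕ))
    (h0 : 0 ∉ supp) (hs : ∀ s ∈ supp, s.degree ≤ d) (w : ι →₀ ℕ) (hw : w.degree < p * d) :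
    ∃ z : R, MvPowerSeries.coeff w (S.FF supp c) = S.lam ^ w.degree * z ∧
      S.lam ^ (d + 1) ∣ z - coeff w (∑ m ∈ Finset.range (p + 1),
        Dm p (fun j => C (hf R j)) (mnl S c) supp m) := by
  classical
  have h1 := Sc_FF S hd hpd c supp h0 hs w hw
  set M := max ((∏ u ∈ supp, phi p (fun j => C (hf R j)) (mnl S c u)).natDegree + 1) (p + 1) with hM
  rw [eval_prod_phi _ _ _ M (lt_of_lt_of_le (Nat.lt_succ_self _) (le_max_left _ _))] at h1
  have h2 : p + 1 ≤ M := le_max_right _ _
  rw [← Finset.sum_range_add_sum_Ico _ h2, coeff_add] at h1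
  have h3 : S.lam ^ (d + 1) ∣ coeff w (∑ m ∈ Finset.Ico (p + 1) M,
      Dm p (fun j => C (hf R j)) (mnl S c) supp m) := by
    rw [coeff_sum]
    refine Finset.dvd_sum fun m hm => ?_
    rw [Finset.mem_Ico] at hm
    refine (pow_dvd_pow _ ?_).trans (Hg_Dm S c supp hs m w)
    have h4 : d * (p + 1) ≤ d * m := Nat.mul_le_mul_left _ hm.1
    have h5 : d * (p + 1) = p * d + d := by ring
    omega
  obtain ⟨q, hq⟩ := h1
  obtain ⟨q', hq'⟩ := h3
  rw [hq'] at hq
  refine ⟨coeff w (∑ m ∈ Finset.range (p + 1), Dm p (fun j => C (hf R j)) (mnl S c) supp m) +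
    S.lam ^ (d + 1) * (q + q'), ?_, ?_⟩
  · rw [add_assoc, pow_add] at hq
    linear_combination hq
  · exact ⟨q + q', by ring⟩

end S0

end Pool.Agent.H856.SO
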