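import Pool.Agent.H856.SO.PPow
import Pool.Agent.H856.SO.Ser

set_option autoImplicit false
set_option linter.unusedSectionVars false
set_option linter.unusedVariables false

/-!
# The truncated ring and homogenization
-/

namespace Pool.Agent.H856.SO

open Pool.Agent.H425 MvPolynomial

namespace S0

variable {p d : ℕ} [hp : Fact p.Prime] {K R : Type} [Field K] [CommRing R] [IsDomain R]
  (S : Setup p d K R)

theorem p_zero {N : ℕ} (hN : N ≤ d * (p - 1)) : (p : S.Q N) = 0 := by
  have h : S.rd N (p : R) = 0 := by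
    rw [S.rd_eq_zero]
    have h1 : (p : R) = S.lam ^ (d * (p - 1)) * (-1) := by rw [S.lam_pow]; ring
    rw [h1]
    exact Dvd.dvd.mul_right (pow_dvd_pow _ hN) _
  rw [map_natCast] at h
  exact h

theorem charP_Q {N : ℕ} (hN : N ≤ d * (p - 1)) (hN1 : 1 ≤ N) : CharP (S.Q N) p := by
  have hnt : Nontrivial (S.Q N) := by
    refine ⟨⟨0, 1, fun h => ?_⟩⟩
    have h1 : S.rho N hN1 0 = S.rho N hN1 1 := by rw [h]
    rw [map_zero, map_one] at h1
    exact zero_ne_one h1
  refine ⟨fun x => ⟨fun h => ?_, fun h => ?_⟩⟩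
  · by_contra hcon
    have hco : Nat.Coprime p x := (Nat.Prime.coprime_iff_not_dvd hp.out).2 hcon
    have h1 := Nat.isCoprime_iff_coprime.2 hco
    obtain ⟨a, b, hab⟩ := h1
    have h2 := congrArg (Int.cast (R := S.Q N)) hab
    push_cast at h2
    rw [p_zero S hN, h, mul_zero, mul_zero, add_zero] at h2
    exact zero_ne_one h2
  · obtain ⟨c, rfl⟩ := h
    rw [Nat.cast_mul, p_zero S hN, zero_mul]

/-- the Teichmüller lift, modulo a power of `λ` -/
noncomputable def sg [CharP K p] [IsAlgClosed K] (hpd : 3 * d + 3 < p) (hd : 0 < d) :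
    K →+* S.Q (d + 1) where
  toFun a := S.rd (d + 1) (S.tau a)
  map_one' := by rw [map_one, map_one]
  map_mul' a b := by rw [map_mul, map_mul]
  map_zero' := by rw [S.tau_zero, map_zero]
  map_add' a b := by
    have hN : d + 1 ≤ d * (p - 1) := by
      have : d * 2 ≤ d * (p - 1) := Nat.mul_le_mul_left _ (by omega)
      omega
    have hch := charP_Q S hN (by omega)
    obtain ⟨a, rfl⟩ := IsAlgClosed.exists_pow_nat_eq a hp.out.pos
    obtain ⟨b, rfl⟩ := IsAlgClosed.exists_pow_nat_eq b hp.out.pos
    rw [← add_pow_char, map_pow, map_pow, map_pow, map_pow, map_pow, map_pow]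
    have h1 : S.lam ∣ S.tau (a + b) - (S.tau a + S.tau b) := by
      apply S.dvd_of_res
      rw [map_sub S.res, map_add S.res, S.res_tau, S.res_tau, S.res_tau, sub_self]
    obtain ⟨c, hc⟩ := h1
    have h2 : S.rd (d + 1) (S.tau (a + b)) = (S.rd (d + 1) (S.tau a) + S.rd (d + 1) (S.tau b)) +
        S.rd (d + 1) (S.lam * c) := by
      rw [← hc, ← map_add, ← map_add]
      congr 1
      ring
    have h3 : S.rd (d + 1) (S.lam * c) ^ p = 0 := by
      rw [← map_pow, S.rd_eq_zero, mul_pow]
      exact Dvd.dvd.mul_right (pow_dvd_pow _ (by omega)) _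
    rw [h2, add_pow_char, add_pow_char, h3, add_zero]

variable [CharP K p] [IsAlgClosed K] (hpd : 3 * d + 3 < p) (hd : 0 < d)

theorem sg_apply (a : K) : sg S hpd hd a = S.rd (d + 1) (S.tau a) := rfl

/-- the nilpotent element -/
noncomputable def el : S.Q (d + 1) := S.rd (d + 1) S.lam

theorem el_pow (n : ℕ) (hn : d + 1 ≤ n) : el S ^ n = 0 := by
  rw [el, ← map_pow, S.rd_eq_zero]
  exact pow_dvd_pow _ hn

theorem el_top (x : R) : el S ^ d * S.rd (d + 1) x = el S ^ d * sg S hpd hd (S.res x) := by
  have h1 : S.lam ∣ x - S.tau (S.res x) := by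
    apply S.dvd_of_res
    rw [map_sub, S.res_tau, sub_self]
  obtain ⟨c, hc⟩ := h1
  have h2 : x = S.tau (S.res x) + S.lam * c := by rw [← hc]; ring
  rw [sg_apply]
  conv_lhs => rw [h2]
  rw [map_add, map_mul, mul_add, ← mul_assoc]
  have h3 : el S ^ d * S.rd (d + 1) S.lam = 0 := by
    have := el_pow S (d + 1) le_rfl
    rw [pow_succ] at this
    exact this
  rw [h3, zero_mul, add_zero]

/-- homogenization with `λ` as the additional variable -/
noncomputable def hom (n : ℕ) (F : MvPolynomial (Fin 2) K) : MvPolynomial (Fin 2) (S.Q (d + 1)) :=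
  ∑ u ∈ F.support, monomial u (sg S hpd hd (coeff u F) * el S ^ (n - u.degree))

theorem coeff_hom (n : ℕ) (F : MvPolynomial (Fin 2) K) (u : Fin 2 →₀ ℕ) :
    coeff u (hom S hpd hd n F) = sg S hpd hd (coeff u F) * el S ^ (n - u.degree) := by
  classical
  rw [hom, coeff_sum]
  simp only [coeff_monomial]
  rw [Finset.sum_ite_eq' F.support u]
  split_ifs with h
  · rfl
  · rw [notMem_support_iff.1 h, map_zero, zero_mul]

theorem hom_add (n : ℕ) (F G : MvPolynomial (Fin 2) K) :
    hom S hpd hd n (F + G) = hom S hpd hd n F + hom S hpd hd n G := by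
  ext u
  rw [coeff_add, coeff_hom, coeff_hom, coeff_hom, coeff_add, map_add, add_mul]

theorem hom_sub (n : ℕ) (F G : MvPolynomial (Fin 2) K) :
    hom S hpd hd n (F - G) = hom S hpd hd n F - hom S hpd hd n G := by
  ext u
  rw [coeff_sub, coeff_hom, coeff_hom, coeff_hom, coeff_sub, map_sub, sub_mul]

theorem hom_mul (n m : ℕ) (F G : MvPolynomial (Fin 2) K) (hF : F.totalDegree ≤ n)
    (hG : G.totalDegree ≤ m) :
    hom S hpd hd (n + m) (F * G) = hom S hpd hd n F * hom S hpd hd m G := by
  classical
  ext u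
  rw [coeff_hom, MvPolynomial.coeff_mul, MvPolynomial.coeff_mul, map_sum, Finset.sum_mul]
  refine Finset.sum_congr rfl fun x hx => ?_
  rw [Finset.HasAntidiagonal.mem_antidiagonal] at hx
  have hxd : x.1.degree + x.2.degree = u.degree := by rw [← map_add, hx]
  rw [coeff_hom, coeff_hom, map_mul]
  by_cases h1 : n < x.1.degree
  · rw [coeff_deg hF _ h1, map_zero]; ring
  by_cases h2 : m < x.2.degree
  · rw [coeff_deg hG _ h2, map_zero]; ring
  have h3 : n + m - u.degree = (n - x.1.degree) + (m - x.2.degree) := by omega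
  rw [h3, pow_add (el S)]
  ring

theorem hom_C_mul (n : ℕ) (a : K) (F : MvPolynomial (Fin 2) K) :
    hom S hpd hd n (C a * F) = C (sg S hpd hd a) * hom S hpd hd n F := by
  ext u
  rw [coeff_hom, coeff_C_mul, coeff_C_mul, coeff_hom, map_mul, mul_assoc]

theorem hom_one : hom S hpd hd 0 1 = 1 := by
  classical
  ext u
  rw [coeff_hom, coeff_one, coeff_one, Nat.zero_sub, pow_zero, mul_one]
  split_ifs
  · rw [map_one]
  · rw [map_zero]

theorem hom_ell (r c : K) : hom S hpd hd 1 (ell r c) =
    ell (sg S hpd hd r) (sg S hpd hd c * el S) := by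
  classical
  ext u
  rw [coeff_hom, ell, ell, coeff_sub, coeff_sub, coeff_sub, coeff_sub, coeff_C_mul, coeff_C_mul,
    coeff_X, coeff_X, coeff_C, coeff_X, coeff_X, coeff_C]
  by_cases h0 : Finsupp.single 0 1 = u
  · subst h0
    rw [if_pos rfl, if_neg (by
      intro h
      have := DFunLike.congr_fun h 0
      simp at this), if_neg (by
      intro h
      have := DFunLike.congr_fun h 0
      simp at this), if_pos rfl, if_neg (by
      intro h
      have := DFunLike.congr_fun h 0
      simp at this), if_neg (by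
      intro h
      have := DFunLike.congr_fun h 0
      simp at this), Finsupp.degree_single]
    simp
  by_cases h1 : Finsupp.single 1 1 = u
  · subst h1
    rw [if_neg h0, if_pos rfl, if_neg (by
      intro h
      have := DFunLike.congr_fun h 1
      simp at this), if_neg h0, if_pos rfl, if_neg (by
      intro h
      have := DFunLike.congr_fun h 1
      simp at this), Finsupp.degree_single]
    simp
  by_cases h2 : 0 = u
  · subst h2
    rw [if_neg h0, if_neg h1, if_pos rfl, if_neg h0, if_neg h1, if_pos rfl, map_zero]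
    simp
  · rw [if_neg h0, if_neg h1, if_neg h2, if_neg h0, if_neg h1, if_neg h2]
    simp

theorem hom_prod {J : Type} [DecidableEq J] (T : Finset J) (r c : J → K) :
    hom S hpd hd T.card (∏ j ∈ T, ell (r j) (c j)) =
      ∏ j ∈ T, ell (sg S hpd hd (r j)) (sg S hpd hd (c j) * el S) := by
  induction T using Finset.induction_on with
  | empty => rw [Finset.prod_empty, Finset.prod_empty, Finset.card_empty, hom_one]
  | insert a s ha ih =>
    have h1 : (∏ j ∈ s, ell (r j) (c j)).totalDegree ≤ s.card := by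
      have := deg_prod s (fun j => ell (r j) (c j)) (fun j _ => ell_deg _ _)
      rwa [mul_one] at this
    rw [Finset.prod_insert ha, Finset.prod_insert ha, Finset.card_insert_of_notMem ha, add_comm s.card 1,
      hom_mul S hpd hd 1 s.card _ _ (ell_deg _ _) h1, ih, hom_ell]

theorem hom_PP {J : Type} [Fintype J] [DecidableEq J] (hJ : Fintype.card J = d) (A : K)
    (r c : J → K) : hom S hpd hd d (PP A r c) =
      PP (sg S hpd hd A) (fun j => sg S hpd hd (r j)) (fun j => sg S hpd hd (c j) * el S) := by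
  have h := hom_prod S hpd hd (Finset.univ : Finset J) r c
  rw [Finset.card_univ, hJ] at h
  rw [PP, hom_C_mul, h, PP]

theorem hom_low (D n : ℕ) (g : MvPolynomial (Fin 2) K) (hg : g.totalDegree ≤ n) :
    hom S hpd hd (D + n) g = C (el S ^ D) * hom S hpd hd n g := by
  ext u
  rw [coeff_hom, coeff_C_mul, coeff_hom]
  by_cases h : n < u.degree
  · rw [coeff_deg hg _ h, map_zero]; ring
  · have h1 : D + n - u.degree = D + (n - u.degree) := by omega
    rw [h1, pow_add (el S)]
    ring

theorem eval_hom (n : ℕ) (g : MvPolynomial (Fin 2) K) (hg : g.totalDegree ≤ n) (x y : K) :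
    eval ![sg S hpd hd x * el S, sg S hpd hd y * el S] (hom S hpd hd n g) =
      el S ^ n * sg S hpd hd (eval ![x, y] g) := by
  have ev0 : ∀ {T : Type} (x y : T), (![x, y] : Fin 2 → T) 0 = x := fun _ _ => rfl
  have ev1 : ∀ {T : Type} (x y : T), (![x, y] : Fin 2 → T) 1 = y := fun _ _ => rfl
  rw [hom, map_sum]
  conv_rhs => rw [g.as_sum]
  rw [map_sum, map_sum, Finset.mul_sum]
  refine Finset.sum_congr rfl fun u hu => ?_
  rw [eval_monomial, eval_monomial, Finsupp.prod_fintype _ _ (fun _ => pow_zero _),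
    Finsupp.prod_fintype _ _ (fun _ => pow_zero _), Fin.prod_univ_two, Fin.prod_univ_two, ev0, ev1,
    ev0, ev1, map_mul, map_mul, map_pow, map_pow, mul_pow, mul_pow]
  have hle : u.degree ≤ n := (le_totalDegree hu).trans hg
  have h1 : el S ^ n = el S ^ (n - u.degree) * (el S ^ u 0 * el S ^ u 1) := by
    rw [← pow_add, ← pow_add]
    congr 1
    rw [deg_two] at hle ⊢
    omega
  rw [h1]
  ring

end S0

end Pool.Agent.H856.SO
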