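import Pool.Agent.H856.SO.Val
import Pool.Agent.H856.DW.HW3

set_option autoImplicit false
set_option linter.unusedSectionVars false
set_option linter.unusedVariables false

/-!
# Linear algebra of the forms of the lines at infinity
-/

namespace Pool.Agent.H856.SO

open Pool.Agent.H425 MvPolynomial

section ring

variable {B : Type} [CommRing B] {J : Type} [Fintype J] [DecidableEq J]

theorem ell_zero_sub (a b : B) :
    (ell a 0 : MvPolynomial (Fin 2) B) - ell b 0 = C (b - a) * X 1 := by
  rw [ell, ell, C_sub]; ring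

theorem QQ_fst (A : B) (r c : J → B) (i m : J) (h : m ≠ i) :
    QQ A r c i = C A * (ell (r m) (c m) *
      ∏ j ∈ (Finset.univ.erase i).erase m, ell (r j) (c j)) := by
  rw [QQ, ← Finset.mul_prod_erase (Finset.univ.erase i) _
    (Finset.mem_erase.2 ⟨h, Finset.mem_univ m⟩)]

theorem QQ_snd (A : B) (r c : J → B) (i m : J) (h : m ≠ i) :
    QQ A r c m = C A * (ell (r i) (c i) *
      ∏ j ∈ (Finset.univ.erase i).erase m, ell (r j) (c j)) := by
  rw [QQ, ← Finset.mul_prod_erase (Finset.univ.erase m) _
    (Finset.mem_erase.2 ⟨h.symm, Finset.mem_univ i⟩), Finset.erase_right_comm]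

theorem X_EEm (A : B) (r : J → B) (i m : J) (h : m ≠ i) :
    X 1 * EEm A r (fun _ => 0) i m = QQ A r (fun _ => 0) m - QQ A r (fun _ => 0) i := by
  rw [QQ_fst A r _ i m h, QQ_snd A r _ i m h, EEm, C_mul]
  have h1 := ell_zero_sub (r i) (r m)
  linear_combination (-C A * ∏ j ∈ (Finset.univ.erase i).erase m, ell (r j) 0) * h1

theorem X_VF (A : B) (r : J → B) (i : J) :
    X 1 * VF A r (fun _ => 0) i = ∑ l, QQ A r (fun _ => 0) l -
      C (Fintype.card J : B) * QQ A r (fun _ => 0) i := by
  rw [VF, Finset.mul_sum, Finset.sum_congr rfl fun m hm => X_EEm A r i m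
    (Finset.ne_of_mem_erase hm), Finset.sum_sub_distrib, Finset.sum_const,
    Finset.card_erase_of_mem (Finset.mem_univ i), Finset.card_univ,
    ← Finset.add_sum_erase _ _ (Finset.mem_univ i), nsmul_eq_mul]
  have h1 : 1 ≤ Fintype.card J := Fintype.card_pos_iff.2 ⟨i⟩
  rw [Nat.cast_sub h1, map_natCast]
  push_cast
  ring

theorem X_inj (F G : MvPolynomial (Fin 2) B) (h : X 1 * F = X 1 * G) : F = G := by
  ext v
  have h1 := congrArg (coeff (Finsupp.single 1 1 + v)) h
  rwa [coeff_X_mul, coeff_X_mul] at h1

theorem EEm_VF (A : B) (r : J → B) (i m : J) (h : m ≠ i) :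
    C (Fintype.card J : B) * EEm A r (fun _ => 0) i m =
      VF A r (fun _ => 0) i - VF A r (fun _ => 0) m := by
  apply X_inj
  have h1 := X_EEm A r i m h
  have h2 := X_VF A r i
  have h3 := X_VF A r m
  linear_combination C (Fintype.card J : B) * h1 - h2 + h3

theorem sum_VF (A : B) (r : J → B) : ∑ i, VF A r (fun _ => 0) i = 0 := by
  apply X_inj
  rw [Finset.mul_sum, Finset.sum_congr rfl fun i _ => X_VF A r i, Finset.sum_sub_distrib,
    ← Finset.mul_sum, Finset.sum_const, Finset.card_univ, nsmul_eq_mul, map_natCast]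
  ring

/-- the weighted Laplacian divided by the number of the lines -/
noncomputable def NM (c : B) (w : J → J → B) : Matrix J J B :=
  fun j i => c * (if j = i then ∑ m ∈ Finset.univ.erase i, w i m else -w i j)

theorem sum_w (A : B) (r : J → B) (c : B) (hc : c * (Fintype.card J : B) = 1) (w : J → J → B)
    (i : J) : ∑ m ∈ Finset.univ.erase i, C (w i m) * EEm A r (fun _ => 0) i m =
      ∑ j, C (NM c w j i) * VF A r (fun _ => 0) j := by
  have h1 : ∀ m ∈ Finset.univ.erase i, C (w i m) * EEm A r (fun _ => 0) i m =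
      C (c * w i m) * (VF A r (fun _ => 0) i - VF A r (fun _ => 0) m) := by
    intro m hm
    rw [← EEm_VF A r i m (Finset.ne_of_mem_erase hm)]
    have h2 : (C c : MvPolynomial (Fin 2) B) * C (Fintype.card J : B) = 1 := by
      rw [← C_mul, hc, C_1]
    rw [C_mul]
    linear_combination (-C (w i m) * EEm A r (fun _ => 0) i m) * h2
  rw [Finset.sum_congr rfl h1, ← Finset.add_sum_erase _ _ (Finset.mem_univ i), NM, if_pos rfl]
  have h3 : ∀ j ∈ Finset.univ.erase i, C (NM c w j i) * VF A r (fun _ => 0) j =
      -(C (c * w i j) * VF A r (fun _ => 0) j) := by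
    intro j hj
    rw [NM, if_neg (Finset.ne_of_mem_erase hj), mul_neg, C_neg, neg_mul]
  rw [Finset.sum_congr rfl h3, Finset.sum_neg_distrib, Finset.mul_sum, map_sum, Finset.sum_mul,
    ← sub_eq_add_neg, ← Finset.sum_sub_distrib]
  refine Finset.sum_congr rfl fun m _ => ?_
  ring

end ring

section fin

variable {B : Type} [CommRing B] {n : ℕ}

/-- the reduced matrix -/
def red (M : Matrix (Fin (n + 1)) (Fin (n + 1)) B) : Matrix (Fin n) (Fin n) B :=
  fun j i => M (Fin.castSucc j) (Fin.castSucc i) - M (Fin.last n) (Fin.castSucc i)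

theorem sum_red (A : B) (r : Fin (n + 1) → B) (M : Matrix (Fin (n + 1)) (Fin (n + 1)) B)
    (i : Fin n) : ∑ j, C (M j (Fin.castSucc i)) * VF A r (fun _ => 0) j =
      ∑ j, C (red M j i) * VF A r (fun _ => 0) (Fin.castSucc j) := by
  have h1 := sum_VF A r
  rw [Fin.sum_univ_castSucc] at h1 ⊢
  have h2 : ∑ j, C (red M j i) * VF A r (fun _ => 0) (Fin.castSucc j) =
      ∑ j : Fin n, C (M (Fin.castSucc j) (Fin.castSucc i)) * VF A r (fun _ => 0) (Fin.castSucc j) -
      C (M (Fin.last n) (Fin.castSucc i)) * ∑ j : Fin n, VF A r (fun _ => 0) (Fin.castSucc j) := by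
    rw [Finset.mul_sum, ← Finset.sum_sub_distrib]
    refine Finset.sum_congr rfl fun j _ => ?_
    rw [red, C_sub]
    ring
  rw [h2]
  linear_combination C (M (Fin.last n) (Fin.castSucc i)) * h1

theorem charpoly_conj {J : Type} [Fintype J] [DecidableEq J] {F : Type} [Field F]
    (U L M : Matrix J J F) (h : U * L = M * U) (hU : U.det ≠ 0) : L.charpoly = M.charpoly := by
  have h1 : (U.map Polynomial.C) * L.charmatrix = M.charmatrix * (U.map Polynomial.C) := by
    rw [Matrix.charmatrix, Matrix.charmatrix, mul_sub, sub_mul]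
    have h2 : (U.map (Polynomial.C : F →+* Polynomial F)) * (Polynomial.C.mapMatrix L) =
        (Polynomial.C.mapMatrix M) * (U.map Polynomial.C) := by
      have := congrArg (fun x => (Polynomial.C : F →+* Polynomial F).mapMatrix x) h
      simp only [map_mul] at this
      exact this
    rw [h2]
    congr 1
    exact (Matrix.scalar_commute _ (fun _ => Commute.all _ _) _).symm
  have h2 := congrArg Matrix.det h1
  rw [Matrix.det_mul, Matrix.det_mul] at h2
  have h3 : (U.map (Polynomial.C : F →+* Polynomial F)).det = Polynomial.C U.det := by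
    rw [RingHom.map_det]
    rfl
  rw [h3, mul_comm] at h2
  exact mul_right_cancel₀ (Polynomial.C_ne_zero.2 hU) h2

/-- **the characteristic polynomial of the reduced matrix** -/
theorem charpoly_red {F : Type} [Field F] (hn : ((n + 1 : ℕ) : F) ≠ 0)
    (L : Matrix (Fin (n + 1)) (Fin (n + 1)) F) (hrow : ∀ i, ∑ j, L i j = 0)
    (hcol : ∀ j, ∑ i, L i j = 0) : L.charpoly = Polynomial.X * (red L).charpoly := by
  let U : Matrix (Fin (n + 1)) (Fin (n + 1)) F := fun j i =>
    if j = Fin.last n then 1 else (if j = i then 1 else 0) - (if i = Fin.last n then 1 else 0)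
  let M : Matrix (Fin (n + 1)) (Fin (n + 1)) F := fun j i =>
    if j = Fin.last n then 0 else if i = Fin.last n then 0 else L j i - L (Fin.last n) i
  have hU : U.det ≠ 0 := by
    intro h
    obtain ⟨v, hv0, hv⟩ := Matrix.exists_mulVec_eq_zero_iff.2 h
    apply hv0
    have h1 : ∑ i, v i = 0 := by
      have := congrFun hv (Fin.last n)
      rw [Matrix.mulVec, dotProduct] at this
      simp only [U, if_true, one_mul, Pi.zero_apply] at this
      exact this
    have h2 : ∀ j, v j = v (Fin.last n) := by
      intro j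
      by_cases hj : j = Fin.last n
      · rw [hj]
      · have := congrFun hv j
        rw [Matrix.mulVec, dotProduct] at this
        simp only [U, if_neg hj, sub_mul, ite_mul, one_mul, zero_mul, Pi.zero_apply,
          Finset.sum_sub_distrib, Finset.sum_ite_eq, Finset.mem_univ, if_true,
          Finset.sum_ite_eq'] at this
        exact sub_eq_zero.1 this
    rw [Finset.sum_congr rfl (fun j _ => h2 j), Finset.sum_const, Finset.card_univ,
      Fintype.card_fin, nsmul_eq_mul] at h1
    have h3 := (mul_eq_zero.1 h1).resolve_left hn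
    funext j
    rw [h2 j, h3]
    rfl
  have hUL : U * L = M * U := by
    ext j i
    rw [Matrix.mul_apply, Matrix.mul_apply]
    by_cases hj : j = Fin.last n
    · simp only [U, M, if_pos hj, one_mul, zero_mul, Finset.sum_const_zero]
      exact hcol i
    · have e1 : ∑ l, U j l * L l i = L j i - L (Fin.last n) i := by
        simp only [U, if_neg hj, sub_mul, ite_mul, one_mul, zero_mul, Finset.sum_sub_distrib,
          Finset.sum_ite_eq, Finset.mem_univ, if_true, Finset.sum_ite_eq']
      rw [e1]
      have e2 : ∀ l, M j l * U l i = (L j l - L (Fin.last n) l) * ((if l = i then 1 else 0) -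
          (if i = Fin.last n then 1 else 0)) - (if l = Fin.last n then
          (L j (Fin.last n) - L (Fin.last n) (Fin.last n)) * ((if Fin.last n = i then 1 else 0) -
          (if i = Fin.last n then 1 else 0)) else 0) := by
        intro l
        simp only [M, U, if_neg hj]
        by_cases hl : l = Fin.last n
        · subst hl
          simp
        · simp [hl]
      rw [Finset.sum_congr rfl (fun l _ => e2 l), Finset.sum_sub_distrib, Finset.sum_ite_eq',
        if_pos (Finset.mem_univ _)]
      have e3 : ∑ l, (L j l - L (Fin.last n) l) * ((if l = i then 1 else 0) -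
          (if i = Fin.last n then (1 : F) else 0)) = (L j i - L (Fin.last n) i) := by
        simp only [mul_sub, mul_ite, mul_one, mul_zero, Finset.sum_sub_distrib]
        rw [Finset.sum_ite_eq', if_pos (Finset.mem_univ _)]
        by_cases hi : i = Fin.last n
        · simp only [if_pos hi]
          rw [Finset.sum_sub_distrib, hrow, hrow]
          simp
        · simp only [if_neg hi, Finset.sum_const_zero, sub_zero]
      rw [e3]
      by_cases hi : i = Fin.last n
      · simp [hi]
      · simp [hi, Ne.symm hi]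
  rw [charpoly_conj U L M hUL hU, DW.charpoly_block M (fun j => by simp only [M, if_true])]
  have e1 : M.submatrix Fin.castSucc Fin.castSucc = red L := by
    ext j i
    rw [Matrix.submatrix_apply, red]
    simp only [M, if_neg (Fin.castSucc_lt_last _).ne]
  have e2 : M (Fin.last n) (Fin.last n) = 0 := by simp only [M, if_true]
  rw [e1, e2, Polynomial.C_0, sub_zero, mul_comm]

theorem NM_row {J : Type} [Fintype J] [DecidableEq J] (c : B) (w : J → J → B)
    (hw : ∀ i j, w i j = w j i) (i : J) : ∑ j, NM c w i j = 0 := by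
  simp only [NM]
  rw [← Finset.mul_sum, ← Finset.add_sum_erase _ _ (Finset.mem_univ i), if_pos rfl,
    Finset.sum_congr rfl (fun j hj => if_neg (Finset.ne_of_mem_erase hj).symm),
    Finset.sum_neg_distrib, Finset.sum_congr rfl (fun j _ => hw j i)]
  ring

theorem NM_col {J : Type} [Fintype J] [DecidableEq J] (c : B) (w : J → J → B) (i : J) :
    ∑ j, NM c w j i = 0 := by
  simp only [NM]
  rw [← Finset.mul_sum, ← Finset.add_sum_erase _ _ (Finset.mem_univ i), if_pos rfl,
    Finset.sum_congr rfl (fun j hj => if_neg (Finset.ne_of_mem_erase hj)),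
    Finset.sum_neg_distrib]
  ring

/-- **independence of the forms** -/
theorem VF_indep {F : Type} [Field F] (hn : ((n + 1 : ℕ) : F) ≠ 0) (A : F) (hA : A ≠ 0)
    (r : Fin (n + 1) → F) (hr : Function.Injective r) (c : Fin n → F)
    (h : ∑ i, C (c i) * VF A r (fun _ => 0) (Fin.castSucc i) = 0) : c = 0 := by
  set c' : Fin (n + 1) → F := Fin.snoc c 0 with hc'
  have hc1 : ∀ i, c' (Fin.castSucc i) = c i := fun i => Fin.snoc_castSucc (α := fun _ => F) _ _ _
  have hc2 : c' (Fin.last n) = 0 := Fin.snoc_last (α := fun _ => F) _ _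
  have h1 : ∑ i, C (c' i) * VF A r (fun _ => 0) i = 0 := by
    rw [Fin.sum_univ_castSucc, hc2, C_0, zero_mul, add_zero]
    simp only [hc1]
    exact h
  have h2 : ∑ i, C (c' i) * (X 1 * VF A r (fun _ => 0) i) = 0 := by
    have : ∑ i, C (c' i) * (X 1 * VF A r (fun _ => 0) i) =
        X 1 * ∑ i, C (c' i) * VF A r (fun _ => 0) i := by
      rw [Finset.mul_sum]
      exact Finset.sum_congr rfl fun i _ => by ring
    rw [this, h1, mul_zero]
  simp only [X_VF, mul_sub] at h2
  rw [Finset.sum_sub_distrib, ← Finset.sum_mul, sub_eq_zero] at h2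
  have hQ : ∀ j l, l ≠ j → eval ![r j, 1] (QQ A r (fun _ => 0) l) = 0 := by
    intro j l hl
    rw [QQ, map_mul, map_prod, Finset.prod_eq_zero (Finset.mem_erase.2 ⟨hl.symm,
      Finset.mem_univ j⟩), mul_zero]
    rw [ell]
    simp
  have hQ2 : ∀ j, eval ![r j, 1] (QQ A r (fun _ => 0) j) ≠ 0 := by
    intro j
    rw [QQ, map_mul, map_prod, eval_C]
    refine mul_ne_zero hA (Finset.prod_ne_zero_iff.2 fun l hl => ?_)
    rw [ell]
    simp only [map_sub, map_mul, eval_X, eval_C, Matrix.cons_val_zero, Matrix.cons_val_one,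
      mul_one, sub_zero]
    intro h0
    exact (Finset.ne_of_mem_erase hl) (hr (sub_eq_zero.1 h0)).symm
  have h3 : ∀ j, ∑ i, c' i = ((n + 1 : ℕ) : F) * c' j := by
    intro j
    have h4 := congrArg (eval ![r j, 1]) h2
    have hL : eval ![r j, 1] (∑ l, QQ A r (fun _ => 0) l) =
        eval ![r j, 1] (QQ A r (fun _ => 0) j) := by
      rw [map_sum, Finset.sum_eq_single j (fun l _ hl => hQ j l hl)
        (fun h => absurd (Finset.mem_univ j) h)]
    have hR : eval ![r j, 1] (∑ x, C (c' x) * (C (Fintype.card (Fin (n + 1)) : F) *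
        QQ A r (fun _ => 0) x)) = c' j * (((n + 1 : ℕ) : F) *
        eval ![r j, 1] (QQ A r (fun _ => 0) j)) := by
      rw [map_sum, Finset.sum_eq_single j (fun l _ hl => by
        rw [map_mul, map_mul, hQ j l hl, mul_zero, mul_zero])
        (fun h => absurd (Finset.mem_univ j) h), map_mul, map_mul, eval_C, eval_C,
        Fintype.card_fin]
    have hS : eval ![r j, 1] (∑ i, C (c' i)) = ∑ i, c' i := by
      rw [map_sum]
      exact Finset.sum_congr rfl fun i _ => eval_C _
    rw [map_mul, hL, hR, hS] at h4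
    apply mul_right_cancel₀ (hQ2 j)
    rw [h4]
    ring
  have h5 := h3 (Fin.last n)
  rw [hc2, mul_zero] at h5
  funext i
  have h6 := h3 (Fin.castSucc i)
  rw [h5, hc1] at h6
  exact (mul_eq_zero.1 h6.symm).resolve_left hn

end fin

end Pool.Agent.H856.SO
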