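import Pool.Agent.H856.SO.Alg

set_option autoImplicit false
set_option linter.unusedSectionVars false
set_option linter.unusedVariables false

/-!
# Products of lines and the forms `dP ∧ dlog ℓ_i`
-/

namespace Pool.Agent.H856.SO

open Pool.Agent.H425 MvPolynomial

variable {p : ℕ} [hp : Fact p.Prime] {B : Type} [CommRing B]

/-- the line `x = r y + c` -/
noncomputable def ell (r c : B) : MvPolynomial (Fin 2) B := X 0 - C r * X 1 - C c

theorem deg_X (i : Fin 2) : (X i : MvPolynomial (Fin 2) B).totalDegree ≤ 1 := by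
  rcases subsingleton_or_nontrivial B with h | h
  · have : (X i : MvPolynomial (Fin 2) B) = 0 := Subsingleton.elim _ _
    rw [this, totalDegree_zero]
    omega
  · rw [totalDegree_X]

theorem deg_mul {F G : MvPolynomial (Fin 2) B} {m n : ℕ} (hF : F.totalDegree ≤ m)
    (hG : G.totalDegree ≤ n) : (F * G).totalDegree ≤ m + n :=
  (totalDegree_mul _ _).trans (add_le_add hF hG)

theorem deg_pow {F : MvPolynomial (Fin 2) B} {m : ℕ} (hF : F.totalDegree ≤ m) (n : ℕ) :
    (F ^ n).totalDegree ≤ n * m :=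
  (totalDegree_pow _ _).trans (Nat.mul_le_mul_left _ hF)

theorem deg_sub {F G : MvPolynomial (Fin 2) B} {n : ℕ} (hF : F.totalDegree ≤ n)
    (hG : G.totalDegree ≤ n) : (F - G).totalDegree ≤ n :=
  (totalDegree_sub _ _).trans (max_le hF hG)

theorem deg_add {F G : MvPolynomial (Fin 2) B} {n : ℕ} (hF : F.totalDegree ≤ n)
    (hG : G.totalDegree ≤ n) : (F + G).totalDegree ≤ n :=
  (totalDegree_add _ _).trans (max_le hF hG)

theorem deg_C_mul (c : B) {F : MvPolynomial (Fin 2) B} {n : ℕ} (hF : F.totalDegree ≤ n) :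
    (C c * F).totalDegree ≤ n := by
  have := deg_mul (totalDegree_C (σ := Fin 2) c).le hF
  rwa [zero_add] at this

theorem deg_prod {T : Type} (s : Finset T) (F : T → MvPolynomial (Fin 2) B) {n : ℕ}
    (hF : ∀ i ∈ s, (F i).totalDegree ≤ n) : (∏ i ∈ s, F i).totalDegree ≤ s.card * n := by
  refine (totalDegree_finsetProd _ _).trans ?_
  refine (Finset.sum_le_card_nsmul _ _ n hF).trans ?_
  rw [smul_eq_mul]

theorem ell_deg (r c : B) : (ell r c).totalDegree ≤ 1 :=
  deg_sub (deg_sub (deg_X 0) (deg_C_mul r (deg_X 1))) ((totalDegree_C c).le.trans (by omega))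

theorem ell_pow [CharP B p] (r c : B) : ell r c ^ p = expand p (ell (r ^ p) (c ^ p)) := by
  rw [ell, sub_pow_char, sub_pow_char, mul_pow, ← C_pow, ← C_pow, ell, map_sub, map_sub, map_mul,
    expand_X, expand_X, expand_C, expand_C]

/-- the Cartier operator on a product of two powers and a polynomial -/
theorem key_mul [CharP B p] (r c r' c' : B) (h : MvPolynomial (Fin 2) B)
    (hh : h.totalDegree ≤ p - 2) :
    psi2 p ((ell r c * ell r' c') ^ (p - 1) * (ell r c * h)) = 0 := by
  have hp1 := hp.out.two_le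
  have h1 : (ell r c * ell r' c') ^ (p - 1) * (ell r c * h) =
      expand p (ell (r ^ p) (c ^ p)) * (ell r' c' ^ (p - 1) * h) := by
    rw [← ell_pow]
    have h2 : ell r c ^ p = ell r c ^ (p - 1) * ell r c := by
      rw [← pow_succ, Nat.sub_add_cancel (by omega)]
    rw [h2, mul_pow]
    ring
  rw [h1, psi2_expand, psi2_small (n := (p - 1) * 1 + (p - 2)), mul_zero]
  · exact deg_mul (deg_pow (ell_deg _ _) _) hh
  · omega

theorem key_C [CharP B p] (r c r' c' : B) (hu : IsUnit (r - r')) (x y : B)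
    (h1 : x - r * y - c = 0) (h2 : x - r' * y - c' = 0) (u : Fin 2 →₀ ℕ) (hu2 : u.degree ≤ p - 1) :
    psi2 p ((ell r c * ell r' c') ^ (p - 1) * monomial u 1) =
      C (x ^ u 0 * y ^ u 1) * psi2 p ((ell r c * ell r' c') ^ (p - 1)) := by
  obtain ⟨w, hw⟩ := hu
  have hwi : (↑w⁻¹ : B) * (r - r') = 1 := by rw [← hw]; exact Units.inv_mul w
  -- the two coordinate functions
  have hy : (X 1 : MvPolynomial (Fin 2) B) = C y + C (↑w⁻¹ : B) * (ell r' c' - ell r c) := by
    have e1 : ell r' c' - ell r c = C (r - r') * (X 1 - C y) := by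
      have e2 : c' - c = -((r' - r) * y) := by linear_combination h1 - h2
      rw [ell, ell]
      have e3 : (C c' : MvPolynomial (Fin 2) B) - C c = -((C r' - C r) * C y) := by
        rw [← C_sub, e2, C_neg, C_mul, C_sub]
      rw [C_sub]
      linear_combination -e3
    rw [e1, ← mul_assoc, ← C_mul, hwi, C_1]
    ring
  have hx : (X 0 : MvPolynomial (Fin 2) B) = C x + ell r c + C r * (X 1 - C y) := by
    rw [ell]
    have e3 : (C x : MvPolynomial (Fin 2) B) - C r * C y - C c = 0 := by
      rw [← C_mul, ← C_sub, ← C_sub, h1, C_0]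
    linear_combination -e3
  -- the operator on the left
  have hsw : ∀ h : MvPolynomial (Fin 2) B, h.totalDegree ≤ p - 2 →
      psi2 p ((ell r c * ell r' c') ^ (p - 1) * (ell r' c' * h)) = 0 := by
    intro h hh
    rw [mul_comm (ell r c) (ell r' c')]
    exact key_mul _ _ _ _ h hh
  have hsy : ∀ h : MvPolynomial (Fin 2) B, h.totalDegree ≤ p - 2 →
      psi2 p ((ell r c * ell r' c') ^ (p - 1) * (X 1 * h)) =
        C y * psi2 p ((ell r c * ell r' c') ^ (p - 1) * h) := by
    intro h hh
    conv_lhs => rw [hy]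
    have e1 : (ell r c * ell r' c') ^ (p - 1) *
        ((C y + C (↑w⁻¹ : B) * (ell r' c' - ell r c)) * h) =
        C y * ((ell r c * ell r' c') ^ (p - 1) * h) +
        (C (↑w⁻¹ : B) * ((ell r c * ell r' c') ^ (p - 1) * (ell r' c' * h)) -
        C (↑w⁻¹ : B) * ((ell r c * ell r' c') ^ (p - 1) * (ell r c * h))) := by ring
    rw [e1, psi2_add, psi2_sub, psi2_C_mul, psi2_C_mul, psi2_C_mul, hsw h hh, key_mul _ _ _ _ h hh]
    ring
  have hsx : ∀ h : MvPolynomial (Fin 2) B, h.totalDegree ≤ p - 2 →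
      psi2 p ((ell r c * ell r' c') ^ (p - 1) * (X 0 * h)) =
        C x * psi2 p ((ell r c * ell r' c') ^ (p - 1) * h) := by
    intro h hh
    conv_lhs => rw [hx]
    have e1 : (ell r c * ell r' c') ^ (p - 1) *
        ((C x + ell r c + C r * (X 1 - C y)) * h) =
        C x * ((ell r c * ell r' c') ^ (p - 1) * h) +
        ((ell r c * ell r' c') ^ (p - 1) * (ell r c * h) +
        (C r * ((ell r c * ell r' c') ^ (p - 1) * (X 1 * h)) -
        C (r * y) * ((ell r c * ell r' c') ^ (p - 1) * h))) := by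
      rw [C_mul]; ring
    rw [e1, psi2_add, psi2_add, psi2_sub, psi2_C_mul, psi2_C_mul, psi2_C_mul, hsy h hh,
      key_mul _ _ _ _ h hh, C_mul]
    ring
  -- induction on the monomial
  have hpow : ∀ a b : ℕ, a + b ≤ p - 1 →
      psi2 p ((ell r c * ell r' c') ^ (p - 1) * (X 0 ^ a * X 1 ^ b)) =
      C (x ^ a * y ^ b) * psi2 p ((ell r c * ell r' c') ^ (p - 1)) := by
    intro a b
    induction a with
    | zero =>
      induction b with
      | zero => intro _; simp
      | succ b ih =>
        intro hab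
        have hdeg : ((X 0 : MvPolynomial (Fin 2) B) ^ 0 * X 1 ^ b).totalDegree ≤ p - 2 := by
          have := deg_mul (deg_pow (deg_X (B := B) 0) 0) (deg_pow (deg_X (B := B) 1) b)
          omega
        have e1 : (X 0 : MvPolynomial (Fin 2) B) ^ 0 * X 1 ^ (b + 1) =
          X 1 * (X 0 ^ 0 * X 1 ^ b) := by ring
        rw [e1, hsy _ hdeg, ih (by omega), ← mul_assoc, ← C_mul]
        congr 2
        ring
    | succ a ih =>
      intro hab
      have hdeg : ((X 0 : MvPolynomial (Fin 2) B) ^ a * X 1 ^ b).totalDegree ≤ p - 2 := by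
        have := deg_mul (deg_pow (deg_X (B := B) 0) a) (deg_pow (deg_X (B := B) 1) b)
        omega
      have e1 : (X 0 : MvPolynomial (Fin 2) B) ^ (a + 1) * X 1 ^ b =
        X 0 * (X 0 ^ a * X 1 ^ b) := by ring
      rw [e1, hsx _ hdeg, ih (by omega), ← mul_assoc, ← C_mul]
      congr 2
      ring
  have hmon : (monomial u (1 : B)) = X 0 ^ u 0 * X 1 ^ u 1 := by
    rw [monomial_eq, C_1, one_mul, Finsupp.prod_fintype _ _ (fun _ => pow_zero _),
      Fin.prod_univ_two]
  rw [hmon]
  refine hpow _ _ ?_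
  have : u.degree = u 0 + u 1 := by
    rw [Finsupp.degree_eq_sum, Fin.sum_univ_two]
  omega

/-- **the residue at the intersection point** -/
theorem key_eval [CharP B p] (r c r' c' : B) (hu : IsUnit (r - r')) (x y : B)
    (h1 : x - r * y - c = 0) (h2 : x - r' * y - c' = 0) (g : MvPolynomial (Fin 2) B)
    (hg : g.totalDegree ≤ p - 1) :
    psi2 p ((ell r c * ell r' c') ^ (p - 1) * g) =
      C (eval ![x, y] g) * psi2 p ((ell r c * ell r' c') ^ (p - 1)) := by
  conv_lhs => rw [g.as_sum]
  rw [Finset.mul_sum, psi2_sum]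
  conv_rhs => rw [g.as_sum]
  rw [map_sum, map_sum, Finset.sum_mul]
  refine Finset.sum_congr rfl fun u hu2 => ?_
  have hdeg : u.degree ≤ p - 1 := by
    refine le_trans ?_ hg
    exact le_totalDegree hu2
  have e1 : monomial u (coeff u g) = C (coeff u g) * monomial u 1 := by
    rw [C_mul_monomial, mul_one]
  have e2 : (ell r c * ell r' c') ^ (p - 1) * monomial u (coeff u g) =
      C (coeff u g) * ((ell r c * ell r' c') ^ (p - 1) * monomial u 1) := by
    rw [e1]; ring
  have ev0 : (![x, y] : Fin 2 → B) 0 = x := rfl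
  have ev1 : (![x, y] : Fin 2 → B) 1 = y := rfl
  rw [e2, psi2_C_mul, key_C r c r' c' hu x y h1 h2 u hdeg, eval_monomial,
    Finsupp.prod_fintype _ _ (fun _ => pow_zero _), Fin.prod_univ_two, ev0, ev1]
  simp only [C_mul]
  ring

theorem deg_two (v : Fin 2 →₀ ℕ) : v.degree = v 0 + v 1 := by
  rw [Finsupp.degree_eq_sum, Fin.sum_univ_two]

theorem coeff_pt (F : MvPolynomial (Fin 2) B) (v : Fin 2 →₀ ℕ) (i : Fin 2) :
    coeff (v + Finsupp.single i 1) (X i * F) = coeff v F := by
  rw [add_comm, coeff_X_mul]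

theorem coeff_pt_zero (F : MvPolynomial (Fin 2) B) (v : Fin 2 →₀ ℕ) (i : Fin 2) (h : v i = 0) :
    coeff v (X i * F) = 0 := by
  classical
  rw [coeff_X_mul', if_neg]
  rw [Finsupp.mem_support_iff]
  exact fun h' => h' h

/-- the leading coefficient of a power of a line -/
theorem ell_lead (r c : B) (n : ℕ) : coeff (Finsupp.single 0 n) (ell r c ^ n) = 1 := by
  induction n with
  | zero =>
    rw [pow_zero, Finsupp.single_zero, coeff_zero_one]
  | succ n ih =>
    have e1 : ell r c ^ (n + 1) = X 0 * ell r c ^ n - C r * (X 1 * ell r c ^ n) -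
        C c * ell r c ^ n := by
      rw [pow_succ]
      conv_lhs => enter [2]; rw [ell]
      ring
    have h1 : (Finsupp.single (0 : Fin 2) (n + 1)) = Finsupp.single 0 n + Finsupp.single 0 1 := by
      rw [← Finsupp.single_add]
    rw [e1, coeff_sub, coeff_sub, coeff_C_mul, coeff_C_mul, coeff_pt_zero _ _ 1,
      coeff_deg (deg_pow (ell_deg r c) n) _ (by rw [Finsupp.degree_single]; omega), h1, coeff_pt, ih]
    · ring
    · rw [Finsupp.single_eq_of_ne]
      decide

theorem coeff_expand_ell (r c : B) (F : MvPolynomial (Fin 2) B) (hF : F.totalDegree ≤ p - 1) :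
    coeff (Finsupp.single 0 (p - 1) + Finsupp.single 1 p) (expand p (ell r c) * F) =
      -(r * coeff (Finsupp.single 0 (p - 1)) F) := by
  classical
  have hp1 := hp.out.one_lt
  have e1 : expand p (ell r c) * F = X 0 ^ p * F - C r * (X 1 ^ p * F) - C c * F := by
    rw [ell, map_sub, map_sub, map_mul, expand_X, expand_X, expand_C, expand_C]
    ring
  rw [e1, coeff_sub, coeff_sub, coeff_C_mul, coeff_C_mul]
  have h1 : coeff (Finsupp.single 0 (p - 1) + Finsupp.single 1 p) (X 0 ^ p * F) = 0 := by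
    rw [X_pow_eq_monomial, coeff_monomial_mul', if_neg]
    intro h
    have := h 0
    rw [Finsupp.single_eq_same, Finsupp.add_apply, Finsupp.single_eq_same,
      Finsupp.single_eq_of_ne (by decide)] at this
    omega
  have h2 : coeff (Finsupp.single 0 (p - 1) + Finsupp.single 1 p) (X 1 ^ p * F) =
      coeff (Finsupp.single 0 (p - 1)) F := by
    rw [X_pow_eq_monomial, add_comm, coeff_monomial_mul, one_mul]
  have h3 : coeff (Finsupp.single 0 (p - 1) + Finsupp.single 1 p) F = 0 := by
    refine coeff_deg hF _ ?_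
    rw [map_add, Finsupp.degree_single, Finsupp.degree_single]
    omega
  rw [h1, h2, h3]
  ring

/-- **the Cartier operator on `(ℓ ℓ') ^ (p - 1)`** -/
theorem key_one [CharP B p] (r c r' c' : B) :
    C (r - r') * psi2 p ((ell r c * ell r' c') ^ (p - 1)) = C (r ^ p - r' ^ p) := by
  have hp1 := hp.out.one_lt
  set F := (ell r c * ell r' c') ^ (p - 1) with hF
  have hFdeg : F.totalDegree ≤ 2 * p - 2 := by
    have := deg_pow (deg_mul (ell_deg r c) (ell_deg r' c')) (p - 1)
    rw [← hF] at this
    omega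
  -- the coefficient
  have h1 : (r - r') * coeff (Finsupp.single 0 (p - 1) + Finsupp.single 1 (p - 1)) F =
      r ^ p - r' ^ p := by
    have e1 : C (r - r') * (X 1 * F) = ell r' c' ^ p * ell r c ^ (p - 1) -
        ell r c ^ p * ell r' c' ^ (p - 1) - C (c - c') * F := by
      have e2 : C (r - r') * X 1 = ell r' c' - ell r c - C (c - c') := by
        rw [ell, ell, C_sub, C_sub]; ring
      have e3 : ∀ x : MvPolynomial (Fin 2) B, x ^ p = x ^ (p - 1) * x := by
        intro x
        rw [← pow_succ, Nat.sub_add_cancel hp1.le]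
      rw [← mul_assoc, e2, hF, mul_pow, e3 (ell r' c'), e3 (ell r c)]
      ring
    have h2 := congrArg (coeff (Finsupp.single 0 (p - 1) + Finsupp.single 1 p)) e1
    rw [coeff_C_mul, coeff_sub, coeff_sub, coeff_C_mul, ell_pow (p := p), ell_pow (p := p),
      coeff_expand_ell _ _ _ ((deg_pow (ell_deg r c) (p - 1)).trans (by omega)),
      coeff_expand_ell _ _ _ ((deg_pow (ell_deg r' c') (p - 1)).trans (by omega)), ell_lead,
      ell_lead, coeff_deg hFdeg (Finsupp.single 0 (p - 1) + Finsupp.single 1 p) (by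
        rw [map_add, Finsupp.degree_single, Finsupp.degree_single]
        omega)] at h2
    have h3 : (Finsupp.single 0 (p - 1) + Finsupp.single 1 p : Fin 2 →₀ ℕ) =
        (Finsupp.single 0 (p - 1) + Finsupp.single 1 (p - 1)) + Finsupp.single 1 1 := by
      rw [add_assoc, ← Finsupp.single_add, Nat.sub_add_cancel hp1.le]
    rw [h3, coeff_pt] at h2
    rw [h2]
    ring
  ext v
  rw [coeff_C_mul, coeff_psi2, coeff_C]
  by_cases hv : 0 = v
  · rw [if_pos hv, ← h1, ← hv]
    congr 2
    ext i
    rw [ix_apply, oneA_apply, if_pos (Finset.mem_univ _), Finsupp.add_apply, Finsupp.zero_apply]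
    fin_cases i
    · change p * (0 + 1) - 1 = (Finsupp.single (0 : Fin 2) (p - 1)) 0 +
        (Finsupp.single (1 : Fin 2) (p - 1)) 0
      rw [Finsupp.single_eq_same, Finsupp.single_eq_of_ne (by decide)]
      omega
    · change p * (0 + 1) - 1 = (Finsupp.single (0 : Fin 2) (p - 1)) 1 +
        (Finsupp.single (1 : Fin 2) (p - 1)) 1
      rw [Finsupp.single_eq_same, Finsupp.single_eq_of_ne (by decide)]
      omega
  · rw [if_neg hv, coeff_deg hFdeg, mul_zero]
    rw [ix_deg]
    have h4 : 0 < v.degree := by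
      rw [Nat.pos_iff_ne_zero]
      intro h5
      exact hv ((Finsupp.degree_eq_zero_iff v).1 h5).symm
    have h5 : p * 3 ≤ p * (v.degree + 2) := Nat.mul_le_mul_left _ (by omega)
    omega

end Pool.Agent.H856.SO
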