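import Pool.Agent.H856.SO.Row
import Pool.Agent.H856.SO.Lin

set_option autoImplicit false
set_option linter.unusedSectionVars false
set_option linter.unusedVariables false

/-!
# The values of the Frobenius matrices on the forms of the lines
-/

namespace Pool.Agent.H856.SO

open Pool.Agent.H425 MvPolynomial

section maps

variable {A B : Type} [CommRing A] [CommRing B] {J : Type} [Fintype J] [DecidableEq J]

theorem map_ell (φ : A →+* B) (r c : A) : map φ (ell r c) = ell (φ r) (φ c) := by
  rw [ell, ell, map_sub, map_sub, map_mul, map_C, map_C, map_X, map_X]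

theorem map_EEm (φ : A →+* B) (a : A) (r c : J → A) (i m : J) :
    map φ (EEm a r c i m) = EEm (φ a) (fun j => φ (r j)) (fun j => φ (c j)) i m := by
  rw [EEm, EEm, map_mul, map_C, map_prod, map_mul φ, map_sub φ]
  congr 1
  exact Finset.prod_congr rfl fun j _ => map_ell _ _ _

theorem map_VF (φ : A →+* B) (a : A) (r c : J → A) (i : J) :
    map φ (VF a r c i) = VF (φ a) (fun j => φ (r j)) (fun j => φ (c j)) i := by
  rw [VF, VF, map_sum]
  exact Finset.sum_congr rfl fun m _ => map_EEm _ _ _ _ _ _

end maps

section pts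

variable {K : Type} [Field K] {J : Type}

/-- the second coordinate of the intersection point -/
noncomputable def py (r s : J → K) (i m : J) : K := (s m - s i) / (r i - r m)

/-- the first coordinate of the intersection point -/
noncomputable def px (r s : J → K) (i m : J) : K := r i * py r s i m + s i

/-- the value at the intersection point -/
noncomputable def ww (r s : J → K) (g : MvPolynomial (Fin 2) K) (i m : J) : K :=
  eval ![px r s i m, py r s i m] g

theorem px_fst (r s : J → K) (i m : J) : px r s i m - r i * py r s i m - s i = 0 := by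
  rw [px]; ring

theorem px_snd (r s : J → K) (hr : Function.Injective r) (i m : J) (h : m ≠ i) :
    px r s i m - r m * py r s i m - s m = 0 := by
  have h1 : r i - r m ≠ 0 := sub_ne_zero.2 fun h' => h (hr h').symm
  have h2 : py r s i m * (r i - r m) = s m - s i := by
    rw [py, div_mul_cancel₀ _ h1]
  rw [px]
  linear_combination h2

theorem py_symm (r s : J → K) (i m : J) : py r s i m = py r s m i := by
  rw [py, py, ← neg_sub (s i) (s m), ← neg_sub (r m) (r i), neg_div_neg_eq]

theorem px_symm (r s : J → K) (hr : Function.Injective r) (i m : J) (h : m ≠ i) :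
    px r s i m = px r s m i := by
  have h1 := px_snd r s hr i m h
  rw [px, py_symm] at h1 ⊢
  rw [px]
  linear_combination h1

theorem ww_symm (r s : J → K) (hr : Function.Injective r) (g : MvPolynomial (Fin 2) K) (i m : J) :
    ww r s g i m = ww r s g m i := by
  by_cases h : m = i
  · rw [h]
  · rw [ww, ww, px_symm r s hr i m h, py_symm]

variable {L : Type} [Field L]

theorem map_py (φ : K →+* L) (r s : J → K) (i m : J) :
    φ (py r s i m) = py (fun j => φ (r j)) (fun j => φ (s j)) i m := by
  rw [py, py, map_div₀, map_sub, map_sub]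

theorem map_px (φ : K →+* L) (r s : J → K) (i m : J) :
    φ (px r s i m) = px (fun j => φ (r j)) (fun j => φ (s j)) i m := by
  rw [px, px, map_add, map_mul, map_py]

theorem map_ww (φ : K →+* L) (r s : J → K) (g : MvPolynomial (Fin 2) K) (i m : J) :
    φ (ww r s g i m) = ww (fun j => φ (r j)) (fun j => φ (s j)) (map φ g) i m := by
  rw [ww, ww, ← map_px, ← map_py, eval_map, eval₂_comp]
  congr 1
  funext l
  fin_cases l
  · rfl
  · rfl

end pts

namespace S0

variable {p d : ℕ} [hp : Fact p.Prime] {K R : Type} [Field K] [CommRing R] [IsDomain R]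
  (S : Setup p d K R) [CharP K p] [IsAlgClosed K] (hpd : 3 * d + 3 < p) (hd : 0 < d)

theorem hom_deg (n : ℕ) (F : MvPolynomial (Fin 2) K) :
    (hom S hpd hd n F).totalDegree ≤ F.totalDegree := by
  unfold MvPolynomial.totalDegree
  refine Finset.sup_mono fun u hu => ?_
  rw [mem_support_iff, coeff_hom] at hu
  rw [mem_support_iff]
  intro h
  apply hu
  rw [h, map_zero, zero_mul]

theorem sg_ne (x : K) (hx : x ≠ 0) : IsUnit (sg S hpd hd x) := (isUnit_iff_ne_zero.2 hx).map _

include hpd hd in
theorem hf_last : S.rd (d + 1) (hf R (p - 1)) = -1 := by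
  have hN := d_le hd hpd
  have hch := charP_Q S hN (by omega)
  have h1 := congrArg (S.rd (d + 1)) (hf_spec S (p - 1) (by have := hp.out.pos; omega))
  rw [map_mul, map_natCast, wil, map_one] at h1
  linear_combination -h1

include S in
theorem unit_nat (m : ℕ) (hm : m + 1 < p) : IsUnit ((m + 1 : ℕ) : S.Q (d + 1)) := by
  have h : IsUnit ((m + 1 : ℕ) : R) := by
    refine S.isUnit_nat ?_
    intro h
    have := Nat.le_of_dvd (by omega) h
    omega
  have h2 := h.map (S.rd (d + 1))
  rwa [map_natCast] at h2

/-- **the reduction of the sum of the scaled monomials** -/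
theorem sm_hom (f : MvPolynomial (Fin 2) K) (t : ℕ) :
    map (S.rd (d + 1)) (sm S (S.tc f t) (Setup.su f)) =
      hom S hpd hd d (map (iterateFrobenius K p t) f -
        C (coeff 0 (map (iterateFrobenius K p t) f))) := by
  classical
  ext u
  rw [coeff_map, sm, coeff_sum, coeff_hom, coeff_sub, coeff_map]
  simp only [mnl, coeff_monomial]
  rw [Finset.sum_ite_eq']
  by_cases hu : u = 0
  · subst hu
    rw [if_neg (Setup.su_zero f), map_zero, coeff_C, if_pos rfl, coeff_map, sub_self, map_zero,
      zero_mul]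
  · rw [coeff_C, if_neg (Ne.symm hu), sub_zero, iterateFrobenius_def]
    by_cases hf : u ∈ f.support
    · rw [if_pos (by rw [Setup.su]; exact Finset.mem_erase.2 ⟨hu, hf⟩), map_mul, map_pow (S.rd _),
        Setup.tc, map_pow (S.rd _), map_pow (sg S hpd hd), sg_apply]
      rfl
    · rw [if_neg (fun h => hf (by rw [Setup.su] at h; exact (Finset.mem_erase.1 h).2)), map_zero,
        notMem_support_iff.1 hf, zero_pow (pow_ne_zero _ hp.out.ne_zero), map_zero, zero_mul]

section decomp

variable {J : Type} [Fintype J] [DecidableEq J]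

/-- the twist of the remainder without the constant term -/
noncomputable def gg (p : ℕ) [Fact p.Prime] [CharP K p] (f g : MvPolynomial (Fin 2) K) (t : ℕ) :
    MvPolynomial (Fin 2) K :=
  map (iterateFrobenius K p t) g - C (coeff 0 (map (iterateFrobenius K p t) f))

theorem gg_deg (f g : MvPolynomial (Fin 2) K) (t n : ℕ) (hg : g.totalDegree ≤ n) :
    (gg p f g t).totalDegree ≤ n := by
  rw [gg]
  refine deg_sub ?_ ?_
  · refine le_trans ?_ hg
    unfold MvPolynomial.totalDegree
    exact Finset.sup_mono (support_map_subset _ g)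
  · rw [totalDegree_C]
    exact Nat.zero_le _

theorem sm_eq (hJ : Fintype.card J = d)
    (f : MvPolynomial (Fin 2) K) (A : K) (r s : J → K) (g : MvPolynomial (Fin 2) K)
    (hdec : f = PP A r s + g) (D : ℕ) (hDd : D ≤ d) (hg : g.totalDegree ≤ d - D) (t : ℕ) :
    map (S.rd (d + 1)) (sm S (S.tc f t) (Setup.su f)) =
      PP (sg S hpd hd (iterateFrobenius K p t A)) (fun j => sg S hpd hd (iterateFrobenius K p t (r j)))
        (fun j => sg S hpd hd (iterateFrobenius K p t (s j)) * el S) +
      C (el S ^ D) * hom S hpd hd (d - D) (gg p f g t) := by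
  rw [sm_hom S hpd hd, ← hom_PP S hpd hd hJ, ← hom_low S hpd hd D (d - D) _ (gg_deg f g t _ hg),
    Nat.add_sub_cancel' hDd, ← hom_add, gg]
  congr 1
  have h1 : map (iterateFrobenius K p t) f =
      PP (iterateFrobenius K p t A) (fun j => iterateFrobenius K p t (r j))
        (fun j => iterateFrobenius K p t (s j)) + map (iterateFrobenius K p t) g := by
    conv_lhs => rw [hdec]
    rw [map_add, map_PP]
  linear_combination h1

/-- the operator is the one of the values -/
theorem TT_eq (hJ : Fintype.card J = d)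
    (f : MvPolynomial (Fin 2) K) (A : K) (r s : J → K) (g : MvPolynomial (Fin 2) K)
    (hdec : f = PP A r s + g) (D : ℕ) (hDd : D ≤ d) (hD2 : d + 1 ≤ 2 * D) (hg : g.totalDegree ≤ d - D)
    (t : ℕ) (V : MvPolynomial (Fin 2) R) (n : ℕ) (hn : n + 2 < p) (hV : V.totalDegree ≤ n) :
    map (S.rd (d + 1)) (TT S (S.tc f t) (Setup.su f) V) =
      TV p (fun m => S.rd (d + 1) (hf R m)) (sg S hpd hd (iterateFrobenius K p t A))
        (fun j => sg S hpd hd (iterateFrobenius K p t (r j)))
        (fun j => sg S hpd hd (iterateFrobenius K p t (s j)) * el S)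
        (C (el S ^ D) * hom S hpd hd (d - D) (gg p f g t)) (map (S.rd (d + 1)) V) :=
  lemD S hd hpd (S.tc f t) (Setup.su f) D hD2 _ _ _ _ V
    (sm_eq S hpd hd hJ f A r s g hdec D hDd hg t) n hn hV

/-- the forms over the ring -/
noncomputable def VH (A : K) (r s : J → K) (t : ℕ) (i : J) : MvPolynomial (Fin 2) R :=
  VF (S.tau (iterateFrobenius K p t A)) (fun j => S.tau (iterateFrobenius K p t (r j)))
    (fun j => S.tau (iterateFrobenius K p t (s j)) * S.lam) i

theorem map_VH (A : K) (r s : J → K) (t : ℕ) (i : J) :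
    map (S.rd (d + 1)) (VH S A r s t i) =
      VF (sg S hpd hd (iterateFrobenius K p t A))
        (fun j => sg S hpd hd (iterateFrobenius K p t (r j)))
        (fun j => sg S hpd hd (iterateFrobenius K p t (s j)) * el S) i := by
  rw [VH, map_VF]
  simp only [map_mul]
  rfl

theorem VH_deg (hJ : Fintype.card J = d) (A : K) (r s : J → K) (t : ℕ) (i : J) :
    (VH S A r s t i).totalDegree ≤ d - 2 := by
  have h1 := VF_deg (S.tau (iterateFrobenius K p t A))
    (fun j => S.tau (iterateFrobenius K p t (r j)))
    (fun j => S.tau (iterateFrobenius K p t (s j)) * S.lam) i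
  rw [hJ] at h1
  exact h1

theorem frob_succ (t : ℕ) (a : K) :
    sg S hpd hd (iterateFrobenius K p t a) ^ p = sg S hpd hd (iterateFrobenius K p (t + 1) a) := by
  rw [← map_pow, iterateFrobenius_def, iterateFrobenius_def, ← pow_mul, ← pow_succ]

theorem eval_gg (f : MvPolynomial (Fin 2) K) (r s : J → K) (g : MvPolynomial (Fin 2) K)
    (D : ℕ) (hDd : D ≤ d) (hg : g.totalDegree ≤ d - D) (t : ℕ) (i m : J) :
    eval ![sg S hpd hd (iterateFrobenius K p t (px r s i m)) * el S,
      sg S hpd hd (iterateFrobenius K p t (py r s i m)) * el S]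
      (C (el S ^ D) * hom S hpd hd (d - D) (gg p f g t)) =
      el S ^ d * (sg S hpd hd (iterateFrobenius K p t (ww r s g i m)) -
        sg S hpd hd (iterateFrobenius K p t (coeff 0 f))) := by
  rw [map_mul, eval_C, eval_hom S hpd hd (d - D) _ (gg_deg f g t _ hg), ← mul_assoc, ← pow_add,
    Nat.add_sub_cancel' hDd, gg, map_sub, eval_C, map_sub, map_ww, ww, ← map_px, ← map_py,
    coeff_map]

/-- **the values of the second order operator at the forms of the lines** -/
theorem TT_VH (hJ : Fintype.card J = d)
    (f : MvPolynomial (Fin 2) K) (A : K) (r s : J → K) (g : MvPolynomial (Fin 2) K)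
    (hdec : f = PP A r s + g) (D : ℕ) (hDd : D ≤ d) (hD2 : d + 1 ≤ 2 * D) (hg : g.totalDegree ≤ d - D)
    (hr : Function.Injective r) (t : ℕ) (i : J) :
    map (S.rd (d + 1)) (TT S (S.tc f t) (Setup.su f) (VH S A r s t i)) =
      -(VF (sg S hpd hd (iterateFrobenius K p (t + 1) A))
        (fun j => sg S hpd hd (iterateFrobenius K p (t + 1) (r j))) (fun _ => 0) i +
        ∑ m ∈ Finset.univ.erase i, C (el S ^ d * (sg S hpd hd (iterateFrobenius K p t
          (ww r s g i m)) - sg S hpd hd (iterateFrobenius K p t (coeff 0 f)))) *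
        EEm (sg S hpd hd (iterateFrobenius K p (t + 1) A))
        (fun j => sg S hpd hd (iterateFrobenius K p (t + 1) (r j))) (fun _ => 0) i m) +
      Gam p (fun m => S.rd (d + 1) (hf R m)) (sg S hpd hd (iterateFrobenius K p t A))
        (fun j => sg S hpd hd (iterateFrobenius K p t (r j)))
        (fun j => sg S hpd hd (iterateFrobenius K p t (s j)) * el S)
        (C (el S ^ D) * hom S hpd hd (d - D) (gg p f g t))
        (map (S.rd (d + 1)) (VH S A r s t i)) := by
  have hN := d_le hd hpd
  have hch := charP_Q S hN (by omega)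
  have hp1 := hp.out.one_lt
  rw [TT_eq S hpd hd hJ f A r s g hdec D hDd hD2 hg t (VH S A r s t i) (d - 2) (by omega)
    (VH_deg S hJ A r s t i), map_VH S hpd hd]
  have hinj : ∀ m, m ≠ i → iterateFrobenius K p t (r m) - iterateFrobenius K p t (r i) ≠ 0 := by
    intro m hm
    rw [← map_sub]
    exact (map_ne_zero _).2 (sub_ne_zero.2 fun h => hm (hr h))
  rw [TV_VF (fun m => S.rd (d + 1) (hf R m)) (hf_last S hpd hd) (unit_nat S)
    (sg S hpd hd (iterateFrobenius K p t A)) (fun j => sg S hpd hd (iterateFrobenius K p t (r j)))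
    (fun j => sg S hpd hd (iterateFrobenius K p t (s j)) * el S)
    (C (el S ^ D) * hom S hpd hd (d - D) (gg p f g t)) ?_ ?_ ?_ i ?_
    (fun m => sg S hpd hd (iterateFrobenius K p t (px r s i m)) * el S)
    (fun m => sg S hpd hd (iterateFrobenius K p t (py r s i m)) * el S) ?_ ?_]
  · simp only [frob_succ S hpd hd, eval_gg S hpd hd f r s g D hDd hg]
  · rw [mul_pow, ← C_pow, ← pow_mul, el_pow S (D * 2) (by omega), C_0, zero_mul]
  · refine le_trans (deg_C_mul _ ((hom_deg S hpd hd (d - D) _).trans (gg_deg f g t _ hg))) ?_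
    omega
  · intro j
    rw [mul_pow, el_pow S p (by omega), mul_zero]
  · intro m hm
    rw [← map_sub]
    exact sg_ne S hpd hd _ (hinj m hm)
  · intro m hm
    have h1 := px_snd r s hr i m hm
    have h2 : sg S hpd hd (iterateFrobenius K p t (px r s i m - r m * py r s i m - s m)) = 0 := by
      rw [h1, map_zero, map_zero]
    simp only [map_sub, map_mul] at h2
    linear_combination (el S) * h2
  · intro m hm
    have h1 := px_fst r s i m
    have h2 : sg S hpd hd (iterateFrobenius K p t (px r s i m - r i * py r s i m - s i)) = 0 := by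
      rw [h1, map_zero, map_zero]
    simp only [map_sub, map_mul] at h2
    linear_combination (el S) * h2

theorem el_sq (hd : 0 < d) : el S ^ d * el S ^ d = 0 := by
  rw [← pow_add]
  exact el_pow S _ (by omega)

include hpd hd in
/-- **the forms of small degree in the values** -/
theorem val_low (hJ : Fintype.card J = d)
    (f : MvPolynomial (Fin 2) K) (A : K) (r s : J → K) (g : MvPolynomial (Fin 2) K)
    (hdec : f = PP A r s + g) (D : ℕ) (hDd : D ≤ d) (hD2 : d + 1 ≤ 2 * D)
    (hg : g.totalDegree ≤ d - D)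
    (hr : Function.Injective r) (t : ℕ) (i : J) (v : Fin 2 →₀ ℕ) (hv : v.degree + 2 < d) :
    ∃ y : S.Q (d + 1), coeff v (map (S.rd (d + 1))
      (TT S (S.tc f t) (Setup.su f) (VH S A r s t i))) = el S ^ D * y := by
  rw [TT_VH S hpd hd hJ f A r s g hdec D hDd hD2 hg hr t i, Gam_dvd, coeff_add, coeff_neg,
    coeff_add, coeff_C_mul, coeff_sum,
    (VF_homog (sg S hpd hd (iterateFrobenius K p (t + 1) A))
      (fun j => sg S hpd hd (iterateFrobenius K p (t + 1) (r j))) i).coeff_eq_zero (by omega),
    Finset.sum_eq_zero, add_zero, neg_zero, zero_add]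
  · exact ⟨_, rfl⟩
  · intro m hm
    rw [coeff_C_mul, (EEm_homog _ _ i m (Finset.ne_of_mem_erase hm)).coeff_eq_zero (by omega),
      mul_zero]

include hpd hd in
/-- **the entries between the lower levels and the middle level** -/
theorem val_row (hJ : Fintype.card J = d)
    (f : MvPolynomial (Fin 2) K) (A : K) (r s : J → K) (g : MvPolynomial (Fin 2) K)
    (hdec : f = PP A r s + g) (D : ℕ) (hDd : D ≤ d) (hD2 : d + 1 ≤ 2 * D)
    (hg : g.totalDegree ≤ d - D) (t : ℕ) (u v : Fin 2 →₀ ℕ) (hu : u.degree + 2 < d)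
    (hv : d ≤ v.degree + 2) :
    ∃ y : S.Q (d + 1), coeff v (map (S.rd (d + 1))
      (TT S (S.tc f t) (Setup.su f) (monomial u 1))) = el S ^ D * y := by
  have hdeg : ∀ {B : Type} [CommRing B] (a : B), (monomial u a).totalDegree ≤ u.degree := by
    intro B _ a
    exact totalDegree_monomial_le u a
  rw [TT_eq S hpd hd hJ f A r s g hdec D hDd hD2 hg t (monomial u 1) u.degree (by omega)
    (hdeg _), map_monomial]
  exact TV_low (fun m => S.rd (d + 1) (hf R m)) _ _ _ (hom S hpd hd (d - D) (gg p f g t)) _
    (el S ^ D) d u.degree hJ hd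
    ((deg_C_mul _ ((hom_deg S hpd hd (d - D) _).trans (gg_deg f g t _ hg))).trans (by omega))
    (hdeg _) hu v hv

end decomp

section mid

variable {e : ℕ} (hde : d = e + 1)

/-- the second order matrix -/
noncomputable def NK (p : ℕ) [Fact p.Prime] [CharP K p] (r s : Fin (e + 1) → K)
    (g : MvPolynomial (Fin 2) K) (t : ℕ) : Matrix (Fin e) (Fin e) K :=
  red (NM (((e + 1 : ℕ) : K)⁻¹) (fun i m => iterateFrobenius K p t (ww r s g i m)))

include hde in
/-- **the values at the middle level** -/
theorem val_mid (f : MvPolynomial (Fin 2) K) (A : K) (r s : Fin (e + 1) → K)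
    (g : MvPolynomial (Fin 2) K)
    (hdec : f = PP A r s + g) (D : ℕ) (hD0 : 0 < D) (hDd : D ≤ d) (hD2 : d + 1 ≤ 2 * D)
    (hg : g.totalDegree ≤ d - D) (hd2 : 2 ≤ d)
    (hr : Function.Injective r) (t : ℕ) (i : Fin e) (v : Fin 2 →₀ ℕ) (hv : v.degree + 2 = d) :
    (1 + el S ^ d * sg S hpd hd (iterateFrobenius K p t (coeff 0 f))) *
      coeff v (map (S.rd (d + 1)) (TT S (S.tc f t) (Setup.su f)
        (VH S A r s t (Fin.castSucc i)))) =
      -(coeff v (map (S.rd (d + 1)) (VH S A r s (t + 1) (Fin.castSucc i))) +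
        el S ^ d * ∑ j, sg S hpd hd (NK p r s g t j i) *
          coeff v (map (S.rd (d + 1)) (VH S A r s (t + 1) (Fin.castSucc j)))) := by
  have hJ : Fintype.card (Fin (e + 1)) = d := by rw [Fintype.card_fin, hde]
  have htop : ∀ j : Fin (e + 1), coeff v (map (S.rd (d + 1)) (VH S A r s (t + 1) j)) =
      coeff v (VF (sg S hpd hd (iterateFrobenius K p (t + 1) A))
        (fun j => sg S hpd hd (iterateFrobenius K p (t + 1) (r j))) (fun _ => 0) j) := by
    intro j
    rw [map_VH S hpd hd, VF_top _ _ _ j v (by omega)]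
  have hcK : ((e + 1 : ℕ) : K)⁻¹ * (Fintype.card (Fin (e + 1)) : K) = 1 := by
    rw [Fintype.card_fin]
    refine inv_mul_cancel₀ ?_
    intro h
    have h1 := (CharP.cast_eq_zero_iff K p (e + 1)).1 h
    have := Nat.le_of_dvd (by omega) h1
    omega
  -- the identity over the field
  have hK := sum_w (iterateFrobenius K p (t + 1) A)
    (fun j => iterateFrobenius K p (t + 1) (r j)) (((e + 1 : ℕ) : K)⁻¹) hcK
    (fun i m => iterateFrobenius K p t (ww r s g i m)) (Fin.castSucc i)
  rw [sum_red] at hK
  have hQ := congrArg (fun F => coeff v (map (sg S hpd hd) F)) hK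
  simp only [map_sum, map_mul, map_C, map_EEm, map_VF, coeff_sum, coeff_C_mul, map_zero] at hQ
  rw [TT_VH S hpd hd hJ f A r s g hdec D hDd hD2 hg hr t (Fin.castSucc i), coeff_add,
    Gam_high _ _ _ _ _ _ (d - D) d d hJ hd
      ((deg_C_mul _ ((hom_deg S hpd hd (d - D) _).trans (gg_deg f g t _ hg))))
      (by
        have h1 : (map (S.rd (d + 1)) (VH S A r s t (Fin.castSucc i))).totalDegree ≤ d - 2 := by
          refine le_trans ?_ (VH_deg S hJ A r s t (Fin.castSucc i))
          unfold MvPolynomial.totalDegree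
          exact Finset.sup_mono (support_map_subset _ _)
        omega) (by omega) v (by omega), add_zero, coeff_neg, coeff_add, coeff_sum]
  simp only [coeff_C_mul, htop]
  have hNK : ∀ j, NK p r s g t j i = red (NM (((e + 1 : ℕ) : K)⁻¹)
      (fun i m => iterateFrobenius K p t (ww r s g i m))) j i := fun j => rfl
  simp only [hNK]
  rw [← hQ]
  have hVF : coeff v (VF (sg S hpd hd (iterateFrobenius K p (t + 1) A))
        (fun j => sg S hpd hd (iterateFrobenius K p (t + 1) (r j))) (fun _ => 0)
        (Fin.castSucc i)) = ∑ m ∈ Finset.univ.erase (Fin.castSucc i),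
        coeff v (EEm (sg S hpd hd (iterateFrobenius K p (t + 1) A))
        (fun j => sg S hpd hd (iterateFrobenius K p (t + 1) (r j))) (fun _ => 0)
        (Fin.castSucc i) m) := by
    rw [VF, coeff_sum]
  have hsq := el_sq S hd
  have e1 : ∑ m ∈ Finset.univ.erase (Fin.castSucc i), el S ^ d *
      (sg S hpd hd (iterateFrobenius K p t (ww r s g (Fin.castSucc i) m)) -
        sg S hpd hd (iterateFrobenius K p t (coeff 0 f))) *
      coeff v (EEm (sg S hpd hd (iterateFrobenius K p (t + 1) A))
        (fun j => sg S hpd hd (iterateFrobenius K p (t + 1) (r j))) (fun _ => 0)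
        (Fin.castSucc i) m) =
      el S ^ d * (∑ m ∈ Finset.univ.erase (Fin.castSucc i),
      sg S hpd hd (iterateFrobenius K p t (ww r s g (Fin.castSucc i) m)) *
      coeff v (EEm (sg S hpd hd (iterateFrobenius K p (t + 1) A))
        (fun j => sg S hpd hd (iterateFrobenius K p (t + 1) (r j))) (fun _ => 0)
        (Fin.castSucc i) m)) - el S ^ d * sg S hpd hd (iterateFrobenius K p t (coeff 0 f)) *
      coeff v (VF (sg S hpd hd (iterateFrobenius K p (t + 1) A))
        (fun j => sg S hpd hd (iterateFrobenius K p (t + 1) (r j))) (fun _ => 0)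
        (Fin.castSucc i)) := by
    rw [hVF, Finset.mul_sum, Finset.mul_sum, ← Finset.sum_sub_distrib]
    refine Finset.sum_congr rfl fun m _ => ?_
    ring
  rw [e1]
  generalize (∑ m ∈ Finset.univ.erase (Fin.castSucc i),
      sg S hpd hd (iterateFrobenius K p t (ww r s g (Fin.castSucc i) m)) *
      coeff v (EEm (sg S hpd hd (iterateFrobenius K p (t + 1) A))
        (fun j => sg S hpd hd (iterateFrobenius K p (t + 1) (r j))) (fun _ => 0)
        (Fin.castSucc i) m)) = Wsum
  generalize coeff v (VF (sg S hpd hd (iterateFrobenius K p (t + 1) A))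
        (fun j => sg S hpd hd (iterateFrobenius K p (t + 1) (r j))) (fun _ => 0)
        (Fin.castSucc i)) = Vv
  generalize sg S hpd hd (iterateFrobenius K p t (coeff 0 f)) = c0
  linear_combination (c0 ^ 2 * Vv - c0 * Wsum) * hsq

end mid

end S0

end Pool.Agent.H856.SO
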