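import Pool.Agent.H856.SO.Link
import Pool.Agent.H856.SO.Det

set_option autoImplicit false
set_option linter.unusedSectionVars false
set_option linter.unusedVariables false

/-!
# The second order term at slope one
-/

namespace Pool.Agent.H856.SO

open Pool.Agent.H425 Pool.Agent.H856.DW Polynomial

/-- the product of the lines plus a small remainder, with nonzero slopes -/
structure Dec {K : Type} [Field K] (d e : ℕ) (f : MvPolynomial (Fin 2) K) (A : K)
    (r s : Fin (e + 1) → K) (g : MvPolynomial (Fin 2) K) (D : ℕ) : Prop where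
  hde : d = e + 1
  hd2 : 2 ≤ d
  hdec : f = PP A r s + g
  hD0 : 0 < D
  hDd : D ≤ d
  hD2 : d + 1 ≤ 2 * D
  hg : g.totalDegree ≤ d - D
  hA : A ≠ 0
  hr : Function.Injective r

namespace S0

variable {p d : ℕ} [hp : Fact p.Prime] {K R : Type} [Field K] [CommRing R] [IsDomain R]
  {S : Setup p d K R} [CharP K p] [IsAlgClosed K]
  {N : ℕ} {f : MvPolynomial (Fin 2) K} {e : ℕ} {b : (Fin 2 → Fin e) → (Fin 2 →₀ ℕ)}

theorem dvd_of_rd {D : ℕ} (hD : D ≤ d + 1) (x : R) (y : S.Q (d + 1))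
    (h : S.rd (d + 1) x = el S ^ D * y) : S.lam ^ D ∣ x := by
  obtain ⟨y', rfl⟩ := Ideal.Quotient.mk_surjective y
  have h1 : S.rd (d + 1) x = S.rd (d + 1) (S.lam ^ D * y') := by
    rw [h, el, map_mul, map_pow]
  rw [S.rd_eq] at h1
  have h2 := (pow_dvd_pow S.lam hD).trans h1
  exact (dvd_sub_left (dvd_mul_right _ _)).1 h2

theorem b_deg (D0 : S.BD N f e b) (u : Fin 2 → Fin e) : (b u).degree = ∑ i, (u i : ℕ) :=
  (D0.hY 0).hb u

/-- a form is the combination of the basis monomials -/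
theorem eq_sum_b (D0 : S.BD N f e b) (V : MvPolynomial (Fin 2) R) (hV : V.totalDegree ≤ d - 2)
    (hd2 : 2 ≤ d) : V = ∑ l, MvPolynomial.C (MvPolynomial.coeff (b l) V) *
      MvPolynomial.monomial (b l) 1 := by
  classical
  have hde := D0.hde
  have hnt : Nontrivial (S.Q N) := DW.S0.nontrivial_Q D0.hN
  ext v
  rw [MvPolynomial.coeff_sum]
  simp only [MvPolynomial.coeff_C_mul, MvPolynomial.coeff_monomial]
  by_cases hv : v.degree < e
  · obtain ⟨u, rfl⟩ := DW.S0.b_surj D0 v hv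
    rw [Finset.sum_eq_single u]
    · rw [if_pos rfl, mul_one]
    · intro l _ hl
      rw [if_neg (fun h => hl (DW.S0.b_inj D0 h)), mul_zero]
    · intro h
      exact absurd (Finset.mem_univ u) h
  · rw [coeff_deg hV v (by omega), Finset.sum_eq_zero]
    intro l _
    by_cases hl : b l = v
    · rw [hl, coeff_deg hV v (by omega), zero_mul]
    · rw [if_neg hl, mul_zero]

theorem TT_sum (c : (Fin 2 →₀ ℕ) → R) (supp : Finset (Fin 2 →₀ ℕ)) {T : Type} (s : Finset T)
    (a : T → R) (F : T → MvPolynomial (Fin 2) R) :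
    TT S c supp (∑ l ∈ s, MvPolynomial.C (a l) * F l) =
      ∑ l ∈ s, MvPolynomial.C (a l) * TT S c supp (F l) := by
  rw [TT, Finset.mul_sum, psi2_sum]
  refine Finset.sum_congr rfl fun l _ => ?_
  rw [TT, ← psi2_C_mul]
  congr 1
  ring

/-- the rows applied to a form -/
theorem row_form (D0 : S.BD N f e b) (hd2 : 2 ≤ d) (t : ℕ) (i : Fin 2 → Fin e)
    (zr : (Fin 2 → Fin e) → R)
    (hz : ∀ j, S.lam ^ (d + 1) ∣ zr j - (1 + S.lam ^ d * S.tc f t 0) *
      MvPolynomial.coeff (b i) (TT S (S.tc f t) (Setup.su f) (MvPolynomial.monomial (b j) 1)))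
    (V : MvPolynomial (Fin 2) R) (hV : V.totalDegree ≤ d - 2) :
    S.lam ^ (d + 1) ∣ ∑ l, zr l * MvPolynomial.coeff (b l) V - (1 + S.lam ^ d * S.tc f t 0) *
      MvPolynomial.coeff (b i) (TT S (S.tc f t) (Setup.su f) V) := by
  have h1 : MvPolynomial.coeff (b i) (TT S (S.tc f t) (Setup.su f) V) =
      ∑ l, MvPolynomial.coeff (b l) V * MvPolynomial.coeff (b i)
        (TT S (S.tc f t) (Setup.su f) (MvPolynomial.monomial (b l) 1)) := by
    conv_lhs => rw [eq_sum_b D0 V hV hd2]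
    rw [TT_sum, MvPolynomial.coeff_sum]
    exact Finset.sum_congr rfl fun l _ => MvPolynomial.coeff_C_mul _ _ _
  rw [h1, Finset.mul_sum, ← Finset.sum_sub_distrib]
  refine Finset.dvd_sum fun l _ => ?_
  obtain ⟨q, hq⟩ := hz l
  refine ⟨q * MvPolynomial.coeff (b l) V, ?_⟩
  linear_combination MvPolynomial.coeff (b l) V * hq

/-- the low block -/
theorem low_block (D0 : S.BD N f e b) (hpd : 2 * d + 3 < p) (hdp : d ∣ p - 1) (t : ℕ)
    (hdet : ∀ w, w < d → (hwm p d (lp d f) w).det ≠ 0) :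
    ((DW.S0.Hm S f b t).submatrix (Subtype.val : {i // DW.S0.lv d i < d} → _)
      Subtype.val).det ≠ 0 := by
  have hde := D0.hde
  have hd : 0 < d := by omega
  have h : ((DW.S0.Hm S f b t).submatrix (Subtype.val : {i // DW.S0.lv d i < d} → _)
      Subtype.val).BlockTriangular (fun x => DW.S0.lv d x.1) := by
    intro x y hxy
    rw [Matrix.submatrix_apply]
    exact DW.S0.Hm_off D0 hdp t x.1 y.1 hxy
  rw [h.det, Finset.prod_ne_zero_iff]
  intro k hk
  rw [Finset.mem_image] at hk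
  obtain ⟨x, _, hx⟩ := hk
  have hk : k < d := by rw [← hx]; exact x.2
  let E : {i : Fin 2 → Fin e // DW.S0.lv d i = k} ≃
      {x : {i : Fin 2 → Fin e // DW.S0.lv d i < d} // DW.S0.lv d x.1 = k} :=
    { toFun := fun i => ⟨⟨i.1, by rw [i.2]; exact hk⟩, i.2⟩
      invFun := fun x => ⟨x.1.1, x.2⟩
      left_inv := fun i => rfl
      right_inv := fun x => rfl }
  rw [← Matrix.det_submatrix_equiv_self E]
  obtain ⟨σ, hσ⟩ := DW.S0.exists_level D0 k hk.le
  have h1 : (((DW.S0.Hm S f b t).submatrix (Subtype.val : {i // DW.S0.lv d i < d} → _)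
      Subtype.val).toSquareBlock (fun x => DW.S0.lv d x.1) k).submatrix E E =
      (DW.S0.Hm S f b t).submatrix (Subtype.val : {i // DW.S0.lv d i = k} → _) Subtype.val := rfl
  rw [h1, DW.S0.Hm_level D0 hpd hdp k hk.le σ hσ t, Matrix.det_submatrix_equiv_self,
    Matrix.det_smul]
  refine mul_ne_zero (pow_ne_zero _ (inv_ne_zero ?_)) ?_
  · refine fac_ne hp.out ?_
    have h3 : (p - 1) * k / d ≤ (p - 1) * d / d :=
      Nat.div_le_div_right (Nat.mul_le_mul_left _ hk.le)
    rw [Nat.mul_div_cancel _ hd] at h3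
    have := hp.out.one_lt
    omega
  · have h3 := RingHom.map_det (iterateFrobenius K p t) (hwm p d (lp d f) k)
    rw [RingHom.mapMatrix_apply] at h3
    rw [← h3, iterateFrobenius_def]
    exact pow_ne_zero _ (hdet k hk)

/-- the matrix of the forms -/
noncomputable def VM (S : Setup p d K R) (b : (Fin 2 → Fin e) → (Fin 2 →₀ ℕ)) (A : K)
    (r s : Fin (e + 1) → K) (σ : {j : Fin 2 → Fin e // DW.S0.lv d j = d} ≃ Fin e) (t : ℕ) :
    Matrix (Fin 2 → Fin e) {j : Fin 2 → Fin e // DW.S0.lv d j = d} R :=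
  fun i j => MvPolynomial.coeff (b i) (VH S A r s t (Fin.castSucc (σ j)))

/-- the lift of the second order matrix -/
noncomputable def NR (S : Setup p d K R) (r s : Fin (e + 1) → K) (g : MvPolynomial (Fin 2) K)
    (σ : {j : Fin 2 → Fin e // DW.S0.lv d j = d} ≃ Fin e) (t : ℕ) :
    Matrix {j : Fin 2 → Fin e // DW.S0.lv d j = d} {j : Fin 2 → Fin e // DW.S0.lv d j = d} R :=
  fun l j => S.tau (NK p r s g t (σ l) (σ j))

theorem exists_sig (D0 : S.BD N f e b) :
    Nonempty ({j : Fin 2 → Fin e // DW.S0.lv d j = d} ≃ Fin e) := by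
  obtain ⟨σ, _⟩ := DW.S0.exists_level D0 d le_rfl
  have hde := D0.hde
  exact ⟨σ.trans (finCongr (by omega))⟩

theorem lv_mid (hd2 : 2 ≤ d) (D0 : S.BD N f e b) (i : Fin 2 → Fin e) :
    DW.S0.lv d i = d ↔ (b i).degree + 2 = d := by
  rw [b_deg D0, DW.S0.lv]
  omega

theorem lv_low (D0 : S.BD N f e b) (i : Fin 2 → Fin e) :
    DW.S0.lv d i < d ↔ (b i).degree + 2 < d := by
  rw [b_deg D0, DW.S0.lv]
  omega

theorem lv_high (D0 : S.BD N f e b) (i : Fin 2 → Fin e) :
    d < DW.S0.lv d i ↔ d < (b i).degree + 2 := by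
  rw [b_deg D0, DW.S0.lv]
  omega

/-- the forms at infinity are a basis -/
theorem VM_det (D0 : S.BD N f e b) (A : K) (r s : Fin (e + 1) → K)
    (g : MvPolynomial (Fin 2) K) {D : ℕ} (hdc : Dec d e f A r s g D) (hdp : ((e + 1 : ℕ) : K) ≠ 0)
    (σ : {j : Fin 2 → Fin e // DW.S0.lv d j = d} ≃ Fin e) :
    ((((VM S b A r s σ 0).submatrix (Subtype.val : {j // DW.S0.lv d j = d} → _) id).map
      S.res)).det ≠ 0 := by
  have hde := D0.hde
  have hd2 := hdc.hd2
  intro h
  obtain ⟨v, hv0, hv⟩ := Matrix.exists_mulVec_eq_zero_iff.2 h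
  apply hv0
  have hent : ∀ (i : Fin 2 → Fin e) (j : Fin (e + 1)), S.res (MvPolynomial.coeff (b i)
      (VH S A r s 0 j)) = MvPolynomial.coeff (b i) (VF A r (fun _ => 0) j) := by
    intro i j
    rw [← MvPolynomial.coeff_map, VH, map_VF]
    simp only [S.res_tau, map_mul, S.res_lam, mul_zero, iterateFrobenius_def, pow_zero, pow_one]
  have hc : (fun j => v (σ.symm j)) = 0 := by
    refine VF_indep hdp A hdc.hA r hdc.hr _ ?_
    ext w
    rw [MvPolynomial.coeff_sum, MvPolynomial.coeff_zero]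
    simp only [MvPolynomial.coeff_C_mul]
    by_cases hw : w.degree + 2 = d
    · obtain ⟨u, rfl⟩ := DW.S0.b_surj D0 w (by omega)
      have h1 := congrFun hv ⟨u, (lv_mid hd2 D0 u).2 hw⟩
      rw [Matrix.mulVec, dotProduct, Pi.zero_apply] at h1
      refine Eq.trans ?_ h1
      refine Fintype.sum_equiv σ.symm _ _ fun j => ?_
      rw [Matrix.map_apply, Matrix.submatrix_apply, VM, id, hent, Equiv.apply_symm_apply, mul_comm]
    · refine Finset.sum_eq_zero fun j _ => ?_
      rw [(VF_homog A r (Fin.castSucc j)).coeff_eq_zero (by rw [Fintype.card_fin]; omega), mul_zero]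
  funext j
  have h1 := congrFun hc (σ j)
  rw [Equiv.symm_apply_apply] at h1
  exact h1

/-- **the second order term at slope one** -/
theorem loc2 (D0 : S.BD N f e b) (hpd : 3 * d + 3 < p) (hdp : d ∣ p - 1) (hN : (p - 1) * d < N)
    (m : ℕ) (A : K) (r s : Fin (e + 1) → K) (g : MvPolynomial (Fin 2) K) {D : ℕ}
    (hdc : Dec d e f A r s g D)
    (hA : iterateFrobenius K p (m + 1) A = A) (hr : ∀ j, iterateFrobenius K p (m + 1) (r j) = r j)
    (hs : ∀ j, iterateFrobenius K p (m + 1) (s j) = s j)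
    (hdet : ∀ w, w < d → (hwm p d (lp d f) w).det ≠ 0) :
    ∃ (M : Matrix (Fin 2 → Fin e) (Fin 2 → Fin e) R) (Pz G2 : R[X]) (u u' : K),
      u ≠ 0 ∧ u' ≠ 0 ∧ M.map (S.rd N) = prodn (Setup.Bt D0) (m + 1) ∧
      (M.charpoly.comp (C ((p : R) ^ (m + 1)) * X)).comp (1 + C (S.lam ^ d) * X) * Pz =
        C (S.lam ^ (DW.S0.Ex p d e m + E0 m (DW.S0.lv d : (Fin 2 → Fin e) → ℕ) d)) * G2 ∧
      Pz.map S.res = C u' ∧
      G2.map S.res = C u * (∑ t ∈ Finset.range (m + 1), NK p r s g t).charpoly := by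
  have hde := D0.hde
  have hp1 := hp.out.one_lt
  have hd : 0 < d := by omega
  have hd2 := hdc.hd2
  have hDd := hdc.hDd
  have hJ : Fintype.card (Fin (e + 1)) = d := by rw [Fintype.card_fin, hde]
  obtain ⟨σ⟩ := exists_sig D0
  choose z0 hz1' hz2' hz3' hz4' using exists_z2 D0 hpd hN
  obtain ⟨z, hz1, hz2, hz3, hz4⟩ : ∃ z : ℕ → Matrix (Fin 2 → Fin e) (Fin 2 → Fin e) R,
      (∀ t i j, Setup.Bt D0 t i j = S.rd N (S.lam ^ ((p - 1) * min (DW.S0.lv d i) d) * z t i j)) ∧
      (∀ t i j, S.res (z t i j) = DW.S0.Hm S f b t i j) ∧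
      (∀ (t : ℕ) (i j : Fin 2 → Fin e), ∑ l, (i l : ℕ) + 2 ≤ d → S.lam ^ (d + 1) ∣ z t i j -
        (1 + S.lam ^ d * S.tc f t 0) * MvPolynomial.coeff (b i) (TT S (S.tc f t) (Setup.su f)
          (MvPolynomial.monomial (b j) 1))) ∧
      (∀ (t : ℕ) (i j : Fin 2 → Fin e), d < ∑ l, (i l : ℕ) + 2 → S.lam ^ (d + 1) ∣ z t i j) :=
    ⟨z0, hz1', hz2', hz3', hz4'⟩
  have hek : ((e + 1 : ℕ) : K) ≠ 0 := by
    intro h
    have h1 := (CharP.cast_eq_zero_iff K p (e + 1)).1 h
    have := Nat.le_of_dvd (by omega) h1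
    omega
  have hzV : ∀ t i (j : {j : Fin 2 → Fin e // DW.S0.lv d j = d}), (b i).degree + 2 ≤ d →
      S.lam ^ (d + 1) ∣ (z t * VM S b A r s σ t) i j - (1 + S.lam ^ d * S.tc f t 0) *
      MvPolynomial.coeff (b i) (TT S (S.tc f t) (Setup.su f)
        (VH S A r s t (Fin.castSucc (σ j)))) := by
    intro t i j hi
    rw [Matrix.mul_apply]
    refine row_form D0 hd2 t i (fun l => z t i l) (fun l => hz3 t i l ?_) _ (VH_deg S hJ A r s t _)
    rw [← b_deg D0]
    exact hi
  obtain ⟨Pz, G2, u, u', hu, hu', h1, h2, h3⟩ := spec2 S m (DW.S0.lv d) z (VM S b A r s σ)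
    (NR S r s g σ) (by omega) hp1 D hdc.hD2 (by omega) (by omega)
    (by
      intro t i j hi
      refine hz4 t i j ?_
      have := (lv_high D0 i).1 hi
      rwa [b_deg D0] at this)
    (by
      intro t i j hi hj
      have hi' := (lv_mid hd2 D0 i).1 hi
      have hj' := (lv_low D0 j).1 hj
      have e1 := hz3 t i j (by rw [← b_deg D0]; exact hi'.le)
      obtain ⟨y, hy⟩ := val_row S hpd hd hJ f A r s g hdc.hdec D hDd hdc.hD2 hdc.hg t (b j) (b i)
        hj' (by omega)
      rw [MvPolynomial.coeff_map] at hy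
      have e2 := dvd_of_rd (by omega) _ _ hy
      have e3 := (pow_dvd_pow S.lam (by omega : D ≤ d + 1)).trans e1
      exact (dvd_sub_left (Dvd.dvd.mul_left e2 _)).1 e3)
    (by
      intro t i j hi
      rw [VM]
      refine coeff_deg (VH_deg S hJ A r s t _) _ ?_
      have := (lv_high D0 i).1 hi
      omega)
    (by
      intro t i j hi
      have hi' := (lv_low D0 i).1 hi
      have e1 := hzV t i j hi'.le
      obtain ⟨y, hy⟩ := val_low S hpd hd hJ f A r s g hdc.hdec D hDd hdc.hD2 hdc.hg hdc.hr t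
        (Fin.castSucc (σ j)) (b i) hi'
      rw [MvPolynomial.coeff_map] at hy
      have e2 := dvd_of_rd (by omega) _ _ hy
      have e3 := (pow_dvd_pow S.lam (by omega : D ≤ d + 1)).trans e1
      exact (dvd_sub_left (Dvd.dvd.mul_left e2 _)).1 e3)
    (by
      intro t i j hi
      have hi' := (lv_mid hd2 D0 i).1 hi
      have e1 := hzV t i j hi'.le
      have hmid := val_mid S hpd hd hde f A r s g hdc.hdec D hdc.hD0 hDd hdc.hD2 hdc.hg hd2 hdc.hr
        t (σ j) (b i) hi'
      have htc : S.rd (d + 1) (S.tc f t 0) =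
          sg S hpd hd (iterateFrobenius K p t (MvPolynomial.coeff 0 f)) := by
        rw [Setup.tc, map_pow (S.rd _), iterateFrobenius_def, map_pow (sg S hpd hd), sg_apply]
      have hTT : S.rd (d + 1) (MvPolynomial.coeff (b i) (TT S (S.tc f t) (Setup.su f)
          (VH S A r s t (Fin.castSucc (σ j))))) = MvPolynomial.coeff (b i)
          (MvPolynomial.map (S.rd (d + 1)) (TT S (S.tc f t) (Setup.su f)
          (VH S A r s t (Fin.castSucc (σ j))))) := (MvPolynomial.coeff_map _ _ _).symm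
      rw [← S.rd_eq_zero] at e1 ⊢
      rw [map_sub, map_mul (S.rd (d + 1)) (1 + S.lam ^ d * S.tc f t 0), map_add, map_one, map_mul,
        map_pow, htc, hTT, ← el, hmid, sub_eq_zero] at e1
      rw [map_add, map_add, e1, map_mul, map_pow, ← el, VM, MvPolynomial.coeff_map]
      have e4 : S.rd (d + 1) ((VM S b A r s σ (t + 1) * NR S r s g σ t) i j) =
          ∑ j', sg S hpd hd (NK p r s g t j' (σ j)) * MvPolynomial.coeff (b i)
            (MvPolynomial.map (S.rd (d + 1)) (VH S A r s (t + 1) (Fin.castSucc j'))) := by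
        rw [Matrix.mul_apply, map_sum]
        refine Fintype.sum_equiv σ _ _ fun l => ?_
        rw [map_mul, VM, NR, MvPolynomial.coeff_map, sg_apply, mul_comm]
      rw [e4]
      ring)
    (by
      intro i j
      rw [VM, VM, VH, VH]
      simp only [hA, hr, hs]
      simp only [iterateFrobenius_def, pow_zero, pow_one])
    (by
      intro t
      have e1 : (z t).map S.res =
          DW.S0.Hm S f b t := by
        ext i j
        rw [Matrix.map_apply]
        exact hz2 t i j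
      rw [e1]
      exact low_block D0 (by omega) hdp t hdet)
    (VM_det D0 A r s g hdc hek σ)
  refine ⟨prodn (scl S (DW.S0.lv d) z) (m + 1), Pz, G2, u, u', hu, hu', ?_, ?_, h2, ?_⟩
  · rw [← prodn_map]
    congr 1
    funext t
    ext i j
    rw [Matrix.map_apply, hz1]
    rfl
  · rw [scaled_det, mul_comp, C_comp, comp_cyc, mul_assoc, h1, pow_add, C_mul]
    rw [DW.S0.Ex]
    ring
  · rw [h3]
    congr 1
    have e1 : (∑ t ∈ Finset.range (m + 1), NR S r s g σ t).map S.res =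
        (∑ t ∈ Finset.range (m + 1), NK p r s g t).submatrix σ σ := by
      ext i j
      rw [Matrix.map_apply, Matrix.submatrix_apply, Matrix.sum_apply, Matrix.sum_apply, map_sum]
      refine Finset.sum_congr rfl fun t _ => ?_
      rw [NR, S.res_tau]
    rw [e1]
    have h4 := Matrix.charpoly_reindex σ.symm (∑ t ∈ Finset.range (m + 1), NK p r s g t)
    rw [Matrix.reindex_apply, Equiv.symm_symm] at h4
    exact h4

end S0

end Pool.Agent.H856.SO
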