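import Pool.Agent.H856.SO.Form

set_option autoImplicit false
set_option linter.unusedSectionVars false
set_option linter.unusedVariables false

/-!
# The Cartier operator and the `p`-th power of `P + g`, modulo `p` times a nilpotent
-/

namespace Pool.Agent.H856.SO

open Pool.Agent.H425 MvPolynomial

variable {p : ℕ} [hp : Fact p.Prime] {B : Type} [CommRing B]

theorem pow_split {A : Type} [CommRing A] (x y : A) :
    ∃ r : A, (x + y) ^ p = x ^ p + p * (x ^ (p - 1) * y) + y ^ p + p * (y ^ 2 * r) := by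
  have hp1 := hp.out.two_le
  have h := (Commute.all x y).add_pow_prime_eq hp.out
  have hmem : p - 1 ∈ Finset.Ioo 0 p := by rw [Finset.mem_Ioo]; omega
  rw [← Finset.add_sum_erase _ _ hmem] at h
  have hch : p.choose (p - 1) / p = 1 := by
    have : p.choose (p - 1) = p := by
      rw [← Nat.choose_symm (by omega : p - 1 ≤ p)]
      have : p - (p - 1) = 1 := by omega
      rw [this, Nat.choose_one_right]
    rw [this, Nat.div_self hp.out.pos]
  have hex : ∀ k ∈ (Finset.Ioo 0 p).erase (p - 1), ∃ r : A,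
      x * y * (x ^ (k - 1) * y ^ (p - k - 1) * ((p.choose k / p : ℕ) : A)) = y ^ 2 * r := by
    intro k hk
    rw [Finset.mem_erase, Finset.mem_Ioo] at hk
    refine ⟨x * x ^ (k - 1) * y ^ (p - k - 2) * ((p.choose k / p : ℕ) : A), ?_⟩
    have e1 : y ^ (p - k - 1) = y * y ^ (p - k - 2) := by
      rw [← pow_succ']
      congr 1
      omega
    rw [e1]
    ring
  choose! r hr using hex
  refine ⟨∑ k ∈ (Finset.Ioo 0 p).erase (p - 1), r k, ?_⟩
  rw [h, hch, Finset.mul_sum, ← Finset.sum_congr rfl hr, ← Finset.mul_sum]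
  have e2 : x ^ (p - 1) = x * x ^ (p - 1 - 1) := by
    rw [← pow_succ']
    congr 1
    omega
  have e3 : p - (p - 1) - 1 = 0 := by omega
  rw [e2, e3]
  push_cast
  ring

/-- `p`-th powers are polynomials in the `p`-th powers, modulo `p` -/
theorem frob_form (F : MvPolynomial (Fin 2) B) :
    ∃ G H : MvPolynomial (Fin 2) B, F ^ p = expand p G + p * H := by
  induction F using MvPolynomial.induction_on with
  | C a => exact ⟨C (a ^ p), 0, by rw [expand_C, C_pow]; ring⟩
  | add F F' h h' =>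
    obtain ⟨G, H, h1⟩ := h
    obtain ⟨G', H', h2⟩ := h'
    obtain ⟨r, hr⟩ := (Commute.all F F').exists_add_pow_prime_eq hp.out
    refine ⟨G + G', H + H' + F * F' * r, ?_⟩
    rw [hr, h1, h2, map_add]
    ring
  | mul_X F i h =>
    obtain ⟨G, H, h1⟩ := h
    refine ⟨G * X i, H * X i ^ p, ?_⟩
    rw [mul_pow, h1, map_mul, expand_X]
    ring

theorem add_pow_deg {F G : MvPolynomial (Fin 2) B} (hF : F.totalDegree ≤ 1)
    (hG : G.totalDegree ≤ 1) :
    ∃ H : MvPolynomial (Fin 2) B, (F + G) ^ p = F ^ p + G ^ p + p * H ∧ H.totalDegree ≤ p := by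
  refine ⟨∑ k ∈ Finset.Ioo 0 p, F ^ k * G ^ (p - k) * ((p.choose k / p : ℕ) : MvPolynomial (Fin 2) B),
    (Commute.all F G).add_pow_prime_eq' hp.out, ?_⟩
  refine totalDegree_finsetSum_le fun k hk => ?_
  rw [Finset.mem_Ioo] at hk
  have h1 : ((p.choose k / p : ℕ) : MvPolynomial (Fin 2) B) = C ((p.choose k / p : ℕ) : B) :=
    (map_natCast C _).symm
  rw [h1, mul_comm]
  refine deg_C_mul _ ?_
  have := deg_mul (deg_pow hF k) (deg_pow hG (p - k))
  omega

/-- the `p`-th power of a line -/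
theorem ell_pow' (r c : B) : ∃ G H : MvPolynomial (Fin 2) B,
    ell r c ^ p = expand p G + p * H ∧ H.totalDegree ≤ p := by
  obtain ⟨H1, h1, h2⟩ := add_pow_deg (p := p) (F := X 0 + C (-r) * X 1) (G := C (-c))
    (deg_add (deg_X 0) (deg_C_mul _ (deg_X 1))) ((totalDegree_C _).le.trans (by omega))
  obtain ⟨H2, h3, h4⟩ := add_pow_deg (p := p) (F := (X 0 : MvPolynomial (Fin 2) B))
    (G := C (-r) * X 1) (deg_X 0) (deg_C_mul _ (deg_X 1))
  refine ⟨X 0 + C ((-r) ^ p) * X 1 + C ((-c) ^ p), H2 + H1, ?_, deg_add h4 h2⟩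
  have e1 : ell r c = X 0 + C (-r) * X 1 + C (-c) := by
    rw [ell, C_neg, C_neg]; ring
  rw [e1, h1, h3, map_add, map_add, map_mul, expand_X, expand_X, expand_C, expand_C, mul_pow,
    C_pow, C_pow]
  ring

variable {J : Type} [Fintype J] [DecidableEq J]

theorem prod_pow_form (hp2 : (p : B) ^ 2 = 0) (r c : J → B) (n : ℕ) (hn : n + 2 < p) (T : Finset J) :
    ∃ G R : MvPolynomial (Fin 2) B, (∏ j ∈ T, ell (r j) (c j)) ^ p = expand p G + p * R ∧
      ∀ V : MvPolynomial (Fin 2) B, V.totalDegree ≤ n → C (p : B) * psi2 p (R * V) = 0 := by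
  have hC : (C (p : B) : MvPolynomial (Fin 2) B) = (p : MvPolynomial (Fin 2) B) := map_natCast C p
  have hCC : (C (p : B) : MvPolynomial (Fin 2) B) * C (p : B) = 0 := by
    rw [← C_mul, ← sq, hp2, C_0]
  induction T using Finset.induction_on with
  | empty =>
    refine ⟨1, 0, ?_, ?_⟩
    · rw [Finset.prod_empty, one_pow, map_one]; ring
    · intro V _
      rw [zero_mul, psi2_zero, mul_zero]
  | insert a s ha ih =>
    obtain ⟨G, R, h1, h2⟩ := ih
    obtain ⟨G', H, h3, h4⟩ := ell_pow' (p := p) (r a) (c a)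
    refine ⟨G' * G, expand p G' * R + expand p G * H + C (p : B) * (H * R), ?_, ?_⟩
    · rw [Finset.prod_insert ha, mul_pow, h1, h3, map_mul, hC]
      ring
    · intro V hV
      have e1 : (expand p G' * R + expand p G * H + C (p : B) * (H * R)) * V =
          expand p G' * (R * V) + expand p G * (H * V) + C (p : B) * (H * R * V) := by ring
      rw [e1, psi2_add, psi2_add, psi2_expand, psi2_expand, psi2_C_mul,
        psi2_small (deg_mul h4 hV) (by omega)]
      have e2 := h2 V hV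
      linear_combination G' * e2 + psi2 p (H * R * V) * hCC

/-- **the Cartier operator and the `p`-th power of `P + g`** -/
theorem psi2_pow_p (hp2 : (p : B) ^ 2 = 0) (l : B) (E D : ℕ) (hpl : (p : B) * l ^ E = 0)
    (hlp : (l ^ E) ^ p = 0) (hD : E ≤ 2 * D) (hDp : E ≤ D * p) (A : B) (r c : J → B)
    (g' h V : MvPolynomial (Fin 2) B) (n : ℕ) (hn : n + 2 < p) (hV : V.totalDegree ≤ n) :
    psi2 p ((PP A r c + C (l ^ D) * g' + C (l ^ E) * h) ^ p * V) =
      C (p : B) * psi2 p (PP A r c ^ (p - 1) * (C (l ^ D) * g') * V) := by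
  have hC : (C (p : B) : MvPolynomial (Fin 2) B) = (p : MvPolynomial (Fin 2) B) := map_natCast C p
  have hmul : ∀ k, E ≤ k → (p : B) * l ^ k = 0 := by
    intro k hk
    rw [← Nat.add_sub_cancel' hk, pow_add, ← mul_assoc, hpl, zero_mul]
  have hCm : ∀ k, E ≤ k → (p : MvPolynomial (Fin 2) B) * C (l ^ k) = 0 := by
    intro k hk
    rw [← hC, ← C_mul, hmul k hk, C_0]
  -- the last summand
  obtain ⟨q, hq⟩ := (Commute.all (PP A r c + C (l ^ D) * g') (C (l ^ E) * h)).exists_add_pow_prime_eq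
    hp.out
  have e1 : (PP A r c + C (l ^ D) * g' + C (l ^ E) * h) ^ p =
      (PP A r c + C (l ^ D) * g') ^ p := by
    rw [hq, mul_pow, ← C_pow, hlp, C_0, zero_mul, add_zero]
    have := hCm E le_rfl
    linear_combination (PP A r c + C (l ^ D) * g') * h * q * this
  rw [e1]
  obtain ⟨q, hq⟩ := pow_split (p := p) (PP A r c) (C (l ^ D) * g')
  have e2 : (p : MvPolynomial (Fin 2) B) * ((C (l ^ D) * g') ^ 2 * q) = 0 := by
    have h1 : (C (l ^ D) * g') ^ 2 = C (l ^ (2 * D)) * g' ^ 2 := by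
      rw [mul_pow, ← C_pow, ← pow_mul, mul_comm D 2]
    have h2 := hCm (2 * D) hD
    rw [h1]
    linear_combination g' ^ 2 * q * h2
  rw [hq, e2, add_zero, add_mul, add_mul, psi2_add, psi2_add]
  -- the first power
  obtain ⟨G, R, h1, h2⟩ := prod_pow_form (p := p) hp2 r c n hn Finset.univ
  have e3 : psi2 p (PP A r c ^ p * V) = 0 := by
    have e4 : PP A r c ^ p * V = C (A ^ p) * (expand p G * V + C (p : B) * (R * V)) := by
      rw [PP, mul_pow, h1, C_pow, hC]; ring
    rw [e4, psi2_C_mul, psi2_add, psi2_expand, psi2_C_mul, h2 V hV, psi2_small hV (by omega)]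
    ring
  -- the second power
  obtain ⟨G, H, h1⟩ := frob_form (p := p) g'
  have e5 : psi2 p ((C (l ^ D) * g') ^ p * V) = 0 := by
    have e6 : (C (l ^ D) * g') ^ p * V = C (l ^ (D * p)) * (expand p G * V + C (p : B) * (H * V)) := by
      rw [mul_pow, h1, ← C_pow, ← pow_mul, hC]; ring
    have e7 := hCm (D * p) hDp
    rw [e6, psi2_C_mul, psi2_add, psi2_expand, psi2_C_mul, psi2_small hV (by omega), hC]
    linear_combination psi2 p (H * V) * e7
  rw [e3, e5, zero_add, add_zero, ← hC, mul_assoc (C (p : B)), psi2_C_mul]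

end Pool.Agent.H856.SO
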