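import Pool.Agent.H856.SO.Val
import Pool.Agent.H856.DW.Loc

set_option autoImplicit false
set_option linter.unusedSectionVars false
set_option linter.unusedVariables false

/-!
# The rows of the Frobenius matrices to the second order
-/

namespace Pool.Agent.H856.SO

open Pool.Agent.H425 MvPolynomial

namespace S0

variable {p d : ℕ} [hp : Fact p.Prime] {K R : Type} [Field K] [CommRing R] [IsDomain R]
  {S : Setup p d K R}

/-- the entries of the kernel to the second order -/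
noncomputable def KK (S : Setup p d K R) (f : MvPolynomial (Fin 2) K) (t : ℕ)
    (V U : Fin 2 →₀ ℕ) : R :=
  open Classical in if U ≤ p • V then coeff (p • V - U) (∑ m ∈ Finset.range (p + 1),
    DD S (S.tc f t) (Setup.su f) m) else 0

theorem KK_TT (f : MvPolynomial (Fin 2) K) (t : ℕ) (v u : Fin 2 →₀ ℕ) :
    KK S f t (v + oneA Finset.univ) (u + oneA Finset.univ) =
      coeff v (TT S (S.tc f t) (Setup.su f) (monomial u 1)) := by
  classical
  have hp1 := hp.out.pos
  have h0 : ∀ i, (oneA (Finset.univ : Finset (Fin 2))) i = 1 := by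
    intro i
    rw [oneA_apply, if_pos (Finset.mem_univ i)]
  have hix : ∀ i, (ix Finset.univ p v) i + 1 = p * (v i + 1) := by
    intro i
    rw [ix_apply, h0, Nat.sub_add_cancel (Nat.mul_pos hp1 (Nat.succ_pos _))]
  rw [KK, TT, coeff_psi2, coeff_mul_monomial', mul_one]
  have hiff : u + oneA Finset.univ ≤ p • (v + oneA Finset.univ) ↔ u ≤ ix Finset.univ p v := by
    constructor
    · intro h i
      have h1 := h i
      rw [Finsupp.smul_apply, Finsupp.add_apply, Finsupp.add_apply, h0, smul_eq_mul] at h1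
      have := hix i
      omega
    · intro h i
      have h1 := h i
      rw [Finsupp.smul_apply, Finsupp.add_apply, Finsupp.add_apply, h0, smul_eq_mul]
      have := hix i
      omega
  by_cases h : u ≤ ix Finset.univ p v
  · rw [if_pos (hiff.2 h), if_pos h]
    congr 1
    ext i
    rw [Finsupp.tsub_apply, Finsupp.tsub_apply, Finsupp.smul_apply, Finsupp.add_apply,
      Finsupp.add_apply, h0, smul_eq_mul]
    have := hix i
    omega
  · rw [if_neg (fun h' => h (hiff.1 h')), if_neg h]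

/-- the kernel to the second order -/
theorem ker_second (hd : 0 < d) (hpd : 3 * d + 3 < p) (f : MvPolynomial (Fin 2) K)
    (hf : f.totalDegree ≤ d) (t : ℕ) (V U : Fin 2 →₀ ℕ) (hV : V.degree ≤ d) (hU : U ≠ 0) :
    ∃ z : R, S.ker (Setup.su f) (S.tc f t) V U = S.lam ^ ((p - 1) * V.degree) * z ∧
      S.lam ^ (d + 1) ∣ z - KK S f t V U := by
  classical
  have hp1 := hp.out.pos
  by_cases h : U ≤ p • V
  · have hspec := (S.ker_spec (by omega) (Setup.su f) (S.tc f t) (Setup.su_zero _)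
      (Setup.su_degree _ hf) V U).2
    rw [Setup.Gk, if_pos h] at hspec
    have hdeg : (p • V - U).degree + U.degree = p * V.degree := by
      rw [← map_add, tsub_add_cancel_of_le h, map_nsmul, smul_eq_mul]
    have hU' := Setup.degree_pos hU
    obtain ⟨z, hz1, hz2⟩ := FF_second S hd hpd (S.tc f t) (Setup.su f) (Setup.su_zero _)
      (Setup.su_degree _ hf) (p • V - U) (by
        have : p * V.degree ≤ p * d := Nat.mul_le_mul_left _ hV
        omega)
    refine ⟨z, ?_, ?_⟩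
    · rw [hz1] at hspec
      apply mul_left_cancel₀ (pow_ne_zero V.degree S.lam_ne)
      rw [hspec, ← mul_assoc, ← mul_assoc, ← pow_add, ← pow_add]
      congr 2
      have h2 : (p - 1) * V.degree + V.degree = p * V.degree := by
        calc (p - 1) * V.degree + V.degree = (p - 1 + 1) * V.degree := by ring
          _ = _ := by rw [Nat.sub_add_cancel hp1]
      omega
    · rw [KK, if_pos h]
      exact hz2
  · refine ⟨0, ?_, ?_⟩
    · rw [S.ker_eq_zero (by omega) (Setup.su f) (S.tc f t) (Setup.su_zero _)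
        (Setup.su_degree _ hf) V U h, mul_zero]
    · rw [KK, if_neg h, sub_zero]
      exact dvd_zero _

theorem kap_second (hp5 : 5 ≤ p) (hd : 1 ≤ d) (N : ℕ) (f : MvPolynomial (Fin 2) K) (t : ℕ) :
    ∃ k : R, S.kap N f t = S.rd N k ∧ S.lam ^ (d + 1) ∣ k - (1 + S.lam ^ d * S.tc f t 0) := by
  refine ⟨S.thR (3 * N + 2) (S.tc f t 0), ?_, ?_⟩
  · rw [Setup.kap, S.eval_thp (by omega) hd N (3 * N + 2) (by omega)]
  · have h := S.thR_first hp5 hd (3 * N + 2) (by omega) (S.tc f t 0)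
    exact (pow_dvd_pow _ (by omega)).trans h

variable {N : ℕ} {f : MvPolynomial (Fin 2) K} {e : ℕ} {b : (Fin 2 → Fin e) → (Fin 2 →₀ ℕ)}

theorem high_dvd2 (hd : 1 ≤ d) (hpd : 3 * d + 3 < p) {w : ℕ} (hw : d < w) :
    (p - 1) * d + d + 1 ≤ (p - 3) * w := by
  obtain ⟨q, rfl⟩ : ∃ q, p = q + 3 := ⟨p - 3, by omega⟩
  have h1 : q + 3 - 3 = q := by omega
  have h2 : q + 3 - 1 = q + 2 := by omega
  rw [h1, h2]
  have h3 : q * (d + 1) ≤ q * w := Nat.mul_le_mul_left _ hw
  nlinarith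

variable [CharP K p]

/-- **the rows up to the middle level, to the second order** -/
theorem Bt_low2 (D : S.BD N f e b) (hpd : 3 * d + 3 < p)
    (t : ℕ) (u' u : Fin 2 → Fin e) (hu' : ∑ i, (u' i : ℕ) + 2 ≤ d) :
    ∃ z : R, Setup.Bt D t u' u = S.rd N (S.lam ^ ((p - 1) * (∑ i, (u' i : ℕ) + 2)) * z) ∧
      S.lam ^ (d + 1) ∣ z - (1 + S.lam ^ d * S.tc f t 0) *
        coeff (b u') (TT S (S.tc f t) (Setup.su f) (monomial (b u) 1)) := by
  classical
  have hde := D.hde
  have hp5 := D.hp5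
  have hd1 : 1 ≤ d := by omega
  set w := ∑ i, (u' i : ℕ) + 2 with hwdef
  set Z := S.alt N f Finset.univ t (monomial (b u) 1) with hZ
  have hcoeff : ∀ v, coeff v Z = S.kap N f t *
      S.kb N (Setup.su f) (S.tc f t) (v + oneA Finset.univ) (b u + oneA Finset.univ) := by
    intro v
    rw [hZ, S.coeff_alt (by omega) N f D.hf, mul_one]
  have hone : (b u + oneA (Finset.univ : Finset (Fin 2))) ≠ 0 := by
    intro h
    have h1 := congrArg Finsupp.degree h
    rw [map_add, degree_oneA, Finset.card_univ, map_zero, Fintype.card_fin] at h1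
    omega
  have hdeg1 : ∀ v : Fin 2 →₀ ℕ, (v + oneA (Finset.univ : Finset (Fin 2))).degree =
      v.degree + 2 := by
    intro v
    rw [map_add, degree_oneA, Finset.card_univ, Fintype.card_fin]
  have hdvd : ∀ v : Fin 2 →₀ ℕ, ∑ i, (u' i : ℕ) < v.degree →
      (S.rd N S.lam) ^ ((p - 1) * w + d + 1) ∣ coeff v Z := by
    intro v hv
    rw [hcoeff]
    refine Dvd.dvd.mul_left ?_ _
    rw [Setup.kb, ← map_pow]
    refine map_dvd (S.rd N) ?_
    by_cases hvd : v.degree + 2 ≤ d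
    · obtain ⟨z, hz, _⟩ := ker_second (S := S) (by omega) hpd f D.hf t
        (v + oneA Finset.univ) (b u + oneA Finset.univ) (by rw [hdeg1]; exact hvd) hone
      rw [hz, hdeg1]
      refine Dvd.dvd.mul_right (pow_dvd_pow _ ?_) _
      have h1 : (p - 1) * (w + 1) ≤ (p - 1) * (v.degree + 2) :=
        Nat.mul_le_mul_left _ (by omega)
      rw [mul_add, mul_one] at h1
      omega
    · have h1 := (S.ker_spec (by omega) (Setup.su f) (S.tc f t) (Setup.su_zero f)
        (Setup.su_degree f D.hf) (v + oneA Finset.univ) (b u + oneA Finset.univ)).1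
      rw [hdeg1] at h1
      refine (pow_dvd_pow _ ?_).trans h1
      have h2 := high_dvd2 hd1 hpd (w := v.degree + 2) (by omega)
      have h3 : (p - 1) * w ≤ (p - 1) * d := Nat.mul_le_mul_left _ hu'
      omega
  obtain ⟨y, hy⟩ := DW.S0.row_approx D (t + 1) u' (by omega) ((p - 1) * w + d + 1) Z hdvd
  obtain ⟨y', rfl⟩ := Ideal.Quotient.mk_surjective y
  obtain ⟨k, hk1, hk2⟩ := kap_second (S := S) hp5 hd1 N f t
  have hbdeg : (b u').degree = ∑ i, (u' i : ℕ) := (D.hY 0).hb u'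
  obtain ⟨z, hz1, hz2⟩ := ker_second (S := S) (by omega) hpd f D.hf t
    (b u' + oneA Finset.univ) (b u + oneA Finset.univ) (by rw [hdeg1, hbdeg]; exact hu') hone
  rw [hdeg1, hbdeg, ← hwdef] at hz1
  rw [KK_TT] at hz2
  refine ⟨k * z + S.lam ^ (d + 1) * y', ?_, ?_⟩
  · have h1 : Setup.Bt D t u' u = coeff (emb u') ((Setup.EE D (t + 1)).symm Z) := by
      rw [Setup.Bt, Setup.gop_apply, DW.S0.EE_emb]
    have h2 : coeff (b u') Z = S.rd N (k * (S.lam ^ ((p - 1) * w) * z)) := by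
      rw [hcoeff, hk1, Setup.kb, hz1, ← map_mul]
    have h3 : coeff (emb u') ((Setup.EE D (t + 1)).symm Z) = coeff (b u') Z +
        (S.rd N S.lam) ^ ((p - 1) * w + d + 1) * S.rd N y' := by
      rw [← sub_eq_iff_eq_add', ← hy]
    rw [h1, h3, h2, ← map_pow, ← map_mul, ← map_add]
    congr 1
    ring
  · obtain ⟨q1, hq1⟩ := hk2
    obtain ⟨q2, hq2⟩ := hz2
    refine ⟨q1 * z + (1 + S.lam ^ d * S.tc f t 0) * q2 + y', ?_⟩
    linear_combination z * hq1 + (1 + S.lam ^ d * S.tc f t 0) * hq2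

theorem Bt_high2 (D : S.BD N f e b) (hpd : 3 * d + 3 < p)
    (t : ℕ) (u' u : Fin 2 → Fin e) (hu' : d < ∑ i, (u' i : ℕ) + 2) :
    ∃ z : R, Setup.Bt D t u' u = S.rd N (S.lam ^ ((p - 1) * d) * z) ∧ S.lam ^ (d + 1) ∣ z := by
  have hde := D.hde
  have h1 := Setup.Bt_dvd D t u' u
  rw [Fintype.card_fin] at h1
  obtain ⟨y, hy⟩ := (pow_dvd_pow (S.rd N S.lam) (high_dvd2 (by omega) hpd hu')).trans h1
  obtain ⟨y', rfl⟩ := Ideal.Quotient.mk_surjective y
  refine ⟨S.lam ^ (d + 1) * y', ?_, dvd_mul_right _ _⟩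
  rw [hy, ← map_pow, ← map_mul]
  congr 1
  ring

theorem res_unique {N w : ℕ} (hw : w < N) (x y : R)
    (h : S.rd N (S.lam ^ w * x) = S.rd N (S.lam ^ w * y)) : S.res x = S.res y := by
  rw [S.rd_eq] at h
  obtain ⟨c, hc⟩ := h
  obtain ⟨k, hk⟩ := Nat.exists_eq_add_of_lt hw
  have h1 : S.lam ^ w * (x - y) = S.lam ^ w * (S.lam * (S.lam ^ k * c)) := by
    rw [mul_sub, hc, hk]
    ring
  have h2 := mul_left_cancel₀ (pow_ne_zero w S.lam_ne) h1
  have h3 := congrArg S.res h2
  rw [map_sub, map_mul, S.res_lam, zero_mul, sub_eq_zero] at h3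
  exact h3

/-- **the entries of the Frobenius matrices** -/
theorem exists_z2 (D : S.BD N f e b) (hpd : 3 * d + 3 < p) (hN : (p - 1) * d < N) (t : ℕ)
    (i j : Fin 2 → Fin e) :
    ∃ z : R, Setup.Bt D t i j = S.rd N (S.lam ^ ((p - 1) * min (DW.S0.lv d i) d) * z) ∧
      S.res z = DW.S0.Hm S f b t i j ∧
      (∑ l, (i l : ℕ) + 2 ≤ d → S.lam ^ (d + 1) ∣ z - (1 + S.lam ^ d * S.tc f t 0) *
        coeff (b i) (TT S (S.tc f t) (Setup.su f) (monomial (b j) 1))) ∧
      (d < ∑ l, (i l : ℕ) + 2 → S.lam ^ (d + 1) ∣ z) := by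
  obtain ⟨z', h1', h2'⟩ := DW.S0.exists_z D (by omega) t i j
  by_cases h : ∑ l, (i l : ℕ) + 2 ≤ d
  · obtain ⟨z, h1, h2⟩ := Bt_low2 D hpd t i j h
    have hm : min (DW.S0.lv d i) d = ∑ l, (i l : ℕ) + 2 := by
      rw [DW.S0.lv]
      omega
    rw [hm] at h1' ⊢
    refine ⟨z, h1, ?_, fun _ => h2, fun h' => absurd h' (by omega)⟩
    rw [← h2']
    refine res_unique (N := N) (w := (p - 1) * (∑ l, (i l : ℕ) + 2)) ?_ z z' (h1.symm.trans h1')
    have : (p - 1) * (∑ l, (i l : ℕ) + 2) ≤ (p - 1) * d := Nat.mul_le_mul_left _ h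
    omega
  · obtain ⟨z, h1, h2⟩ := Bt_high2 D hpd t i j (by omega)
    have hm : min (DW.S0.lv d i) d = d := by
      rw [DW.S0.lv]
      omega
    rw [hm] at h1' ⊢
    exact ⟨z, h1, (res_unique (N := N) hN z z' (h1.symm.trans h1')).trans h2',
      fun h' => absurd h' h, fun _ => h2⟩

end S0

end Pool.Agent.H856.SO
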