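import Pool.Agent.H856.SO.Hom
import Pool.Agent.H856.DW.Loc

set_option autoImplicit false
set_option linter.unusedSectionVars false
set_option linter.unusedVariables false

/-!
# The second order terms of the kernel
-/

namespace Pool.Agent.H856.SO

open Pool.Agent.H425 MvPolynomial

section psi

variable {p : ℕ} [hp : Fact p.Prime] {A B : Type} [CommRing A] [CommRing B]

theorem psi2_map (φ : A →+* B) (F : MvPolynomial (Fin 2) A) :
    map φ (psi2 p F) = psi2 p (map φ F) := by
  ext v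
  rw [coeff_map, coeff_psi2, coeff_psi2, coeff_map]

theorem add_pow_sq {x y : A} (h : y ^ 2 = 0) (m : ℕ) :
    (x + y) ^ m = x ^ m + m * (x ^ (m - 1) * y) := by
  induction m with
  | zero => simp
  | succ m ih =>
    rw [pow_succ, ih, Nat.add_sub_cancel]
    cases m with
    | zero => simp
    | succ m =>
      rw [Nat.add_sub_cancel]
      push_cast
      linear_combination ((m : A) + 1) * x ^ m * h

theorem wil [CharP A p] : (((p - 1).factorial : ℕ) : A) = -1 := by
  have h1 := ZMod.wilsons_lemma p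
  have h2 := congrArg (ZMod.castHom (dvd_refl p) A) h1
  rw [map_natCast, map_neg, map_one] at h2
  exact h2

theorem map_PP {J : Type} [Fintype J] [DecidableEq J] (φ : A →+* B) (a : A) (r s : J → A) :
    map φ (PP a r s) = PP (φ a) (fun j => φ (r j)) (fun j => φ (s j)) := by
  rw [PP, PP, map_mul, map_C, map_prod]
  congr 1
  refine Finset.prod_congr rfl fun j _ => ?_
  rw [ell, ell, map_sub, map_sub, map_mul, map_C, map_C, map_X, map_X]

theorem map_pow_p {J : Type} [Fintype J] [DecidableEq J] (φ : A →+* B) (hp2 : (p : B) ^ 2 = 0)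
    (l : A) (E D : ℕ) (hpl : (p : B) * φ l ^ E = 0)
    (hlp : (φ l ^ E) ^ p = 0) (hD : E ≤ 2 * D) (hDp : E ≤ D * p) (a : A) (r s : J → A)
    (g' h V : MvPolynomial (Fin 2) A) (n : ℕ) (hn : n + 2 < p) (hV : V.totalDegree ≤ n) :
    map φ (psi2 p ((PP a r s + C (l ^ D) * g' + C (l ^ E) * h) ^ p * V)) =
      map φ (C (p : A) * psi2 p (PP a r s ^ (p - 1) * (C (l ^ D) * g') * V)) := by
  have h1 := psi2_pow_p hp2 (φ l) E D hpl hlp hD hDp (φ a) (fun j => φ (r j)) (fun j => φ (s j))
    (map φ g') (map φ h) (map φ V) n hn (by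
      refine le_trans ?_ hV
      unfold MvPolynomial.totalDegree
      exact Finset.sup_mono (support_map_subset φ V))
  rw [← map_PP φ a r s] at h1
  rw [psi2_map, map_mul (map φ), map_mul (map φ), psi2_map]
  have e1 : map φ ((PP a r s + C (l ^ D) * g' + C (l ^ E) * h) ^ p) =
      (map φ (PP a r s) + C (φ l ^ D) * map φ g' + C (φ l ^ E) * map φ h) ^ p := by
    rw [map_pow (map φ), map_add, map_add, map_mul, map_mul, map_C, map_C, map_pow φ, map_pow φ]
  have e2 : map φ (PP a r s ^ (p - 1) * (C (l ^ D) * g') * V) =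
      map φ (PP a r s) ^ (p - 1) * (C (φ l ^ D) * map φ g') * map φ V := by
    rw [map_mul, map_mul, map_mul, map_pow (map φ), map_C, map_pow φ]
  rw [e1, e2, h1, map_C, map_natCast φ p]

end psi

namespace S0

variable {p d : ℕ} [hp : Fact p.Prime] {K R : Type} [Field K] [CommRing R] [IsDomain R]
  (S : Setup p d K R)

/-- the sum of the scaled monomials -/
noncomputable def sm (c : (Fin 2 →₀ ℕ) → R) (supp : Finset (Fin 2 →₀ ℕ)) : MvPolynomial (Fin 2) R :=
  ∑ u ∈ supp, mnl S c u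

/-- the divided powers -/
noncomputable def DD (c : (Fin 2 →₀ ℕ) → R) (supp : Finset (Fin 2 →₀ ℕ)) (m : ℕ) :
    MvPolynomial (Fin 2) R :=
  open Classical in Dm p (fun j => C (hf R j)) (mnl S c) supp m

include S in
theorem hfC (j : ℕ) (hj : j < p) :
    (j.factorial : MvPolynomial (Fin 2) R) * C (hf R j) = 1 := by
  have h1 : ((j.factorial : ℕ) : MvPolynomial (Fin 2) R) = C ((j.factorial : ℕ) : R) :=
    (map_natCast C _).symm
  rw [h1, ← C_mul, hf_spec S j hj, C_1]

theorem DD_small (c : (Fin 2 →₀ ℕ) → R) (supp : Finset (Fin 2 →₀ ℕ)) (m : ℕ) (hm : m < p) :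
    DD S c supp m = C (hf R m) * sm S c supp ^ m := by
  classical
  have h1 := Dm_small (p := p) (fun j => C (hf R j)) (fun j hj => hfC S j hj) (mnl S c) supp m hm
  have h2 := hfC S m hm
  have h3 : DD S c supp m = Dm p (fun j => C (hf R j)) (mnl S c) supp m := by
    rw [DD]
  rw [sm, ← h1, ← h3]
  linear_combination (-DD S c supp m) * h2

theorem DD_p (c : (Fin 2 →₀ ℕ) → R) (supp : Finset (Fin 2 →₀ ℕ)) :
    (p.factorial : MvPolynomial (Fin 2) R) * DD S c supp p =
      sm S c supp ^ p - ∑ u ∈ supp, mnl S c u ^ p := by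
  classical
  have h1 := Dm_p (p := p) hp.out.pos (fun j => C (hf R j)) (fun j hj => hfC S j hj) (mnl S c) supp
  have h3 : DD S c supp p = Dm p (fun j => C (hf R j)) (mnl S c) supp p := by
    rw [DD]
  rw [h3, h1, sm]

variable (hd : 0 < d) (hpd : 3 * d + 3 < p) {J : Type} [Fintype J] [DecidableEq J]

include hd hpd in
/-- the divided `p`-th power, over `R` -/
theorem lemA (c : (Fin 2 →₀ ℕ) → R) (supp : Finset (Fin 2 →₀ ℕ)) (D : ℕ) (hD : d + 1 ≤ 2 * D)
    (A : R) (r s : J → R) (g' h V : MvPolynomial (Fin 2) R)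
    (hs : sm S c supp = PP A r s + C (S.lam ^ D) * g' + C (S.lam ^ (d + 1)) * h)
    (n : ℕ) (hn : n + 2 < p) (hV : V.totalDegree ≤ n) (v : Fin 2 →₀ ℕ) :
    S.lam ^ (d + 1) ∣ coeff v (C (((p - 1).factorial : ℕ) : R) * psi2 p (DD S c supp p * V) -
      psi2 p (PP A r s ^ (p - 1) * (C (S.lam ^ D) * g') * V)) := by
  have hp1 := hp.out.one_lt
  -- the identity over `R`
  have h1 : C ((p.factorial : ℕ) : R) * psi2 p (DD S c supp p * V) =
      psi2 p (sm S c supp ^ p * V) := by
    rw [← psi2_C_mul, ← mul_assoc]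
    have e1 : (C ((p.factorial : ℕ) : R) : MvPolynomial (Fin 2) R) =
      ((p.factorial : ℕ) : MvPolynomial (Fin 2) R) := map_natCast C _
    rw [e1, DD_p, sub_mul, psi2_sub, Finset.sum_mul, psi2_sum, Finset.sum_eq_zero, sub_zero]
    intro u _
    have e2 : mnl S c u ^ p = expand p (monomial u ((c u * S.lam ^ (d - u.degree)) ^ p)) := by
      rw [mnl, monomial_pow, expand_monomial]
    rw [e2, psi2_expand, psi2_small hV (by omega), mul_zero]
  -- modulo `λ ^ (d p + 1)`
  set φ := S.rd (d * p + 1) with hφ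
  have hp2 : d * p = d * (p - 1) + d := by
    have : p = (p - 1) + 1 := by omega
    conv_lhs => rw [this, mul_add, mul_one]
  have hpR : (p : R) = -S.lam ^ (d * (p - 1)) := by rw [S.lam_pow]; ring
  have hdp2 : 2 * d + 1 ≤ d * p := by
    have : d * 3 ≤ d * p := Nat.mul_le_mul_left _ (by omega)
    omega
  have hz : ∀ x : R, S.lam ^ (d * p + 1) ∣ x → φ x = 0 := fun x hx => (S.rd_eq_zero _ _).2 hx
  have hc1 : (p : S.Q (d * p + 1)) ^ 2 = 0 := by
    have e4 : (p : S.Q (d * p + 1)) ^ 2 = φ ((p : R) ^ 2) := by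
      rw [map_pow, map_natCast]
    rw [e4]
    refine hz _ ?_
    rw [hpR, neg_sq, ← pow_mul]
    exact pow_dvd_pow _ (by omega)
  have hc2 : (p : S.Q (d * p + 1)) * φ S.lam ^ (d + 1) = 0 := by
    have e4 : (p : S.Q (d * p + 1)) * φ S.lam ^ (d + 1) = φ ((p : R) * S.lam ^ (d + 1)) := by
      rw [map_mul, map_pow, map_natCast]
    rw [e4]
    refine hz _ ?_
    rw [hpR, neg_mul, ← pow_add]
    exact (dvd_neg).2 (pow_dvd_pow _ (by omega))
  have hc3 : (φ S.lam ^ (d + 1)) ^ p = 0 := by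
    rw [← map_pow, ← map_pow]
    refine hz _ ?_
    rw [← pow_mul]
    refine pow_dvd_pow _ ?_
    rw [add_mul]
    omega
  have h2 := map_pow_p φ hc1 S.lam (d + 1) D hc2 hc3 hD (by
      have : D * 2 ≤ D * p := Nat.mul_le_mul_left _ (by omega)
      omega) A r s g' h V n hn hV
  rw [← hs] at h2
  have h3 : map φ (C ((p : ℕ) : R) * (C (((p - 1).factorial : ℕ) : R) * psi2 p (DD S c supp p * V) -
      psi2 p (PP A r s ^ (p - 1) * (C (S.lam ^ D) * g') * V))) = 0 := by
    have e4 : C ((p : ℕ) : R) * (C (((p - 1).factorial : ℕ) : R) * psi2 p (DD S c supp p * V) -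
        psi2 p (PP A r s ^ (p - 1) * (C (S.lam ^ D) * g') * V)) =
        psi2 p (sm S c supp ^ p * V) -
        C ((p : ℕ) : R) * psi2 p (PP A r s ^ (p - 1) * (C (S.lam ^ D) * g') * V) := by
      rw [← h1]
      have e5 : ((p.factorial : ℕ) : R) = (p : R) * (((p - 1).factorial : ℕ) : R) := by
        rw [← Nat.cast_mul, Nat.mul_factorial_pred hp.out.ne_zero]
      rw [e5, C_mul]
      ring
    rw [e4, map_sub, h2, sub_self]
  have h4 := congrArg (coeff v) h3
  rw [coeff_map, coeff_zero, hφ, S.rd_eq_zero, coeff_C_mul] at h4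
  obtain ⟨q, hq⟩ := h4
  refine ⟨-q, ?_⟩
  apply mul_left_cancel₀ S.p_ne
  rw [hq, hpR]
  have h5 : d * p + 1 = d * (p - 1) + (d + 1) := by omega
  rw [h5, pow_add]
  ring

variable [CharP K p] [IsAlgClosed K]

/-- the total operator -/
noncomputable def TT (c : (Fin 2 →₀ ℕ) → R) (supp : Finset (Fin 2 →₀ ℕ))
    (V : MvPolynomial (Fin 2) R) : MvPolynomial (Fin 2) R :=
  psi2 p ((∑ m ∈ Finset.range (p + 1), DD S c supp m) * V)

theorem d_le (hd : 0 < d) (hpd : 3 * d + 3 < p) : d + 1 ≤ d * (p - 1) := by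
  have : d * 2 ≤ d * (p - 1) := Nat.mul_le_mul_left _ (by omega)
  omega

include hd hpd in
/-- the operator modulo `λ ^ (d + 1)` -/
theorem lemD (c : (Fin 2 →₀ ℕ) → R) (supp : Finset (Fin 2 →₀ ℕ)) (D : ℕ) (hD : d + 1 ≤ 2 * D)
    (A : S.Q (d + 1)) (r s : J → S.Q (d + 1)) (g' : MvPolynomial (Fin 2) (S.Q (d + 1)))
    (V : MvPolynomial (Fin 2) R)
    (hs : map (S.rd (d + 1)) (sm S c supp) = PP A r s + C (el S ^ D) * g')
    (n : ℕ) (hn : n + 2 < p) (hV : V.totalDegree ≤ n) :
    map (S.rd (d + 1)) (TT S c supp V) =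
      ∑ m ∈ Finset.range p, C (S.rd (d + 1) (hf R m)) *
        psi2 p ((PP A r s + C (el S ^ D) * g') ^ m * map (S.rd (d + 1)) V) -
      psi2 p (PP A r s ^ (p - 1) * (C (el S ^ D) * g') * map (S.rd (d + 1)) V) := by
  have hN := d_le hd hpd
  have hch := charP_Q S hN (by omega)
  -- lifts
  obtain ⟨A, rfl⟩ := Ideal.Quotient.mk_surjective A
  have hr : ∃ r' : J → R, r = fun j => S.rd (d + 1) (r' j) := by
    choose r' hr' using fun j => Ideal.Quotient.mk_surjective (r j)
    exact ⟨r', funext fun j => (hr' j).symm⟩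
  have hs' : ∃ s' : J → R, s = fun j => S.rd (d + 1) (s' j) := by
    choose s' hs' using fun j => Ideal.Quotient.mk_surjective (s j)
    exact ⟨s', funext fun j => (hs' j).symm⟩
  obtain ⟨r, rfl⟩ := hr
  obtain ⟨s, rfl⟩ := hs'
  obtain ⟨g', rfl⟩ := map_surjective (S.rd (d + 1)) Ideal.Quotient.mk_surjective g'
  have e3 : map (S.rd (d + 1)) (PP A r s) =
      PP (S.rd (d + 1) A) (fun j => S.rd (d + 1) (r j)) (fun j => S.rd (d + 1) (s j)) :=
    map_PP (S.rd (d + 1)) A r s
  -- the difference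
  have e6 : map (S.rd (d + 1)) (PP A r s + C (S.lam ^ D) * g') =
      map (S.rd (d + 1)) (sm S c supp) := by
    rw [hs, map_add, e3, map_mul, map_C, map_pow (S.rd (d + 1))]
    rfl
  have hdiff : ∀ v, S.lam ^ (d + 1) ∣ coeff v (sm S c supp - (PP A r s + C (S.lam ^ D) * g')) := by
    intro v
    rw [← S.rd_eq_zero, ← coeff_map, map_sub, e6, sub_self, coeff_zero]
  choose q hq using hdiff
  have hex : sm S c supp = PP A r s + C (S.lam ^ D) * g' + C (S.lam ^ (d + 1)) *
      (∑ v ∈ (sm S c supp - (PP A r s + C (S.lam ^ D) * g')).support, monomial v (q v)) := by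
    rw [← sub_eq_iff_eq_add']
    ext v
    rw [coeff_C_mul, coeff_sum]
    simp only [coeff_monomial]
    rw [Finset.sum_ite_eq']
    split_ifs with h
    · exact hq v
    · rw [mul_zero]
      exact notMem_support_iff.1 h
  have hA := lemA S hd hpd c supp D hD A r s g' _ V hex n hn hV
  have h1 : map (S.rd (d + 1)) (psi2 p (DD S c supp p * V)) =
      -psi2 p (map (S.rd (d + 1)) (PP A r s) ^ (p - 1) * (C (el S ^ D) * map (S.rd (d + 1)) g') *
        map (S.rd (d + 1)) V) := by
    have h2 : map (S.rd (d + 1)) (C (((p - 1).factorial : ℕ) : R) * psi2 p (DD S c supp p * V) -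
      psi2 p (PP A r s ^ (p - 1) * (C (S.lam ^ D) * g') * V)) = 0 := by
      ext v
      rw [coeff_map, coeff_zero, S.rd_eq_zero]
      exact hA v
    rw [map_sub, map_mul, map_C, map_natCast, wil, sub_eq_zero] at h2
    rw [el, ← map_pow (S.rd (d + 1)), ← map_C (σ := Fin 2) (S.rd (d + 1)), ← map_pow, ← map_mul,
      ← map_mul, ← map_mul, ← psi2_map, ← h2, C_neg, C_1]
    ring
  rw [TT, Finset.sum_range_succ, add_mul, Finset.sum_mul, psi2_add, psi2_sum, map_add, map_sum, h1,
    e3, sub_eq_add_neg]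
  congr 1
  refine Finset.sum_congr rfl fun m hm => ?_
  rw [Finset.mem_range] at hm
  rw [DD_small S c supp m hm, mul_assoc, psi2_C_mul, map_mul, map_C, psi2_map, map_mul, map_pow, hs]

end S0

end Pool.Agent.H856.SO
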