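import Pool.Agent.H856.SO.Loc
import Pool.Agent.H856.DW.Trans

set_option autoImplicit false
set_option linter.unusedSectionVars false
set_option linter.unusedVariables false

/-!
# From the truncated rings to the cyclotomic field, second order
-/

namespace Pool.Agent.H856.SO

open Pool.Agent.H425 Pool.Agent.H856.DW Polynomial

/-- the first nonzero Taylor coefficient -/
theorem taylor_ne2 {K : Type} [Field K] (P : K[X]) (hP : P ≠ 0) (u : K) (hu : u ≠ 0) (c : K) :
    ((C u * P).comp (X + C c)).coeff (P.rootMultiplicity c) ≠ 0 := by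
  rw [mul_comp, C_comp, coeff_C_mul]
  refine mul_ne_zero hu ?_
  rw [rootMultiplicity_eq_natTrailingDegree, ← trailingCoeff]
  rw [Ne, trailingCoeff_eq_zero]
  intro h
  apply hP
  have h3 : P = (P.comp (X + C c)).comp (X - C c) := by
    rw [comp_assoc, add_comp, X_comp, C_comp, sub_add_cancel, comp_X]
  rw [h3, h, zero_comp]

namespace S0

variable {p d : ℕ} [hp : Fact p.Prime] {K R : Type} [Field K] [CommRing R] [IsDomain R]
  {F : Type} [Field F] [Algebra ℚ F] [IsCyclotomicExtension {p} ℚ F]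

theorem zb_pow (S : Setup p d K R) (hd : 0 < d) (u0 : R) (hu0 : S.res u0 = 1) (n : ℕ) :
    ∃ y : R, (1 + S.lam ^ d * u0) ^ n = 1 + S.lam ^ d * y ∧ S.res y = n := by
  induction n with
  | zero => exact ⟨0, by ring, by simp⟩
  | succ n ih =>
    obtain ⟨y, h1, h2⟩ := ih
    refine ⟨y + u0 + S.lam ^ d * y * u0, ?_, ?_⟩
    · rw [pow_succ, h1]; ring
    · rw [map_add, map_add, map_mul, map_mul, map_pow, S.res_lam, zero_pow (by omega), h2, hu0]
      push_cast
      ring

/-- the key computation with polynomials -/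
theorem key (S : Setup p d K R) (hd : 0 < d) (Φ Pz G2 : R[X]) (E : ℕ)
    (h : Φ.comp (1 + C (S.lam ^ d) * X) * Pz = C (S.lam ^ E) * G2)
    (χ : K[X]) (hχ : χ ≠ 0) (u : K) (hu : u ≠ 0) (hG2 : G2.map S.res = C u * χ)
    (zb y : R) (hzb : zb = 1 + S.lam ^ d * y) (c : K) (hy : S.res y = c)
    (a N : ℕ) (w v : R) (hw : w = S.lam ^ a * v) (hv : S.res v ≠ 0)
    (hN : a + E < N)
    (hdiv : ∀ k, k ≤ χ.rootMultiplicity c → S.lam ^ N ∣
      w * ((Φ.comp (C zb * X)).comp (X + C 1)).coeff k) : False := by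
  set P := (Φ.comp (C zb * X)).comp (X + C 1) with hP
  set L : R[X] := C y + C zb * X with hL
  have h1 : P.comp (C (S.lam ^ d) * X) = (Φ.comp (1 + C (S.lam ^ d) * X)).comp L := by
    rw [hP, comp_assoc, comp_assoc, comp_assoc]
    congr 1
    rw [mul_comp, C_comp, X_comp, add_comp, X_comp, C_comp, add_comp, one_comp, mul_comp, C_comp,
      X_comp, hL, hzb, C_add, C_1, C_mul]
    ring
  have h2 : P.comp (C (S.lam ^ d) * X) * Pz.comp L = C (S.lam ^ E) * G2.comp L := by
    rw [h1, ← mul_comp, h, mul_comp, C_comp]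
  have h3 := congrArg (fun F => w * F.coeff (χ.rootMultiplicity c)) h2
  beta_reduce at h3
  have h4 : S.lam ^ N ∣ w * (P.comp (C (S.lam ^ d) * X) * Pz.comp L).coeff
      (χ.rootMultiplicity c) := by
    rw [coeff_mul, Finset.mul_sum]
    refine Finset.dvd_sum fun x hx => ?_
    rw [Finset.HasAntidiagonal.mem_antidiagonal] at hx
    have h5 : (P.comp (C (S.lam ^ d) * X)).coeff x.1 = P.coeff x.1 * (S.lam ^ d) ^ x.1 := by
      rw [comp_C_mul_X_coeff]
    rw [h5]
    obtain ⟨q, hq⟩ := hdiv x.1 (by omega)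
    refine ⟨q * (S.lam ^ d) ^ x.1 * (Pz.comp L).coeff x.2, ?_⟩
    linear_combination (S.lam ^ d) ^ x.1 * (Pz.comp L).coeff x.2 * hq
  rw [h3, coeff_C_mul, hw] at h4
  have h5 : S.res ((G2.comp L).coeff (χ.rootMultiplicity c)) ≠ 0 := by
    rw [← coeff_map, Polynomial.map_comp, hL, Polynomial.map_add, Polynomial.map_mul, map_C, map_C,
      map_X, hy, hzb, map_add, map_one, map_mul, map_pow, S.res_lam, zero_pow (by omega), zero_mul,
      add_zero, C_1, one_mul, hG2, add_comm]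
    exact taylor_ne2 χ hχ u hu c
  have h6 : S.lam ^ a * v * (S.lam ^ E * (G2.comp L).coeff (χ.rootMultiplicity c)) =
      S.lam ^ (a + E) * (v * (G2.comp L).coeff (χ.rootMultiplicity c)) := by
    rw [pow_add]; ring
  rw [h6, ← S.rd_eq_zero] at h4
  refine S.ord_ne_zero ?_ hN h4
  rw [map_mul]
  exact mul_ne_zero hv h5

/-- **the transfer to the cyclotomic field** -/
theorem trans2 (S : Setup p d K R) [CharP K p] [IsAlgClosed K] (hd : 2 ≤ d) (hpd : 3 * d + 3 < p)
    (hdp : d ∣ p - 1) (f : MvPolynomial (Fin 2) K) (hf : f.totalDegree = d)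
    (hsm : ∀ x : Fin 2 → K, (∀ i, x i * MvPolynomial.eval x (MvPolynomial.pderiv i
      (MvPolynomial.homogeneousComponent d f)) = 0) → x = 0)
    (hdet : ∀ w, w < d → (hwm p d (lp d f) w).det ≠ 0) (m : ℕ)
    (hfm : ∀ s, MvPolynomial.coeff s f ^ (p ^ (m + 1)) = MvPolynomial.coeff s f)
    (A : K) (r s : Fin (d - 1 + 1) → K) (g : MvPolynomial (Fin 2) K) {D : ℕ}
    (hdc : Dec d (d - 1) f A r s g D)
    (hA : iterateFrobenius K p (m + 1) A = A) (hr : ∀ j, iterateFrobenius K p (m + 1) (r j) = r j)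
    (hs : ∀ j, iterateFrobenius K p (m + 1) (s j) = s j)
    (ζ : F) (hζ : IsPrimitiveRoot ζ p) (c : ℕ → F) (hc0 : c 0 = 1)
    (hc : ∀ r, ((r + 1 : ℕ) : F) * c (r + 1) =
      -∑ j ∈ Finset.range (r + 1), expSum p f ((m + 1) * (j + 1)) ζ * c (r - j)) (bb : ℕ) :
    ∃ k, k ≤ (∑ t ∈ Finset.range (m + 1), NK p r s g t).charpoly.rootMultiplicity (bb : K) ∧
      Tk c ((d - 1) ^ 2) ((p : F) ^ (m + 1) * ζ ^ bb) k ≠ 0 := by
  have hp5 : 5 ≤ p := by omega
  obtain ⟨b, hb⟩ := S.exists_BD hp5 hd f hf hsm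
  have hch : CharZero F := charZero_of_injective_algebraMap (algebraMap ℚ F).injective
  have hcardI : Fintype.card (Fin 2 → Fin (d - 1)) = (d - 1) ^ 2 := by
    rw [Fintype.card_pi]
    simp
  have hcom : ∀ N, 1 ≤ N → ∀ D : S.BD N f (d - 1) b, ∀ r, ∃ P : ℤ[X],
      aeval ζ P = (r.factorial : F) * c r ∧
      aeval (S.zet N) P = (r.factorial : S.Q N) * (cs (prodn (Setup.Bt D) (m + 1))).coeff r := by
    intro N hN D r
    refine exists_common (fun j => Epoly p f ((m + 1) * j)) (-1) ζ (S.zet N) c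
      (fun r => (cs (prodn (Setup.Bt D) (m + 1))).coeff r) hc0 (cs_zero _) ?_ ?_ r
    · intro r
      simp only [aeval_Epoly]
      rw [hc r]
      push_cast
      ring
    · intro r
      have h1 := Setup.rec_cs D (by rw [Fintype.card_fin]; omega) (m + 1) (by omega) hfm r
      rw [h1, Fintype.card_fin]
      norm_num
  set χ := (∑ t ∈ Finset.range (m + 1), NK p r s g t).charpoly with hχ
  set n := (d - 1) ^ 2 with hn
  by_contra hcon
  push Not at hcon
  obtain ⟨a, v, hv1, hv2⟩ := DW.S0.exists_pow_mul S n.factorial (Nat.factorial_ne_zero n)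
  set E := DW.S0.Ex p d (d - 1) m + E0 m (DW.S0.lv d : (Fin 2 → Fin (d - 1)) → ℕ) d with hE
  set N := a + E + (p - 1) * d + 1 with hN
  have hN1 : 1 ≤ N := by omega
  set D0 := hb N hN1 with hD0
  have hnt : Nontrivial (S.Q N) := DW.S0.nontrivial_Q hN1
  obtain ⟨M, Pz, G2, u, u', hu, hu', h1, h2, h3, h4⟩ := loc2 D0 hpd hdp (by omega) m A r s g hdc
    hA hr hs hdet
  obtain ⟨u0, hu0, hz⟩ := S.zet_sub_one hp5 (by omega) N
  obtain ⟨y, hy1, hy2⟩ := zb_pow S (by omega) u0 hu0 bb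
  have hzet : S.zet N = S.rd N (1 + S.lam ^ d * u0) := by
    rw [map_add, map_one, ← hz]
    ring
  refine key S (by omega) (M.charpoly.comp (C ((p : R) ^ (m + 1)) * X)) Pz G2 E h2 χ
    (Matrix.charpoly_monic _).ne_zero u hu h4 _ y hy1 (bb : K) hy2 a N (n.factorial : R) v hv1 hv2
    (by omega) ?_
  intro k hk
  choose P hP1 hP2 using hcom N hN1 D0
  have hfac : ∀ r ∈ Finset.range (n + 1), n.factorial = n.descFactorial (n - r) * r.factorial := by
    intro r hr
    rw [Finset.mem_range] at hr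
    have := Nat.factorial_mul_descFactorial (n := n) (k := n - r) (by omega)
    rw [← this, mul_comm]
    congr 2
    omega
  let Q : ℤ[X] := ∑ r ∈ Finset.range (n + 1), C ((n.descFactorial (n - r) : ℕ) : ℤ) * P r *
    (C ((p : ℤ) ^ (m + 1)) * X ^ bb) ^ (n - r) * C (((n - r).choose k : ℕ) : ℤ)
  have hQ1 : aeval ζ Q = (n.factorial : F) * Tk c n ((p : F) ^ (m + 1) * ζ ^ bb) k := by
    rw [map_sum, Tk, Finset.mul_sum]
    refine Finset.sum_congr rfl fun r hr => ?_
    rw [hfac r hr]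
    simp only [map_mul, map_pow, aeval_C, aeval_X, hP1]
    simp only [eq_intCast]
    push_cast
    ring
  have hQ2 : aeval (S.zet N) Q = (n.factorial : S.Q N) *
      Tk (fun r => (cs (prodn (Setup.Bt D0) (m + 1))).coeff r) n
        ((p : S.Q N) ^ (m + 1) * S.zet N ^ bb) k := by
    rw [map_sum, Tk, Finset.mul_sum]
    refine Finset.sum_congr rfl fun r hr => ?_
    rw [hfac r hr]
    simp only [map_mul, map_pow, aeval_C, aeval_X, hP2]
    simp only [eq_intCast]
    push_cast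
    ring
  rw [hcon k hk, mul_zero] at hQ1
  have hQ3 := zet_of_zeta hζ (S.zet N) (S.zet_cyclo hp5 (by omega) N) Q hQ1
  rw [hQ2, ← taylor_PP, ← hcardI, ← charpoly_PP, ← h1] at hQ3
  have h5 : (M.map (S.rd N)).charpoly = M.charpoly.map (S.rd N) := Matrix.charpoly_map M (S.rd N)
  have h6 : ((M.charpoly.map (S.rd N)).comp (C ((p : S.Q N) ^ (m + 1) * S.zet N ^ bb) * X)).comp
      (X + C 1) = (((M.charpoly.comp (C ((p : R) ^ (m + 1)) * X)).comp
      (C ((1 + S.lam ^ d * u0) ^ bb) * X)).comp (X + C 1)).map (S.rd N) := by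
    have e1 : S.rd N ((p : R) ^ (m + 1) * (1 + S.lam ^ d * u0) ^ bb) =
        (p : S.Q N) ^ (m + 1) * S.zet N ^ bb := by
      rw [map_mul, map_pow, map_natCast, map_pow, hzet]
    have e2 : S.rd N (1 : R) = 1 := map_one _
    have e3 : (M.charpoly.comp (C ((p : R) ^ (m + 1)) * X)).comp
        (C ((1 + S.lam ^ d * u0) ^ bb) * X) = M.charpoly.comp
        (C ((p : R) ^ (m + 1) * (1 + S.lam ^ d * u0) ^ bb) * X) := by
      rw [comp_assoc, mul_comp, C_comp, X_comp, C_mul, mul_assoc]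
    rw [e3, Polynomial.map_comp, Polynomial.map_comp, Polynomial.map_mul, map_C, map_X,
      Polynomial.map_add, map_X, map_C, e1, e2]
  rw [h5, h6, coeff_map] at hQ3
  have h7 : (Fintype.card (Fin 2 → Fin (d - 1))).factorial = n.factorial := by rw [hcardI]
  rw [h7, ← map_natCast (S.rd N), ← map_mul, S.rd_eq_zero] at hQ3
  exact hQ3

end S0

end Pool.Agent.H856.SO
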