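import Pool.Agent.H856.SO.Sec

set_option autoImplicit false
set_option linter.unusedSectionVars false
set_option linter.unusedVariables false

/-!
# The values of the second order operator
-/

namespace Pool.Agent.H856.SO

open Pool.Agent.H425 MvPolynomial

variable {p : ℕ} [hp : Fact p.Prime] {B : Type} [CommRing B] {J : Type} [Fintype J] [DecidableEq J]

/-- the operator -/
noncomputable def TV (p : ℕ) (hfm : ℕ → B) (A : B) (r s : J → B) (g V : MvPolynomial (Fin 2) B) :
    MvPolynomial (Fin 2) B :=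
  ∑ m ∈ Finset.range p, C (hfm m) * psi2 p ((PP A r s + g) ^ m * V) -
    psi2 p (PP A r s ^ (p - 1) * g * V)

/-- the part with one `g` -/
noncomputable def Gam (p : ℕ) (hfm : ℕ → B) (A : B) (r s : J → B) (g V : MvPolynomial (Fin 2) B) :
    MvPolynomial (Fin 2) B :=
  ∑ m ∈ Finset.range p, C (hfm m * m) * psi2 p (PP A r s ^ (m - 1) * g * V)

theorem Gam_dvd (hfm : ℕ → B) (A : B) (r s : J → B) (g' V : MvPolynomial (Fin 2) B) (c : B) :
    Gam p hfm A r s (C c * g') V = C c * Gam p hfm A r s g' V := by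
  rw [Gam, Gam, Finset.mul_sum]
  refine Finset.sum_congr rfl fun m _ => ?_
  have e1 : PP A r s ^ (m - 1) * (C c * g') * V = C c * (PP A r s ^ (m - 1) * g' * V) := by ring
  rw [e1, psi2_C_mul]
  ring

theorem Gam_high (hfm : ℕ → B) (A : B) (r s : J → B) (g V : MvPolynomial (Fin 2) B) (n k d : ℕ)
    (hJ : Fintype.card J = d) (hd : 0 < d) (hg : g.totalDegree ≤ n) (hV : V.totalDegree + 2 ≤ k)
    (hnk : n + k < 2 * d) (v : Fin 2 →₀ ℕ) (hv : d ≤ v.degree + 2) :
    coeff v (Gam p hfm A r s g V) = 0 := by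
  rw [Gam, coeff_sum]
  refine Finset.sum_eq_zero fun m hm => ?_
  rw [Finset.mem_range] at hm
  rw [coeff_C_mul]
  rcases Nat.eq_zero_or_pos m with rfl | hm0
  · rw [Nat.cast_zero, mul_zero, zero_mul]
  · have h1 : (PP A r s ^ (m - 1) * g * V).totalDegree ≤ (m - 1) * d + n + V.totalDegree :=
      deg_mul (deg_mul (deg_pow (by rw [← hJ]; exact PP_deg A r s) _) hg) le_rfl
    rw [psi2_high h1, mul_zero]
    have h2 : p * d ≤ p * (v.degree + 2) := Nat.mul_le_mul_left _ hv
    have h3 : (m - 1) * d + 2 * d ≤ p * d := by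
      rw [← add_mul]
      exact Nat.mul_le_mul_right _ (by omega)
    omega

theorem TV_eq (hfm : ℕ → B) (A : B) (r s : J → B) (g V : MvPolynomial (Fin 2) B) (hg2 : g ^ 2 = 0) :
    TV p hfm A r s g V = (∑ m ∈ Finset.range p, C (hfm m) * psi2 p (PP A r s ^ m * V)) +
      Gam p hfm A r s g V - psi2 p (PP A r s ^ (p - 1) * g * V) := by
  rw [TV, Gam, ← Finset.sum_add_distrib]
  congr 1
  refine Finset.sum_congr rfl fun m _ => ?_
  have e1 : (PP A r s + g) ^ m * V = PP A r s ^ m * V + C (m : B) * (PP A r s ^ (m - 1) * g * V) := by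
    rw [add_pow_sq hg2]
    have : (C (m : B) : MvPolynomial (Fin 2) B) = (m : MvPolynomial (Fin 2) B) := map_natCast C m
    rw [this]
    ring
  rw [e1, psi2_add, psi2_C_mul, C_mul]
  ring

/-- **the value at the form of a line** -/
theorem TV_VF [CharP B p] (hfm : ℕ → B) (hh : hfm (p - 1) = -1)
    (hunit : ∀ m, m + 1 < p → IsUnit ((m + 1 : ℕ) : B)) (A : B) (r s : J → B)
    (g : MvPolynomial (Fin 2) B) (hg2 : g ^ 2 = 0) (hg : g.totalDegree ≤ p - 1)
    (hs : ∀ j, s j ^ p = 0) (i : J) (hu : ∀ m, m ≠ i → IsUnit (r m - r i))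
    (x y : J → B) (h1 : ∀ m, m ≠ i → x m - r m * y m - s m = 0)
    (h2 : ∀ m, m ≠ i → x m - r i * y m - s i = 0) :
    TV p hfm A r s g (VF A r s i) =
      -(VF (A ^ p) (fun j => r j ^ p) (fun _ => 0) i + ∑ m ∈ Finset.univ.erase i,
        C (eval ![x m, y m] g) * EEm (A ^ p) (fun j => r j ^ p) (fun _ => 0) i m) +
      Gam p hfm A r s g (VF A r s i) := by
  have hp1 := hp.out.one_lt
  have hs' : (fun j => s j ^ p) = fun _ => (0 : B) := funext hs
  rw [TV_eq _ _ _ _ _ _ hg2]
  have e1 : ∑ m ∈ Finset.range p, C (hfm m) * psi2 p (PP A r s ^ m * VF A r s i) =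
      -VF (A ^ p) (fun j => r j ^ p) (fun _ => 0) i := by
    obtain ⟨q, hq⟩ : ∃ q, p = q + 1 := ⟨p - 1, by omega⟩
    rw [Finset.sum_eq_single (p - 1)]
    · rw [hh, C2 A r s i hu x y h1 h2, hs', C_neg, C_1]
      ring
    · intro m hm hne
      rw [Finset.mem_range] at hm
      rw [C1 A r s i m (hunit m (by omega)), mul_zero]
    · intro h
      exact absurd (Finset.mem_range.2 (by omega)) h
  have e2 : psi2 p (PP A r s ^ (p - 1) * g * VF A r s i) = ∑ m ∈ Finset.univ.erase i,
        C (eval ![x m, y m] g) * EEm (A ^ p) (fun j => r j ^ p) (fun _ => 0) i m := by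
    rw [mul_assoc, C3 A r s i hu x y h1 h2 g hg, hs']
  rw [e1, e2]
  ring

/-- the value at forms of small degree -/
theorem TV_low (hfm : ℕ → B) (A : B) (r s : J → B) (g' V : MvPolynomial (Fin 2) B) (c : B)
    (d n : ℕ) (hJ : Fintype.card J = d) (hd : 0 < d)
    (hg : (C c * g').totalDegree ≤ d) (hV : V.totalDegree ≤ n)
    (hn : n + 2 < d) (v : Fin 2 →₀ ℕ) (hv : d ≤ v.degree + 2) :
    ∃ x : B, coeff v (TV p hfm A r s (C c * g') V) = c * x := by
  have hp1 := hp.out.one_lt
  refine ⟨-coeff v (psi2 p (PP A r s ^ (p - 1) * g' * V)), ?_⟩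
  have e1 : PP A r s ^ (p - 1) * (C c * g') * V = C c * (PP A r s ^ (p - 1) * g' * V) := by ring
  rw [TV, coeff_sub, e1, psi2_C_mul, coeff_C_mul, coeff_sum, Finset.sum_eq_zero]
  · ring
  · intro m hm
    rw [Finset.mem_range] at hm
    have h1 : ((PP A r s + C c * g') ^ m * V).totalDegree ≤ m * d + n :=
      deg_mul (deg_pow (deg_add (by rw [← hJ]; exact PP_deg A r s) hg) _) hV
    rw [coeff_C_mul, psi2_high h1, mul_zero]
    have h2 : p * d ≤ p * (v.degree + 2) := Nat.mul_le_mul_left _ hv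
    have h3 : m * d + d ≤ p * d := by
      have : m * d + d = (m + 1) * d := by ring
      rw [this]
      exact Nat.mul_le_mul_right _ (by omega)
    omega

/-- forms without constant terms are homogeneous -/
theorem EEm_homog (A : B) (r : J → B) (i m : J) (h : m ≠ i) :
    (EEm A r (fun _ => 0) i m).IsHomogeneous (Fintype.card J - 2) := by
  have h1 : ∀ j, (ell (r j) (0 : B)).IsHomogeneous 1 := by
    intro j
    rw [ell, C_0, sub_zero]
    refine (isHomogeneous_X _ _).sub ?_
    have := (isHomogeneous_C (Fin 2) (r j)).mul (isHomogeneous_X B (1 : Fin 2))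
    rwa [zero_add] at this
  have h2 := IsHomogeneous.prod ((Finset.univ.erase i).erase m) (fun j => ell (r j) (0 : B))
    (fun _ => 1) (fun j _ => h1 j)
  rw [Finset.sum_const, smul_eq_mul, mul_one,
    Finset.card_erase_of_mem (Finset.mem_erase.2 ⟨h, Finset.mem_univ _⟩),
    Finset.card_erase_of_mem (Finset.mem_univ i), Finset.card_univ] at h2
  have h3 := (isHomogeneous_C (Fin 2) (A * (r m - r i))).mul h2
  have h4 : 0 + (Fintype.card J - 1 - 1) = Fintype.card J - 2 := by omega
  rw [h4] at h3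
  exact h3

theorem VF_homog (A : B) (r : J → B) (i : J) :
    (VF A r (fun _ => 0) i).IsHomogeneous (Fintype.card J - 2) :=
  IsHomogeneous.sum _ _ _ fun m hm => EEm_homog A r i m (Finset.ne_of_mem_erase hm)

/-- the leading part of a product of lines -/
theorem top_prod (r s : J → B) (T : Finset J) (v : Fin 2 →₀ ℕ) (hv : v.degree = T.card) :
    coeff v (∏ j ∈ T, ell (r j) (s j)) = coeff v (∏ j ∈ T, ell (r j) 0) := by
  induction T using Finset.induction_on generalizing v with
  | empty => rw [Finset.prod_empty, Finset.prod_empty]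
  | insert a T ha ih =>
    rw [Finset.card_insert_of_notMem ha] at hv
    rw [Finset.prod_insert ha, Finset.prod_insert ha]
    set F := ∏ j ∈ T, ell (r j) (s j) with hF
    set F' := ∏ j ∈ T, ell (r j) 0 with hF'
    have hdF : F.totalDegree ≤ T.card := by
      have := deg_prod T (fun j => ell (r j) (s j)) (fun j _ => ell_deg _ _)
      rwa [mul_one] at this
    have hX : ∀ k : Fin 2, coeff v (X k * F) = coeff v (X k * F') := by
      intro k
      by_cases hk : v k = 0
      · rw [coeff_pt_zero _ _ _ hk, coeff_pt_zero _ _ _ hk]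
      · obtain ⟨w, rfl⟩ : ∃ w, v = w + Finsupp.single k 1 := by
          refine ⟨v - Finsupp.single k 1, ?_⟩
          rw [tsub_add_cancel_of_le]
          rw [Finsupp.single_le_iff]
          omega
        rw [coeff_pt, coeff_pt]
        refine ih w ?_
        rw [map_add, Finsupp.degree_single] at hv
        omega
    have e1 : ell (r a) (s a) * F = X 0 * F - C (r a) * (X 1 * F) - C (s a) * F := by
      rw [ell]; ring
    have e2 : ell (r a) 0 * F' = X 0 * F' - C (r a) * (X 1 * F') := by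
      rw [ell, C_0]; ring
    rw [e1, e2, coeff_sub, coeff_sub, coeff_sub, coeff_C_mul, coeff_C_mul, coeff_C_mul, hX, hX,
      coeff_deg hdF v (by omega)]
    ring

theorem EEm_top (A : B) (r s : J → B) (i m : J) (h : m ≠ i) (v : Fin 2 →₀ ℕ)
    (hv : v.degree = Fintype.card J - 2) :
    coeff v (EEm A r s i m) = coeff v (EEm A r (fun _ => 0) i m) := by
  rw [EEm, EEm, coeff_C_mul, coeff_C_mul, top_prod]
  rw [hv, Finset.card_erase_of_mem (Finset.mem_erase.2 ⟨h, Finset.mem_univ _⟩),
    Finset.card_erase_of_mem (Finset.mem_univ i), Finset.card_univ]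
  omega

theorem VF_top (A : B) (r s : J → B) (i : J) (v : Fin 2 →₀ ℕ)
    (hv : v.degree = Fintype.card J - 2) :
    coeff v (VF A r s i) = coeff v (VF A r (fun _ => 0) i) := by
  rw [VF, VF, coeff_sum, coeff_sum]
  exact Finset.sum_congr rfl fun m hm => EEm_top A r s i m (Finset.ne_of_mem_erase hm) v hv

end Pool.Agent.H856.SO
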